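import Pool.Agent.H69.PFR.Star2
import Pool.Agent.H9.F2.L2

/-! (B5'): doubling through conditional copies.  For independent `X`, `Y` (the label of `Y` is
almost surely constant) and `Z = (Y_1 | Y_1 + Y_2)`:
`H(X + Y) >= (1/2) H(X + Z) + (1/2) E_S H(X + Z_S + Z_S')`. -/

set_option autoImplicit false

namespace F2

open H2INV Finset PFREnd

noncomputable section

/-- congruence of conditional entropies on the support -/
theorem cent_congr_ae {Om : Type*} [Fintype Om] {α α' β β' : Type*} {m : Om → ℝ} {f : Om → α}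
    {g : Om → β} {f' : Om → α'} {g' : Om → β'}
    (h1 : ∀ w w', m w ≠ 0 → m w' ≠ 0 → (g w = g w' ↔ g' w = g' w'))
    (h2 : ∀ w w', m w ≠ 0 → m w' ≠ 0 → g w = g w' → (f w = f w' ↔ f' w = f' w')) :
    cent m f g = cent m f' g' := by
  unfold cent
  rw [ent_congr_ae (m := m) (f := g) (g := g') h1,
    ent_congr_ae (m := m) (f := pr f g) (g := pr f' g') (fun w w' hw hw' => by
      rw [pr_eq, pr_eq, ← h1 w w' hw hw']
      constructor
      · rintro ⟨a, b⟩
        exact ⟨(h2 w w' hw hw' b).1 a, b⟩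
      · rintro ⟨a, b⟩
        exact ⟨(h2 w w' hw hw' b).2 a, b⟩)]

variable {E : Type} [AddCommGroup E]

theorem b5 [Two E] (X Y : Fam E)
    (hY : ∀ w w', 0 < Y.m w → 0 < Y.m w' → Y.J w = Y.J w') :
    H (add X (fold Y Y)) + ∑ w, (fold Y Y).m w *
        H (add X (add (sl (fold Y Y) w) (sl (fold Y Y) w))) ≤ 2 * H (add X Y) := by
  classical
  set Z := fold Y Y with hZ
  -- the two factors
  let m : X.Om × (Y.Om × Y.Om) → ℝ := prodPM X.m Z.m
  have hm : IsPM m := isPM_prod X.hm Z.hm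
  let c : X.Om × (Y.Om × Y.Om) → E × Y.St × Y.St := fun a => Z.J a.2
  let M := cprod m c
  have hM : IsPM M := isPM_cprod hm c
  have mp1 : MP M Prod.fst m := mp_cprod_fst hm c
  have mp2 : MP M Prod.snd m := mp_cprod_snd hm c
  -- functions
  let Z1 : X.Om × (Y.Om × Y.Om) → E := fun a => X.X a.1 + Y.X a.2.1
  let Z2 : X.Om × (Y.Om × Y.Om) → E := fun a => X.X a.1 + Y.X a.2.2
  let Y1 : X.Om × (Y.Om × Y.Om) → E := fun a => Y.X a.2.1
  let Y2 : X.Om × (Y.Om × Y.Om) → E := fun a => Y.X a.2.2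
  let l : X.Om × (Y.Om × Y.Om) → X.St := fun a => X.J a.1
  let Xt : (X.Om × (Y.Om × Y.Om)) × (X.Om × (Y.Om × Y.Om)) → E := fun z => Z1 z.1 + Y1 z.2
  -- supports
  have hms : ∀ a, m a ≠ 0 → X.m a.1 ≠ 0 ∧ 0 < Y.m a.2.1 ∧ 0 < Y.m a.2.2 := by
    intro a ha
    have h1 : X.m a.1 * (Y.m a.2.1 * Y.m a.2.2) ≠ 0 := ha
    have h2 := right_ne_zero_of_mul h1
    exact ⟨left_ne_zero_of_mul h1, lt_of_le_of_ne (Y.hm.nonneg _) (Ne.symm (left_ne_zero_of_mul h2)),
      lt_of_le_of_ne (Y.hm.nonneg _) (Ne.symm (right_ne_zero_of_mul h2))⟩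
  have hMs : ∀ z, M z ≠ 0 → c z.1 = c z.2 ∧ m z.1 ≠ 0 ∧ m z.2 ≠ 0 := by
    intro z hz
    have h1 : c z.1 = c z.2 := by
      by_contra h
      exact hz (cprod_eq_zero m c h)
    refine ⟨h1, fun h => hz ?_, fun h => hz ?_⟩
    · change cprod m c z = 0
      unfold cprod
      rw [if_pos h1, h, zero_mul, zero_div]
    · change cprod m c z = 0
      unfold cprod
      rw [if_pos h1, h, mul_zero, zero_div]
  have hcs : ∀ a b, m a ≠ 0 → m b ≠ 0 → (c a = c b ↔ Y1 a + Y2 a = Y1 b + Y2 b) := by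
    intro a b ha hb
    obtain ⟨-, a1, a2⟩ := hms a ha
    obtain ⟨-, b1, b2⟩ := hms b hb
    have e1 := hY _ _ a1 b1
    have e2 := hY _ _ a2 b2
    have : c a = c b ↔ (Y.X a.2.1 + Y.X a.2.2 = Y.X b.2.1 + Y.X b.2.2 ∧
        Y.J a.2.1 = Y.J b.2.1 ∧ Y.J a.2.2 = Y.J b.2.2) := by
      simp only [c, Z, fold, Prod.mk.injEq]
    rw [this]
    exact ⟨fun h => h.1, fun h => ⟨h, e1, e2⟩⟩
  have t2 : ∀ x : E, x + x = 0 := Two.two
  -- submodularity
  have hsub := cent_submod hM (fun z => Z1 z.1) (fun z => Z2 z.1) Xt (fun z => l z.1)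
  -- E1: the join
  have hjoin : ent M (pr (pr (pr (fun z => Z1 z.1) (fun z => Z2 z.1)) Xt) (fun z => l z.1))
      = ent m (pr (pr Z1 l) c) + ent m (pr Y1 c) - ent m c := by
    have h1 := ent_cprod hm c (pr Z1 l) Y1
    have h2 : ent M (pr (pr (pr (fun z => Z1 z.1) (fun z => Z2 z.1)) Xt) (fun z => l z.1))
        = ent (cprod m c) (fun w => ((pr Z1 l w.1, Y1 w.2), c w.1)) := by
      refine ent_congr_ae fun z z' hz hz' => ?_
      obtain ⟨-, a1, -⟩ := hMs z hz
      obtain ⟨-, b1, -⟩ := hMs z' hz'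
      have hc := hcs z.1 z'.1 a1 b1
      have hs : ∀ a : X.Om × (Y.Om × Y.Om), Y1 a + Y2 a = Z1 a + Z2 a := by
        intro a
        have : Z1 a + Z2 a = (X.X a.1 + X.X a.1) + (Y1 a + Y2 a) := by
          simp only [Z1, Z2, Y1, Y2]
          abel
        rw [this, t2, zero_add]
      simp only [pr, Prod.mk.injEq]
      rw [hc, hs, hs]
      constructor
      · rintro ⟨⟨⟨x1, x2⟩, x3⟩, x4⟩
        refine ⟨⟨⟨x1, x4⟩, ?_⟩, by rw [x1, x2]⟩
        have x3' : Z1 z.1 + Y1 z.2 = Z1 z'.1 + Y1 z'.2 := x3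
        rw [x1] at x3'
        exact add_left_cancel x3'
      · rintro ⟨⟨⟨x1, x4⟩, x3⟩, x2⟩
        rw [x1] at x2
        refine ⟨⟨⟨x1, add_left_cancel x2⟩, ?_⟩, x4⟩
        change Z1 z.1 + Y1 z.2 = Z1 z'.1 + Y1 z'.2
        rw [x1, x3]
    rw [h2]
    linarith
  -- marginals
  have hlM : ent M (fun z => l z.1) = ent m l := ent_comp_of_mp mp1 l
  have hZ1M : ent M (pr (fun z => Z1 z.1) (fun z => l z.1)) = ent m (pr Z1 l) :=
    ent_comp_of_mp mp1 (pr Z1 l)
  have hZ2M : ent M (pr (fun z => Z2 z.1) (fun z => l z.1)) = ent m (pr Z2 l) :=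
    ent_comp_of_mp mp1 (pr Z2 l)
  have hY1M : ent M (fun z => Y1 z.2) = ent m Y1 := ent_comp_of_mp mp2 Y1
  have hY2M : ent M (fun z => Y2 z.2) = ent m Y2 := ent_comp_of_mp mp2 Y2
  -- entropy of Y1 and Y2
  have hHY : H Y = ent Y.m Y.X := cent_triv_ae Y.hm _ _ fun w w' hw hw' =>
    hY w w' (lt_of_le_of_ne (Y.hm.nonneg _) (Ne.symm hw))
      (lt_of_le_of_ne (Y.hm.nonneg _) (Ne.symm hw'))
  have hY1 : ent m Y1 = H Y := by
    rw [hHY]
    have hmp : MP m (fun a : X.Om × (Y.Om × Y.Om) => a.2.1) Y.m :=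
      (mp_snd X.hm).comp (mp_fst Y.hm)
    exact ent_comp_of_mp hmp Y.X
  have hY2 : ent m Y2 = H Y := by
    rw [hHY]
    have hmp : MP m (fun a : X.Om × (Y.Om × Y.Om) => a.2.2) Y.m :=
      (mp_snd X.hm).comp (mp_snd Y.hm)
    exact ent_comp_of_mp hmp Y.X
  -- entropy of Z1, Z2 given l
  have hXY : H (add X Y) = cent (prodPM X.m Y.m) (fun w => X.X w.1 + Y.X w.2)
      (fun w => X.J w.1) := by
    refine cent_congr_ae (fun w w' hw hw' => ?_) (fun _ _ _ _ _ => Iff.rfl)
    have h1 : X.m w.1 * Y.m w.2 ≠ 0 := hw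
    have h2 : X.m w'.1 * Y.m w'.2 ≠ 0 := hw'
    have h3 := hY w.2 w'.2
      (lt_of_le_of_ne (Y.hm.nonneg _) (Ne.symm (right_ne_zero_of_mul h1)))
      (lt_of_le_of_ne (Y.hm.nonneg _) (Ne.symm (right_ne_zero_of_mul h2)))
    simp only [add, Prod.mk.injEq]
    exact ⟨fun h => h.1, fun h => ⟨h, h3⟩⟩
  have hZ1 : cent m Z1 l = H (add X Y) := by
    rw [hXY]
    have hmp : MP m (fun a : X.Om × (Y.Om × Y.Om) => (a.1, a.2.1)) (prodPM X.m Y.m) :=
      mp_prodMap (mp_id X.m) (mp_fst Y.hm)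
    exact cent_comp_of_mp hmp (fun w : X.Om × Y.Om => X.X w.1 + Y.X w.2) (fun w => X.J w.1)
  have hZ2 : cent m Z2 l = H (add X Y) := by
    rw [hXY]
    have hmp : MP m (fun a : X.Om × (Y.Om × Y.Om) => (a.1, a.2.2)) (prodPM X.m Y.m) :=
      mp_prodMap (mp_id X.m) (mp_snd Y.hm)
    exact cent_comp_of_mp hmp (fun w : X.Om × Y.Om => X.X w.1 + Y.X w.2) (fun w => X.J w.1)
  -- E2, E3
  have hE2 : cent M (pr (fun z => Z1 z.1) Xt) (fun z => l z.1) ≤ H (add X Y) + H Y := by
    have h1 : cent M (pr (fun z => Z1 z.1) Xt) (fun z => l z.1)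
        = cent M (pr (fun z => Z1 z.1) (fun z => Y1 z.2)) (fun z => l z.1) :=
      cent_congr_ae (fun _ _ _ _ => Iff.rfl) (fun z z' _ _ _ => by
        simp only [pr, Prod.mk.injEq]
        constructor
        · rintro ⟨x1, x3⟩
          have x3' : Z1 z.1 + Y1 z.2 = Z1 z'.1 + Y1 z'.2 := x3
          rw [x1] at x3'
          exact ⟨x1, add_left_cancel x3'⟩
        · rintro ⟨x1, x3⟩
          refine ⟨x1, ?_⟩
          change Z1 z.1 + Y1 z.2 = Z1 z'.1 + Y1 z'.2
          rw [x1, x3])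
    have h2 := cent_submod hM (fun z => Z1 z.1) (fun z => Y1 z.2) (fun _ => ()) (fun z => l z.1)
    have h3 : cent M (pr (pr (fun z => Z1 z.1) (fun z => Y1 z.2)) (fun _ => ())) (fun z => l z.1)
        = cent M (pr (fun z => Z1 z.1) (fun z => Y1 z.2)) (fun z => l z.1) :=
      cent_congr_ae (fun _ _ _ _ => Iff.rfl) (fun z z' _ _ _ => by simp [pr])
    have h4 : cent M (pr (fun z => Z1 z.1) (fun _ => ())) (fun z => l z.1)
        = cent m Z1 l := by
      rw [← cent_comp_of_mp mp1 Z1 l]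
      exact cent_congr_ae (fun _ _ _ _ => Iff.rfl) (fun z z' _ _ _ => by simp [pr])
    have h5 : cent M (pr (fun z => Y1 z.2) (fun _ => ())) (fun z => l z.1) ≤ H Y := by
      refine (cent_le_ent hM _ _).trans (le_of_eq ?_)
      rw [← hY1, ← hY1M]
      exact ent_congr _ fun z z' => by simp [pr]
    have h6 : 0 ≤ cent M (fun _ => ()) (fun z => l z.1) := cent_nonneg hM _ _
    rw [h1]
    rw [h3, h4, hZ1] at h2
    linarith
  have hE3 : cent M (pr (fun z => Z2 z.1) Xt) (fun z => l z.1) ≤ H (add X Y) + H Y := by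
    have h1 : cent M (pr (fun z => Z2 z.1) Xt) (fun z => l z.1)
        = cent M (pr (fun z => Z2 z.1) (fun z => Y2 z.2)) (fun z => l z.1) :=
      cent_congr_ae (fun _ _ _ _ => Iff.rfl) (fun z z' hz hz' _ => by
        have key : ∀ z, M z ≠ 0 → Xt z = Z2 z.1 + Y2 z.2 := by
          intro z hz
          obtain ⟨a1, a2, a3⟩ := hMs z hz
          have h := (hcs z.1 z.2 a2 a3).1 a1
          have e1 : Xt z = Z2 z.1 + (Y1 z.1 + Y2 z.1) + Y1 z.2 := by
            have : Z2 z.1 + (Y1 z.1 + Y2 z.1) + Y1 z.2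
                = X.X z.1.1 + Y1 z.1 + (Y2 z.1 + Y2 z.1) + Y1 z.2 := by
              simp only [Z2, Y1, Y2]
              abel
            rw [this, t2, add_zero]
          rw [e1, h]
          have : Z2 z.1 + (Y1 z.2 + Y2 z.2) + Y1 z.2
              = Z2 z.1 + Y2 z.2 + (Y1 z.2 + Y1 z.2) := by abel
          rw [this, t2, add_zero]
        simp only [pr, Prod.mk.injEq]
        rw [key z hz, key z' hz']
        constructor
        · rintro ⟨x1, x3⟩
          rw [x1] at x3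
          exact ⟨x1, add_left_cancel x3⟩
        · rintro ⟨x1, x3⟩
          exact ⟨x1, by rw [x1, x3]⟩)
    have h2 := cent_submod hM (fun z => Z2 z.1) (fun z => Y2 z.2) (fun _ => ()) (fun z => l z.1)
    have h3 : cent M (pr (pr (fun z => Z2 z.1) (fun z => Y2 z.2)) (fun _ => ())) (fun z => l z.1)
        = cent M (pr (fun z => Z2 z.1) (fun z => Y2 z.2)) (fun z => l z.1) :=
      cent_congr_ae (fun _ _ _ _ => Iff.rfl) (fun z z' _ _ _ => by simp [pr])
    have h4 : cent M (pr (fun z => Z2 z.1) (fun _ => ())) (fun z => l z.1)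
        = cent m Z2 l := by
      rw [← cent_comp_of_mp mp1 Z2 l]
      exact cent_congr_ae (fun _ _ _ _ => Iff.rfl) (fun z z' _ _ _ => by simp [pr])
    have h5 : cent M (pr (fun z => Y2 z.2) (fun _ => ())) (fun z => l z.1) ≤ H Y := by
      refine (cent_le_ent hM _ _).trans (le_of_eq ?_)
      rw [← hY2, ← hY2M]
      exact ent_congr _ fun z z' => by simp [pr]
    have h6 : 0 ≤ cent M (fun _ => ()) (fun z => l z.1) := cent_nonneg hM _ _
    rw [h1]
    rw [h3, h4, hZ2] at h2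
    linarith
  -- the join in terms of H
  have hl : ent m (pr l c) = ent m l + ent m c := by
    have h1 := ent_prod X.hm Z.hm X.J Z.J
    have h2 : ent m l = ent X.m X.J := ent_comp_of_mp (mp_fst Z.hm) X.J
    have h3 : ent m c = ent Z.m Z.J := ent_comp_of_mp (mp_snd X.hm) Z.J
    rw [h2, h3, ← h1]
    rfl
  have hXZ : H (add X Z) = ent m (pr (pr Z1 l) c) - ent m (pr l c) := by
    have : H (add X Z) = cent m Z1 (pr l c) := rfl
    rw [this]
    unfold cent
    congr 1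
    exact ent_congr _ fun w w' => by
      simp only [pr_eq]
      tauto
  have hYc : ent m (pr Y1 c) - ent m c = H Z := by
    have h1 : ent m (pr Y1 c) = ent Z.m (pr Z.X Z.J) := ent_comp_of_mp (mp_snd X.hm) (pr Z.X Z.J)
    have h3 : ent m c = ent Z.m Z.J := ent_comp_of_mp (mp_snd X.hm) Z.J
    rw [h1, h3]
    rfl
  have hHZ : H Z + ent m c = 2 * H Y := by
    -- H Z + ent c = ent (Y1, c) = ent (Y1, Y2) = 2 H Y
    have h1 : ent m (pr Y1 c) = ent Z.m (fun w : Y.Om × Y.Om => (Y.X w.1, Y.X w.2)) := by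
      have h2 : ent m (pr Y1 c) = ent Z.m (pr Z.X Z.J) :=
        ent_comp_of_mp (mp_snd X.hm) (pr Z.X Z.J)
      rw [h2]
      refine ent_congr_ae fun w w' hw hw' => ?_
      have k1 : Y.m w.1 * Y.m w.2 ≠ 0 := hw
      have k2 : Y.m w'.1 * Y.m w'.2 ≠ 0 := hw'
      have k3 := hY w.1 w'.1
        (lt_of_le_of_ne (Y.hm.nonneg _) (Ne.symm (left_ne_zero_of_mul k1)))
        (lt_of_le_of_ne (Y.hm.nonneg _) (Ne.symm (left_ne_zero_of_mul k2)))
      have k4 := hY w.2 w'.2
        (lt_of_le_of_ne (Y.hm.nonneg _) (Ne.symm (right_ne_zero_of_mul k1)))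
        (lt_of_le_of_ne (Y.hm.nonneg _) (Ne.symm (right_ne_zero_of_mul k2)))
      simp only [pr, Z, fold, Prod.mk.injEq]
      constructor
      · rintro ⟨x1, x2, -⟩
        rw [x1] at x2
        exact ⟨x1, add_left_cancel x2⟩
      · rintro ⟨x1, x2⟩
        exact ⟨x1, by rw [x1, x2], k3, k4⟩
    have h3 : ent Z.m (fun w : Y.Om × Y.Om => (Y.X w.1, Y.X w.2)) = ent Y.m Y.X + ent Y.m Y.X :=
      ent_prod Y.hm Y.hm Y.X Y.X
    rw [h1, h3, ← hHY] at hYc
    linarith
  -- conditioning the sum of three on c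
  have hlast : ∑ w, Z.m w * H (add X (add (sl Z w) (sl Z w))) ≤ cent M Xt (fun z => l z.1) := by
    have h1 : cent M Xt (fun z => pr l c z.1) ≤ cent M Xt (fun z => l z.1) :=
      cent_anti hM Xt fun z z' h => by
        simp only [pr, Prod.mk.injEq] at h
        exact h.1
    refine le_trans (le_of_eq ?_) h1
    -- average
    have h2 := cent_chain M Xt (fun z => l z.1) (fun z => c z.1)
    have h3 : cent M Xt (fun z => pr l c z.1) = cent M Xt (pr (fun z => l z.1) (fun z => c z.1)) :=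
      rfl
    have h4 := cent_cprod_avg hm c (pr Xt (fun z => l z.1))
    have h5 := cent_cprod_avg hm c (fun z => l z.1)
    rw [h3]
    have h6 : cent M Xt (pr (fun z => l z.1) (fun z => c z.1))
        = ∑ a, m a * (ent (prodPM (condPM m c (c a)) (condPM m c (c a))) (pr Xt (fun z => l z.1))
          - ent (prodPM (condPM m c (c a)) (condPM m c (c a))) (fun z => l z.1)) := by
      simp_rw [mul_sub]
      rw [Finset.sum_sub_distrib, ← h4, ← h5]
      linarith
    rw [h6]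
    -- each term only depends on a.2
    have h7 : ∀ a, m a ≠ 0 →
        ent (prodPM (condPM m c (c a)) (condPM m c (c a))) (pr Xt (fun z => l z.1))
          - ent (prodPM (condPM m c (c a)) (condPM m c (c a))) (fun z => l z.1)
        = H (add X (add (sl Z a.2) (sl Z a.2))) := by
      intro a ha
      have hpos : 0 < Z.m a.2 := by
        have h1 : X.m a.1 * Z.m a.2 ≠ 0 := ha
        exact lt_of_le_of_ne (Z.hm.nonneg _) (Ne.symm (right_ne_zero_of_mul h1))
      have hsl : (sl Z a.2).m = condPM Z.m Z.J (Z.J a.2) := sl_m Z hpos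
      have hcond : condPM m c (c a) = prodPM X.m (sl Z a.2).m := by
        rw [hsl]
        exact PFREnd.condPM_prod X.hm Z.J (Z.J a.2)
      rw [hcond]
      have hp : IsPM (sl Z a.2).m := (sl Z a.2).hm
      have hmp : MP (prodPM (prodPM X.m (sl Z a.2).m) (prodPM X.m (sl Z a.2).m))
          (fun z => (z.1.1, (z.1.2, z.2.2))) (prodPM X.m (prodPM (sl Z a.2).m (sl Z a.2).m)) := by
        have e1 : MP (prodPM (prodPM X.m (sl Z a.2).m) (prodPM X.m (sl Z a.2).m))
            (fun z => (z.1, z.2.2)) (prodPM (prodPM X.m (sl Z a.2).m) (sl Z a.2).m) :=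
          mp_prodMap (mp_id _) (mp_snd X.hm)
        exact e1.comp (mp_assoc X.m (sl Z a.2).m (sl Z a.2).m)
      have e2 := cent_comp_of_mp hmp
        (fun z : X.Om × ((Y.Om × Y.Om) × (Y.Om × Y.Om)) => X.X z.1 + (Y.X z.2.1.1 + Y.X z.2.2.1))
        (fun z => X.J z.1)
      have e3 : H (add X (add (sl Z a.2) (sl Z a.2)))
          = cent (prodPM X.m (prodPM (sl Z a.2).m (sl Z a.2).m))
            (fun z : X.Om × ((Y.Om × Y.Om) × (Y.Om × Y.Om)) =>
              X.X z.1 + (Y.X z.2.1.1 + Y.X z.2.2.1))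
            (fun z => X.J z.1) := by
        refine cent_congr_ae (fun z z' hz hz' => ?_) (fun _ _ _ _ _ => Iff.rfl)
        have key : ∀ z : X.Om × ((Y.Om × Y.Om) × (Y.Om × Y.Om)),
            prodPM X.m (prodPM (sl Z a.2).m (sl Z a.2).m) z ≠ 0 →
            Z.J z.2.1 = Z.J a.2 ∧ Z.J z.2.2 = Z.J a.2 := by
          intro z hz
          rw [hsl] at hz
          have h1 := right_ne_zero_of_mul (show X.m z.1 * prodPM (condPM Z.m Z.J (Z.J a.2))
            (condPM Z.m Z.J (Z.J a.2)) z.2 ≠ 0 from hz)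
          have h2 : condPM Z.m Z.J (Z.J a.2) z.2.1 * condPM Z.m Z.J (Z.J a.2) z.2.2 ≠ 0 := h1
          exact ⟨(condPM_supp (left_ne_zero_of_mul h2)).2,
            (condPM_supp (right_ne_zero_of_mul h2)).2⟩
        obtain ⟨a1, a2⟩ := key z hz
        obtain ⟨b1, b2⟩ := key z' hz'
        have c1 : Z.J z.2.1 = Z.J z'.2.1 := a1.trans b1.symm
        have c2 : Z.J z.2.2 = Z.J z'.2.2 := a2.trans b2.symm
        constructor
        · intro h
          exact (Prod.mk.inj h).1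
        · intro h
          exact Prod.ext h (Prod.ext c1 c2)
      rw [e3, ← e2]
      have e4 : ∀ (P : (X.Om × (Y.Om × Y.Om)) × (X.Om × (Y.Om × Y.Om)) → ℝ),
          ent P (pr Xt (fun z => l z.1)) - ent P (fun z => l z.1)
            = cent P (fun z => X.X z.1.1 + (Y.X z.1.2.1 + Y.X z.2.2.1)) (fun z => X.J z.1.1) := by
        intro P
        unfold cent
        congr 1
        refine ent_congr _ fun z z' => ?_
        simp only [pr, Prod.mk.injEq, Xt, Z1, Y1, l, add_assoc]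
      exact e4 _
    have h8 : ∑ a, m a * (ent (prodPM (condPM m c (c a)) (condPM m c (c a)))
          (pr Xt (fun z => l z.1))
          - ent (prodPM (condPM m c (c a)) (condPM m c (c a))) (fun z => l z.1))
        = ∑ a, m a * H (add X (add (sl Z a.2) (sl Z a.2))) := by
      refine Finset.sum_congr rfl fun a _ => ?_
      by_cases ha : m a = 0
      · rw [ha, zero_mul, zero_mul]
      · rw [h7 a ha]
    rw [h8]
    exact ((mp_snd (m := X.m) (m' := Z.m) X.hm).sum_eq
      (fun w => H (add X (add (sl Z w) (sl Z w))))).symm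
  -- conclusion
  unfold cent at hsub hE2 hE3 hlast
  linarith

end

end F2
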