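import Pool.Agent.H69.PFR.Star
import Pool.Agent.H9.F2.L1

/-! PFR* in the language of helper9's families (`F2.Fam`, one ambient group, subgroups `V`). -/

set_option autoImplicit false

namespace PFREnd

open H2INV Finset

noncomputable section

/-- compactness with a closed constraint -/
theorem exists_limit2 {W : Type*} [AddCommGroup W] [Fintype W] (C : Set (W → ℝ))
    (hC : IsClosed C) (Ph : (W → ℝ) → ℝ) (hPh : Continuous Ph) (c : ℝ)
    (h : ∀ δ : ℝ, 0 < δ → ∃ q : W → ℝ, IsLaw q ∧ q ∈ C ∧ d q q ≤ δ ∧ Ph q ≤ c + δ) :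
    ∃ q : W → ℝ, IsLaw q ∧ q ∈ C ∧ d q q ≤ 0 ∧ Ph q ≤ c := by
  have hcont : Continuous (fun q : W → ℝ => max (d q q) (Ph q - c)) :=
    continuous_d_self.max (hPh.sub continuous_const)
  obtain ⟨q0, hq0, hq0C, -⟩ := h 1 one_pos
  have hne : (stdSimplex ℝ W ∩ C).Nonempty := ⟨q0, hq0, hq0C⟩
  obtain ⟨q, hq, hmin⟩ := ((isCompact_stdSimplex ℝ W).inter_right hC).exists_isMinOn hne
    hcont.continuousOn
  have hle : max (d q q) (Ph q - c) ≤ 0 := by
    by_contra hlt
    push Not at hlt
    obtain ⟨q1, hq1, hq1C, h1, h2⟩ := h (max (d q q) (Ph q - c) / 2) (by linarith)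
    have := hmin (show q1 ∈ stdSimplex ℝ W ∩ C from ⟨hq1, hq1C⟩)
    simp only [Set.mem_ofPred_eq] at this
    have h3 : max (d q1 q1) (Ph q1 - c) ≤ max (d q q) (Ph q - c) / 2 :=
      max_le h1 (by linarith)
    linarith
  exact ⟨q, hq.1, hq.2, (le_max_left _ _).trans hle,
    by linarith [(le_max_right (d q q) (Ph q - c)).trans hle]⟩

/-- laws supported in one coset of `V` -/
def suppC {W : Type*} [AddCommGroup W] (V : AddSubgroup W) : Set (W → ℝ) :=
  {q | ∀ x y, x - y ∉ V → q x * q y = 0}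

theorem isClosed_suppC {W : Type*} [AddCommGroup W] (V : AddSubgroup W) :
    IsClosed (suppC V) := by
  have : suppC V = ⋂ (x : W) (y : W) (_ : x - y ∉ V), {q : W → ℝ | q x * q y = 0} := by
    ext q
    simp [suppC]
  rw [this]
  refine isClosed_iInter fun x => isClosed_iInter fun y => isClosed_iInter fun _ => ?_
  exact isClosed_eq ((continuous_apply x).mul (continuous_apply y)) continuous_const

/-- `F2.Fam` to `H96.Fam` -/
def cv {E : Type} (U : F2.Fam E) : Pool.Agent.H96.F2.Fam E where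
  Om := U.Om
  fin := U.fin
  m := U.m
  hm := U.hm
  X := U.X
  J := U.St
  lab := U.J

variable {E : Type} [AddCommGroup E]

omit [AddCommGroup E] in
theorem c1_cv (U : F2.Fam E) : c1 (cv U) = F2.H U := rfl

theorem cv_add (U Y : F2.Fam E) : (cv U).add (cv Y) = cv (F2.add U Y) := rfl

/-- a label constant on the support does not matter -/
theorem cent_triv_ae {Om : Type*} [Fintype Om] {α β : Type*} {m : Om → ℝ} (hm : IsPM m)
    (f : Om → α) (g : Om → β) (h : ∀ w w', m w ≠ 0 → m w' ≠ 0 → g w = g w') :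
    cent m f g = ent m f := by
  have h0 : ent m g = 0 := by
    rw [ent_congr_ae (m := m) (f := g) (g := fun _ => ()) (fun w w' hw hw' => by
      simp [h w w' hw hw'])]
    exact ent_const hm fun _ _ => rfl
  unfold cent
  rw [h0, sub_zero]
  refine ent_congr_ae fun w w' hw hw' => ?_
  rw [pr_eq]
  exact ⟨fun a => a.1, fun a => ⟨a, h w w' hw hw'⟩⟩

theorem SD_eq (U : F2.Fam E) : F2.SD U = avg (cv U) (fun Y => c1 (Y.add Y)) := by
  classical
  symm
  unfold F2.SD
  refine avg_eq (cv U) _ (fun w => F2.H (F2.add (F2.sl U w) (F2.sl U w))) fun w hw => ?_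
  have hw0 : 0 < U.m w := lt_of_le_of_ne (U.hm.nonneg w) (Ne.symm hw)
  have hm : (F2.sl U w).m = condPM U.m U.J (U.J w) := by
    unfold F2.sl
    simp only [if_pos hw0]
  have h1 : c1 ((at' (cv U) w hw).add (at' (cv U) w hw))
      = ent (prodPM (condPM U.m U.J (U.J w)) (condPM U.m U.J (U.J w)))
        (fun z : U.Om × U.Om => U.X z.1 + U.X z.2) :=
    cent_triv ((at' (cv U) w hw).add (at' (cv U) w hw)).hm _ _ (fun _ _ => rfl)
  have h2 : F2.H (F2.add (F2.sl U w) (F2.sl U w))
      = ent (prodPM (F2.sl U w).m (F2.sl U w).m)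
        (fun z : U.Om × U.Om => U.X z.1 + U.X z.2) := by
    refine cent_triv_ae (F2.add (F2.sl U w) (F2.sl U w)).hm _ _ fun v v' hv hv' => ?_
    have key : ∀ v : U.Om × U.Om, prodPM (F2.sl U w).m (F2.sl U w).m v ≠ 0 →
        U.J v.1 = U.J w ∧ U.J v.2 = U.J w := by
      intro v hv
      rw [hm] at hv
      exact ⟨(condPM_supp (left_ne_zero_of_mul hv)).2, (condPM_supp (right_ne_zero_of_mul hv)).2⟩
    obtain ⟨a1, a2⟩ := key v hv
    obtain ⟨b1, b2⟩ := key v' hv'
    exact Prod.ext (a1.trans b1.symm) (a2.trans b2.symm)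
  change c1 ((at' (cv U) w hw).add (at' (cv U) w hw)) = _
  rw [h1, h2, hm]
  rfl

/-- entropy of the sum with the uniform law of a coset of `K` -/
theorem GB_coset [Module (ZMod 2) E] [Fintype E] (B : F2.Fam E) (K : Submodule (ZMod 2) E)
    (x0 : E) {q : E → ℝ}
    (hq : ∀ w, (w - x0 ∈ K → q w = (Nat.card K : ℝ)⁻¹) ∧ (w - x0 ∉ K → q w = 0)) :
    GB (cv B) q = F2.hh B K.toAddSubgroup := by
  classical
  have h1 : GB (cv B) q = ∑ w, B.m w * (ent (condPM B.m B.J (B.J w)) (fun v => K.mkQ (B.X v))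
      + Real.log (Nat.card K)) := by
    unfold GB
    refine Finset.sum_congr rfl fun w _ => ?_
    by_cases hw : B.m w = 0
    · have hw' : (cv B).m w = 0 := hw
      rw [hw, hw', zero_mul, zero_mul]
    · have hw0 : 0 < law B.m B.J (B.J w) :=
        lt_of_lt_of_le (lt_of_le_of_ne (B.hm.nonneg w) (Ne.symm hw)) (le_law B.hm B.J w)
      have hp : IsPM (condPM B.m B.J (B.J w)) := isPM_cond B.hm B.J hw0
      have hl : IsLaw (law (condPM B.m B.J (B.J w)) B.X) := isPM_iff.1 (isPM_law hp B.X)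
      have h2 := H_conv_coset K x0 hl hq
      have h3 : HK K (law (condPM B.m B.J (B.J w)) B.X)
          = ent (condPM B.m B.J (B.J w)) (fun v => K.mkQ (B.X v)) := by
        rw [HK_eq_ent]
        have := Fintype.ofFinite (E ⧸ K)
        rw [ent_eq_sum, ent_eq_sum]
        refine Finset.sum_congr rfl fun c _ => ?_
        rw [law_comp (condPM B.m B.J (B.J w)) B.X (fun w => K.mkQ w)]
      change B.m w * H (conv (law (condPM B.m B.J (B.J w)) B.X) q) = _
      rw [h2, h3]
  rw [h1]
  simp_rw [mul_add]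
  rw [Finset.sum_add_distrib, ← Finset.sum_mul, B.hm.sum_one, one_mul, ← cent_eq_avg B.hm]
  have h4 : cent B.m (fun v => K.mkQ (B.X v)) B.J
      = cent B.m (fun w => F2.q K.toAddSubgroup (B.X w)) B.J :=
    cent_congr _ (fun _ _ => Iff.rfl) (fun w w' _ => by
      rw [F2.q_eq, Submodule.mkQ_apply, Submodule.mkQ_apply, Submodule.Quotient.eq]
      rfl)
  rw [h4]
  rfl

theorem star_aux [Module (ZMod 2) E] [Fintype E] (B : F2.Fam E) (U : AddSubgroup E) {s e : ℝ}
    (hs0 : 0 ≤ s) (hs1 : s ≤ 1)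
    (hB : ∀ K : AddSubgroup E, K ≤ U → F2.ls U - F2.hh B K ≤ s * (F2.ls U - F2.ls K) + e)
    (Y : Pool.Agent.H96.F2.Fam E) (hY : InS Y U) :
    -e ≤ taus s (cv B) U Y := by
  classical
  have : Finite E := inferInstance
  set S : Set ℝ := {t | ∃ X : Pool.Agent.H96.F2.Fam E, InS X U ∧ t = taus s (cv B) U X} with hS
  have hlow : ∀ X : Pool.Agent.H96.F2.Fam E, -lsz U ≤ taus s (cv B) U X := by
    intro X
    have h1 := Phi_lower hs0 hs1 (cv B) U X
    have h2 := kk_nonneg X
    unfold taus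
    linarith
  have hSb : BddBelow S := ⟨-lsz U, by rintro t ⟨X, -, rfl⟩; exact hlow X⟩
  have hSn : S.Nonempty := ⟨_, Y, hY, rfl⟩
  set T := sInf S with hT
  have hTY : T ≤ taus s (cv B) U Y := csInf_le hSb ⟨Y, hY, rfl⟩
  refine le_trans ?_ hTY
  have hl0 : 0 ≤ lsz U := Real.log_natCast_nonneg _
  -- limit law
  set Ph : (E → ℝ) → ℝ := fun q => s * (lsz U - H q) - (lsz U - GB (cv B) q) with hPh
  have hcont : Continuous Ph :=
    (continuous_const.mul (continuous_const.sub continuous_H)).sub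
      (continuous_const.sub (continuous_GB (cv B)))
  obtain ⟨q, hq, hqC, hd, hP⟩ := exists_limit2 (suppC U) (isClosed_suppC U) Ph hcont T (by
    intro δ hδ
    -- choose r
    have hA : (0 : ℝ) < |T| + lsz U + 19 := by positivity
    set r : ℝ := min (δ / (|T| + lsz U + 19)) (min 1 (δ / 19)) with hr
    have hr0 : 0 < r := by
      rw [hr]
      refine lt_min (by positivity) (lt_min one_pos (by positivity))
    have hr1 : r ≤ 1 := (min_le_right _ _).trans (min_le_left _ _)
    have hr2 : r * 19 ≤ δ := by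
      have : r ≤ δ / 19 := (min_le_right _ _).trans (min_le_right _ _)
      rwa [le_div_iff₀ (by norm_num)] at this
    have hr3 : r * (|T| + lsz U + 19) ≤ δ := by
      have : r ≤ δ / (|T| + lsz U + 19) := min_le_left _ _
      rwa [le_div_iff₀ hA] at this
    obtain ⟨t, ⟨X, hXU, rfl⟩, ht⟩ := exists_lt_of_csInf_lt hSn
      (show sInf S < sInf S + r ^ 2 from lt_add_of_pos_right _ (by positivity))
    have hX : ∀ Z : Pool.Agent.H96.F2.Fam E, InS Z U →
        taus s (cv B) U X ≤ taus s (cv B) U Z + r ^ 2 := by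
      intro Z hZ
      have := csInf_le hSb (show taus s (cv B) U Z ∈ S from ⟨Z, hZ, rfl⟩)
      linarith
    obtain ⟨h1, h2, h3⟩ := star_step hs0 hs1 (cv B) U X hXU (e := r ^ 2) (by positivity) hX
    have h4 : Phi s (cv B) U X ≤ T + r ^ 2 := by
      have := kk_nonneg X
      unfold taus at ht
      linarith
    have h5 : avg (AA X) (fun Z => Phi s (cv B) U Z + (1 / r) * kk Z) ≤ T + 19 * r := by
      rw [avg_add (AA X) (Phi s (cv B) U) (fun Z => (1 / r) * kk Z), avg_smul, avg_Phi]
      have e3 : (1 / r) * avg (AA X) kk ≤ (1 / r) * (7 * r ^ 2) :=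
        mul_le_mul_of_nonneg_left h2 (by positivity)
      have e4 : (1 / r) * (7 * r ^ 2) = 7 * r := by
        field_simp
      have e5 : r ^ 2 ≤ r := by nlinarith
      linarith
    obtain ⟨w, hw, h6⟩ := exists_le_avg (AA X) (fun Z => Phi s (cv B) U Z + (1 / r) * kk Z)
    set Z := at' (AA X) w hw with hZ
    have hZU : InS Z U := InS_at (InS_add (InS_V hXU) (InS_V hXU)) w hw
    have h7 : Phi s (cv B) U Z + (1 / r) * kk Z ≤ T + 19 * r := h6.trans h5
    have h8 := Phi_lower hs0 hs1 (cv B) U Z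
    have h9 := kk_nonneg Z
    have h10 : 0 ≤ (1 / r) * kk Z := by positivity
    have h11 : kk Z ≤ δ := by
      have h12 : (1 / r) * kk Z ≤ |T| + lsz U + 19 := by
        have := le_abs_self T
        linarith
      have h13 := mul_le_mul_of_nonneg_left h12 hr0.le
      rw [← mul_assoc, mul_one_div_cancel hr0.ne', one_mul] at h13
      linarith
    refine ⟨law Z.m Z.X, isPM_iff.1 (isPM_law Z.hm Z.X), ?_, ?_, ?_⟩
    · intro x y hxy
      by_contra hne
      have hx : law Z.m Z.X x ≠ 0 := left_ne_zero_of_mul hne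
      have hy : law Z.m Z.X y ≠ 0 := right_ne_zero_of_mul hne
      have key : ∀ x, law Z.m Z.X x ≠ 0 → ∃ v, Z.m v ≠ 0 ∧ Z.X v = x := by
        intro x hx
        by_contra hc
        push Not at hc
        apply hx
        unfold law
        refine Finset.sum_eq_zero fun v _ => ?_
        by_cases hv : Z.X v = x
        · rw [if_pos hv]
          by_contra hv0
          exact hc v hv0 hv
        · rw [if_neg hv]
      obtain ⟨v, hv, rfl⟩ := key x hx
      obtain ⟨v', hv', rfl⟩ := key y hy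
      exact hxy (hZU v v' hv hv' rfl)
    · have a1 : d (law Z.m Z.X) (law Z.m Z.X) = kk Z := by
        rw [d_law]
        have e1 : ent (prodPM Z.m Z.m) (fun z : Z.Om × Z.Om => Z.X z.1 + Z.X z.2)
            = c1 (Z.add Z) := (c1_triv (Z.add Z) (fun _ _ => rfl)).symm
        have e2 : ent Z.m Z.X = c1 Z := (c1_triv Z (fun _ _ => rfl)).symm
        rw [e1, e2]
        unfold kk
        ring
      rw [a1]
      exact h11
    · have a1 : Ph (law Z.m Z.X) = Phi s (cv B) U Z := by
        have e1 : H (law Z.m Z.X) = c1 Z := by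
          rw [H_law, c1_triv Z (fun _ _ => rfl)]
        have e2 : GB (cv B) (law Z.m Z.X) = c1 ((cv B).add Z) :=
          (GB_eq (cv B) Z (fun _ _ => rfl)).symm
        simp only [hPh]
        rw [e1, e2]
        rfl
      rw [a1]
      linarith)
  -- equality case
  obtain ⟨K, x0, hK⟩ := uniform_coset hq hd
  have hKU : K.toAddSubgroup ≤ U := by
    intro k hk
    by_contra hkU
    have hc := hqC (x0 + k) x0 (by rwa [add_sub_cancel_left])
    have hk' : k ∈ K := hk
    have h1 := (hK (x0 + k)).1 (by rwa [add_sub_cancel_left])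
    have h2 := (hK x0).1 (by rw [sub_self]; exact K.zero_mem)
    rw [h1, h2] at hc
    have hpos : (0 : ℝ) < Nat.card K := by
      have : 0 < Nat.card K := Nat.card_pos
      exact_mod_cast this
    have := mul_pos (inv_pos.2 hpos) (inv_pos.2 hpos)
    linarith
  have h1 := hB K.toAddSubgroup hKU
  have h2 : H q = F2.ls K.toAddSubgroup := H_coset K x0 hK
  have h3 := GB_coset B K x0 hK
  simp only [hPh] at hP
  rw [h2, h3] at hP
  have h4 : lsz U = F2.ls U := rfl
  rw [h4] at hP
  linarith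

/-- PFR*, constant 5. -/
theorem star [F2.Two E] [Finite E] (B Y : F2.Fam E) (U : AddSubgroup E) {s e : ℝ}
    (hs0 : 0 ≤ s) (hs1 : s ≤ 1) (hY : F2.In Y U)
    (hB : ∀ K : AddSubgroup E, K ≤ U → F2.ls U - F2.hh B K ≤ s * (F2.ls U - F2.ls K) + e) :
    F2.ls U - F2.H (F2.add B Y) ≤ s * (F2.ls U - F2.H Y) + 5 * (F2.SD Y - F2.H Y) + e := by
  classical
  let _ : Module (ZMod 2) E := AddCommGroup.zmodModule (n := 2) (fun x => by
    rw [two_nsmul]
    exact F2.Two.two x)
  let _ : Fintype E := Fintype.ofFinite E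
  have hYS : InS (cv Y) U := fun v w _ _ h => hY v w h
  have h1 := avg_mono_on (cv Y) (F := fun Z => 5 * kk Z + Phi s (cv B) U Z) (t := -e)
    (fun w hw => star_aux B U hs0 hs1 hB _ (InS_at hYS w hw))
  rw [avg_add, avg_smul, avg_Phi, avg_kk, ← SD_eq, c1_cv] at h1
  have h2 : Phi s (cv B) U (cv Y)
      = s * (F2.ls U - F2.H Y) - (F2.ls U - F2.H (F2.add B Y)) := rfl
  rw [h2] at h1
  linarith

end

end PFREnd
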