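import Pool.Agent.H69.PFR.Bas

/-
The laws of the fibres of a label are competitors.
-/

set_option autoImplicit false

open Finset H2INV

namespace Pool.Agent.H69.PFR

variable {Ω J : Type} [Fintype Ω] {W : Type} [Fintype W] [AddCommGroup W]

variable [Fintype J]

theorem avg_h1 {μ : Ω → ℝ} (hμ : IsPM μ) (j : Ω → J) (x : Ω → W) :
    ∑ b, law μ j b * ent (condPM μ j b) x = h1 μ j x := by
  rw [← cent_eq_sum hμ x j]
  unfold cent h1
  congr 1
  exact ent_congr μ fun w w' => by simp only [pr, Prod.mk.injEq, and_comm]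

theorem Avg_law_snd {q : W → ℝ} (hq : IsPM q) (μ : Ω → ℝ) (j : Ω → J) (b : J) :
    law (prodPM q μ) (fun w => j w.2) b = law μ j b := by
  have h := law_comp (prodPM q μ) Prod.snd j
  rw [h]
  have h2 : law (prodPM q μ) Prod.snd = μ := funext (mp_snd hq)
  rw [h2]

theorem avg_r0 {q : W → ℝ} (hq : IsPM q) {μ : Ω → ℝ} (hμ : IsPM μ) (j : Ω → J) (x : Ω → W) :
    ∑ b, law μ j b * ent (prodPM q (condPM μ j b)) (fun v => v.1 + x v.2) = r0 q μ j x := by
  have h := cent_eq_sum (isPM_prod hq hμ) (fun w : W × Ω => w.1 + x w.2) (fun w : W × Ω => j w.2)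
  have h2 : ∀ b, condPM (prodPM q μ) (fun w : W × Ω => j w.2) b = prodPM q (condPM μ j b) := by
    intro b
    funext w
    unfold condPM
    rw [Avg_law_snd hq]
    unfold prodPM
    beta_reduce
    by_cases h3 : j w.2 = b
    · rw [if_pos h3, if_pos h3]
      ring
    · rw [if_neg h3, if_neg h3]
      ring
  simp only [h2, Avg_law_snd hq] at h
  rw [← h]
  unfold cent r0
  rw [ent_prod_snd hq j]
  congr 1
  exact ent_congr _ fun w w' => by simp only [pr, Prod.mk.injEq, and_comm]

theorem Avg_law_cprod {μ : Ω → ℝ} (hμ : IsPM μ) (j : Ω → J) (b : J) :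
    law (cprod μ j) (fun w => j w.1) b = law μ j b := by
  have h := law_comp (cprod μ j) Prod.fst j
  rw [h]
  have h2 : law (cprod μ j) Prod.fst = μ := funext (mp_cprod_fst hμ j)
  rw [h2]

theorem avg_hs {μ : Ω → ℝ} (hμ : IsPM μ) (j : Ω → J) (x : Ω → W) :
    ∑ b, law μ j b * ent (prodPM (condPM μ j b) (condPM μ j b)) (fun v => x v.1 + x v.2) = hs μ j x := by
  have h := cent_eq_sum (isPM_cprod hμ j) (fun w : Ω × Ω => x w.1 + x w.2) (fun w : Ω × Ω => j w.1)
  have h2 : ∀ b, 0 < law μ j b →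
      condPM (cprod μ j) (fun w : Ω × Ω => j w.1) b = prodPM (condPM μ j b) (condPM μ j b) := by
    intro b hb
    funext w
    unfold condPM
    rw [Avg_law_cprod hμ]
    unfold prodPM cprod
    beta_reduce
    by_cases h3 : j w.1 = b
    · by_cases h4 : j w.2 = b
      · have h5 : fib μ j w.1 = law μ j b := by rw [fib_eq_law, h3]
        rw [if_pos h3, if_pos (h3.trans h4.symm), if_pos h3, if_pos h4, h5]
        ring
      · have h5 : ¬ j w.1 = j w.2 := fun h => h4 (h ▸ h3)
        rw [if_pos h3, if_neg h5, if_neg h4]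
        ring
    · rw [if_neg h3, if_neg h3]
      ring
  have h6 : ∀ b, law (cprod μ j) (fun w => j w.1) b * ent (condPM (cprod μ j) (fun w => j w.1) b) (fun w => x w.1 + x w.2)
      = law μ j b * ent (prodPM (condPM μ j b) (condPM μ j b)) (fun v => x v.1 + x v.2) := by
    intro b
    rw [Avg_law_cprod hμ]
    rcases (law_nonneg hμ j b).eq_or_lt with h0 | h0
    · rw [← h0, zero_mul, zero_mul]
    · rw [h2 b h0]
  rw [Finset.sum_congr rfl fun b _ => h6 b] at h
  rw [← h]
  unfold cent hs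
  rw [ent_comp_of_mp (mp_cprod_fst hμ j) j]
  congr 1
  exact ent_congr _ fun w w' => by simp only [pr, Prod.mk.injEq, and_comm]

theorem ifm_le_fib {q : W → ℝ} (hq : IsPM q) {μ : Ω → ℝ} (hμ : IsPM μ) (j : Ω → J) (x : Ω → W) :
    ifm q ≤ hs μ j x - h1 μ j x + RR q μ j x / 9 := by
  have h1' : ∀ b, law μ j b * ifm q ≤ law μ j b * ((ent (prodPM (condPM μ j b) (condPM μ j b)) (fun v => x v.1 + x v.2)
      - ent (condPM μ j b) x) + (ent (prodPM q (condPM μ j b)) (fun v => v.1 + x v.2) - ent q (fun w => w) / 2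
        - ent (condPM μ j b) x / 2) / 9) := by
    intro b
    rcases (law_nonneg hμ j b).eq_or_lt with h0 | h0
    · rw [← h0, zero_mul, zero_mul]
    · refine mul_le_mul_of_nonneg_left ?_ h0.le
      have h2 := ifm_le hq (isPM_cond hμ j h0) (fun _ => ()) x
      obtain ⟨e1, e2, e3⟩ := cnd_single (isPM_cond hμ j h0) x
      unfold tau kk RR at h2
      rw [e1, e2, e3 q] at h2
      exact h2
  have h3 := Finset.sum_le_sum fun b (_ : b ∈ Finset.univ) => h1' b
  rw [← Finset.sum_mul, (isPM_law hμ j).sum_one, one_mul] at h3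
  have h4 : ∑ b, law μ j b * ((ent (prodPM (condPM μ j b) (condPM μ j b)) (fun v => x v.1 + x v.2)
      - ent (condPM μ j b) x) + (ent (prodPM q (condPM μ j b)) (fun v => v.1 + x v.2) - ent q (fun w => w) / 2
        - ent (condPM μ j b) x / 2) / 9) =
      (∑ b, law μ j b * ent (prodPM (condPM μ j b) (condPM μ j b)) (fun v => x v.1 + x v.2))
      - (∑ b, law μ j b * ent (condPM μ j b) x)
      + ((∑ b, law μ j b * ent (prodPM q (condPM μ j b)) (fun v => v.1 + x v.2)) - (∑ b, law μ j b) * (ent q (fun w => w) / 2)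
        - (∑ b, law μ j b * ent (condPM μ j b) x) / 2) / 9 := by
    rw [Finset.sum_mul, Finset.sum_div, ← Finset.sum_sub_distrib, ← Finset.sum_sub_distrib, ← Finset.sum_sub_distrib, Finset.sum_div,
      ← Finset.sum_add_distrib]
    exact Finset.sum_congr rfl fun b _ => by ring
  rw [h4, (isPM_law hμ j).sum_one, avg_h1 hμ, avg_hs hμ, avg_r0 hq hμ] at h3
  unfold RR
  linarith

end Pool.Agent.H69.PFR
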