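import Pool.Agent.H69.PFR.Defs

/-
ROW BSG. Entropic Balog-Szemeredi-Gowers. Aux lemmas prefixed BSG_. PROOF. Let `c = a + b`, `g = (s, c)`, and work on `cprod μ g` (isPM_cprod); a point is `(w, w')` with `s w = s w'`, `c w = c w'` on the support (cprod_eq_zero).
 (1) ent_sub_supp with A = (s w, a w, c w - a w'), B = (s w, a w', c w - a w), C = (s w, a w + (c w - a w')) [determined by A; by B in char 2: a w' + (c w - a w) = a w + c w - a w' because -x = x],
     J = ((a w, a w'), (s w, c w)).
 (2) `ent J = 2 ent μ (s, a, b) - ent μ (s, c)`: ent_cprod with f = g = a; (a, (s, c)) has the kernel of (s, a, b).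
 (3) `ent A + ent s ≤ ent (s, a) + ent (s, b)` (ent_cond_le; on the support `c w - a w' = c w' - a w' = b w'`, `s w = s w'`; marginals by mp_cprod_fst, mp_cprod_snd, ent_comp_of_mp), the same for B (`c w - a w = b w`).
 (4) `ent ((s,c), a + a') + ent s ≤ ent C + ent (s, c)`: ent_sub_supp with A = C(above), B = (s, c), C = s; `((s, c), a w + a w')` is determined by `(s, a w + (c w - a w'))` and `(s, c)` (char 2).
 Sum: `ent (g, a + a') ≤ 2 ent(s,a) + 2 ent(s,b) - 2 ent s - [2 ent (s,a,b) - ent (s,c)] + ent (s,c) - ent s`.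
-/

set_option autoImplicit false

open Finset H2INV

namespace Pool.Agent.H69.PFR

variable {Ω S : Type} [Fintype Ω] {W : Type} [Fintype W] [AddCommGroup W] [Module (ZMod 2) W]

theorem bsg {μ : Ω → ℝ} (hμ : IsPM μ) (s : Ω → S) (a b : Ω → W) :
    ent (cprod μ (fun w => (s w, a w + b w))) (fun w => ((s w.1, a w.1 + b w.1), a w.1 + a w.2))
      ≤ 2 * ent μ (fun w => (s w, a w)) + 2 * ent μ (fun w => (s w, b w)) + 2 * ent μ (fun w => (s w, a w + b w))
        - 2 * ent μ (fun w => (s w, a w, b w)) - 3 * ent μ s := sorry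

end Pool.Agent.H69.PFR
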