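import Pool.Agent.H69.PFR.Defs

/-
Elementary facts.
-/

set_option autoImplicit false

open Finset H2INV

namespace Pool.Agent.H69.PFR

variable {Ω J : Type} [Fintype Ω] {W : Type} [Fintype W] [AddCommGroup W]

/-- the entropy of the pair of labels -/
theorem Bas_jj {μ : Ω → ℝ} (hμ : IsPM μ) (j : Ω → J) :
    ent (prodPM μ μ) (fun w => (j w.1, j w.2)) = 2 * ent μ j := by
  rw [ent_prod hμ hμ]; ring

theorem kk_nonneg {μ : Ω → ℝ} (hμ : IsPM μ) (j : Ω → J) (x : Ω → W) : 0 ≤ kk μ j x := by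
  have hp := isPM_prod hμ hμ
  have h := ent_sub hp (A := fun w : Ω × Ω => (j w.1, j w.2, x w.1 + x w.2))
    (B := fun w : Ω × Ω => (j w.1, (j w.2, x w.2)))
    (C := fun w : Ω × Ω => (j w.1, j w.2))
    (J := fun w : Ω × Ω => ((j w.1, x w.1), (j w.2, x w.2)))
    (fun v w h => by simp only [Prod.mk.injEq] at h ⊢; exact ⟨h.1, h.2.1⟩)
    (fun v w h => by simp only [Prod.mk.injEq] at h ⊢; exact ⟨h.1, h.2.1⟩)
    (fun v w h h' => by
      simp only [Prod.mk.injEq] at h h' ⊢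
      refine ⟨⟨h.1, ?_⟩, ⟨h.2.1, h'.2.2⟩⟩
      have h3 := h.2.2
      rw [h'.2.2] at h3
      exact add_right_cancel h3)
  rw [ent_prod hμ hμ (fun w => (j w, x w)) (fun w => (j w, x w)), Bas_jj hμ,
    ent_prod hμ hμ j (fun w => (j w, x w))] at h
  unfold kk h2 h1
  linarith

theorem RR_nonneg {q : W → ℝ} (hq : IsPM q) {μ : Ω → ℝ} (hμ : IsPM μ) (j : Ω → J) (x : Ω → W) : 0 ≤ RR q μ j x := by
  have hp := isPM_prod hq hμ
  have h := ent_sub hp (A := fun w : W × Ω => (j w.2, w.1 + x w.2))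
    (B := fun w : W × Ω => (j w.2, x w.2))
    (C := fun w : W × Ω => j w.2)
    (J := fun w : W × Ω => (w.1, (j w.2, x w.2)))
    (fun v w h => by simp only [Prod.mk.injEq] at h; exact h.1)
    (fun v w h => by simp only [Prod.mk.injEq] at h; exact h.1)
    (fun v w h h' => by
      simp only [Prod.mk.injEq] at h h' ⊢
      refine ⟨?_, h'⟩
      have h3 := h.2
      rw [h'.2] at h3
      exact add_right_cancel h3)
  have h' := ent_sub hp (A := fun w : W × Ω => (j w.2, w.1 + x w.2))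
    (B := fun w : W × Ω => (w.1, j w.2))
    (C := fun w : W × Ω => j w.2)
    (J := fun w : W × Ω => (w.1, (j w.2, x w.2)))
    (fun v w h => by simp only [Prod.mk.injEq] at h; exact h.1)
    (fun v w h => by simp only [Prod.mk.injEq] at h; exact h.2)
    (fun v w h h' => by
      simp only [Prod.mk.injEq] at h h' ⊢
      refine ⟨h'.1, h.1, ?_⟩
      have h3 := h.2
      rw [h'.1] at h3
      exact add_left_cancel h3)
  rw [ent_prod hq hμ (fun w => w) (fun w => (j w, x w)), ent_prod_snd hq j,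
    ent_prod_snd hq (fun w => (j w, x w))] at h
  rw [ent_prod hq hμ (fun w => w) (fun w => (j w, x w)), ent_prod_snd hq j,
    ent_prod hq hμ (fun w => w) j] at h'
  unfold RR r0 h1
  linarith

theorem tau_nonneg {q : W → ℝ} (hq : IsPM q) {μ : Ω → ℝ} (hμ : IsPM μ) (j : Ω → J) (x : Ω → W) : 0 ≤ tau q μ j x := by
  unfold tau
  have h1 := kk_nonneg hμ j x
  have h2 := RR_nonneg hq hμ j x
  positivity

theorem ifm_le {q : W → ℝ} (hq : IsPM q) [Fintype J] {μ : Ω → ℝ} (hμ : IsPM μ) (j : Ω → J) (x : Ω → W) : ifm q ≤ tau q μ j x := by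
  refine csInf_le ⟨0, ?_⟩ ⟨Ω, J, inferInstance, inferInstance, μ, j, x, hμ, rfl⟩
  rintro t ⟨Ω', J', i1, i2, μ', j', x', hμ', rfl⟩
  exact tau_nonneg hq hμ' j' x'

theorem ifm_near {q : W → ℝ} (hq : IsPM q) {e : ℝ} (he : 0 < e) :
    ∃ (Ω J : Type) (_ : Fintype Ω) (_ : Fintype J) (μ : Ω → ℝ) (j : Ω → J) (x : Ω → W), IsPM μ ∧ tau q μ j x < ifm q + e := by
  have hne : (TS q).Nonempty :=
    ⟨_, W, Unit, inferInstance, inferInstance, q, fun _ => (), fun w => w, hq, rfl⟩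
  obtain ⟨t, ⟨Ω, J, i1, i2, μ, j, x, hμ, rfl⟩, ht⟩ := exists_lt_of_csInf_lt hne (show sInf (TS q) < ifm q + e by
    unfold ifm; linarith)
  exact ⟨Ω, J, i1, i2, μ, j, x, hμ, ht⟩

theorem Bas_unit {μ : Ω → ℝ} (hμ : IsPM μ) : ent μ (fun _ => ()) = 0 := ent_const hμ fun _ _ => rfl

theorem cnd_single {ν : Ω → ℝ} (hν : IsPM ν) (x : Ω → W) :
    h1 ν (fun _ => ()) x = ent ν x ∧ h2 ν (fun _ => ()) x = ent (prodPM ν ν) (fun w => x w.1 + x w.2) ∧
    ∀ q : W → ℝ, r0 q ν (fun _ => ()) x = ent (prodPM q ν) (fun w => w.1 + x w.2) := by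
  refine ⟨?_, ?_, fun q => ?_⟩
  · unfold h1
    rw [Bas_unit hν, sub_zero]
    exact ent_congr ν fun w w' => by simp
  · unfold h2
    rw [Bas_unit hν, mul_zero, sub_zero]
    exact ent_congr _ fun w w' => by simp
  · unfold r0
    rw [Bas_unit hν, sub_zero]
    exact ent_congr _ fun w w' => by simp

theorem tau_self {q : W → ℝ} (hq : IsPM q) :
    tau q q (fun _ => ()) (fun w => w) = (10 / 9) * (ent (prodPM q q) (fun w => w.1 + w.2) - ent q (fun w => w)) := by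
  obtain ⟨e1, e2, e3⟩ := cnd_single hq (fun w => w)
  unfold tau kk RR
  rw [e1, e2, e3 q]
  ring

end Pool.Agent.H69.PFR
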