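import Pool.Agent.H69.PFR.Four

/-! Entropic PFR over F_2: Balog-Szemeredi-Gowers on four copies, in terms of single laws. -/

set_option autoImplicit false

namespace PFREnd

open H2INV Finset Pool.Agent.H96.F2

noncomputable section

section gen
variable {Om : Type*} [Fintype Om]

theorem cprod_congr {γ γ' : Type*} (m : Om → ℝ) {c : Om → γ} {c' : Om → γ'}
    (h : ∀ w w', c w = c w' ↔ c' w = c' w') : cprod m c = cprod m c' := by
  classical
  funext z
  unfold cprod
  rw [fib_congr m h]
  by_cases h1 : c z.1 = c z.2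
  · rw [if_pos h1, if_pos ((h _ _).1 h1)]
  · rw [if_neg h1, if_neg (fun h' => h1 ((h _ _).2 h'))]

/-- conditional laws on the conditionally independent square are products -/
theorem condPM_cprod {γ : Type*} {m : Om → ℝ} (hm : IsPM m) (c : Om → γ) {w : Om}
    (hw : m w ≠ 0) :
    condPM (cprod m c) (fun z => c z.1) (c w) = prodPM (condPM m c (c w)) (condPM m c (c w)) := by
  classical
  have h0 : 0 < law m c (c w) := by
    have h1 := le_law hm c w
    exact lt_of_lt_of_le (lt_of_le_of_ne (hm.nonneg w) (Ne.symm hw)) h1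
  have hl : law (cprod m c) (fun z => c z.1) (c w) = law m c (c w) :=
    law_eq_of_mp (mp_cprod_fst hm c) c ▸ rfl
  funext z
  unfold condPM prodPM
  rw [hl]
  by_cases h1 : c z.1 = c w
  · by_cases h2 : c z.2 = c w
    · have h3 : c z.1 = c z.2 := h1.trans h2.symm
      have h4 : fib m c z.1 = law m c (c w) := by rw [fib_eq_law, h1]
      simp only [h1, h2, if_true, cprod]
      rw [h4]
      field_simp
    · have h3 : c z.1 ≠ c z.2 := fun h => h2 (h.symm.trans h1)
      simp only [h1, h2, if_true, if_false, mul_zero]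
      rw [cprod_eq_zero m c h3, zero_div]
  · simp only [h1, if_false, zero_mul]

/-- diagonal average: two independent samples from the conditional law -/
theorem cent_cprod_avg {α γ : Type*} {m : Om → ℝ} (hm : IsPM m) (c : Om → γ)
    (f : Om × Om → α) :
    cent (cprod m c) f (fun z => c z.1)
      = ∑ w, m w * ent (prodPM (condPM m c (c w)) (condPM m c (c w))) f := by
  rw [cent_eq_avg (isPM_cprod hm c) f (fun z => c z.1)]
  have h1 := (mp_cprod_fst hm c).sum_eq
    (fun w => ent (condPM (cprod m c) (fun z => c z.1) (c w)) f)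
  rw [h1]
  refine Finset.sum_congr rfl fun w _ => ?_
  by_cases hw : m w = 0
  · rw [hw, zero_mul, zero_mul]
  · rw [condPM_cprod hm c hw]

/-- conditional laws of an independent product -/
theorem condPM_prod {Om' : Type*} [Fintype Om'] {γ : Type*} {m' : Om' → ℝ} {m : Om → ℝ}
    (hm' : IsPM m') (c : Om → γ) (b : γ) :
    condPM (prodPM m' m) (fun z => c z.2) b = prodPM m' (condPM m c b) := by
  classical
  have hl : law (prodPM m' m) (fun z => c z.2) b = law m c b := by
    have := law_eq_of_mp (mp_snd (m := m') (m' := m) hm') c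
    rw [← this]
  funext z
  unfold condPM
  rw [hl]
  unfold prodPM
  by_cases h : c z.2 = b
  · simp only [h, if_true]
    ring
  · simp only [h, if_false, mul_zero]

theorem cent_prod_avg {Om' : Type*} [Fintype Om'] {α γ : Type*} {m' : Om' → ℝ} {m : Om → ℝ}
    (hm' : IsPM m') (hm : IsPM m) (c : Om → γ) (f : Om' × Om → α) :
    cent (prodPM m' m) f (fun z => c z.2)
      = ∑ w, m w * ent (prodPM m' (condPM m c (c w))) f := by
  rw [cent_eq_avg (isPM_prod hm' hm) f (fun z => c z.2)]
  have h1 := (mp_snd (m := m') (m' := m) hm').sum_eq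
    (fun w => ent (condPM (prodPM m' m) (fun z => c z.2) (c w)) f)
  rw [h1]
  refine Finset.sum_congr rfl fun w _ => ?_
  rw [condPM_prod hm']

end gen

variable {W : Type} [AddCommGroup W] [Module (ZMod 2) W] [Finite W]

/-- the conditional law of the family at a value of the label, as a family without label -/
def at' (X : Fam W) (w : X.Om) (hw : X.m w ≠ 0) : Fam W where
  Om := X.Om
  fin := inferInstance
  m := condPM X.m X.lab (X.lab w)
  hm := isPM_cond X.hm X.lab (lt_of_lt_of_le (lt_of_le_of_ne (X.hm.nonneg w) (Ne.symm hw))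
    (le_law X.hm X.lab w))
  X := X.X
  J := Unit
  lab := fun _ => ()

/-- average over the labels -/
def avg (X : Fam W) (F : Fam W → ℝ) : ℝ := by
  classical
  exact ∑ w, X.m w * (if hw : X.m w ≠ 0 then F (at' X w hw) else 0)

omit [AddCommGroup W] [Module (ZMod 2) W] [Finite W] in
theorem avg_eq (X : Fam W) (F : Fam W → ℝ) (G : X.Om → ℝ)
    (h : ∀ w (hw : X.m w ≠ 0), F (at' X w hw) = G w) : avg X F = ∑ w, X.m w * G w := by
  classical
  unfold avg
  refine Finset.sum_congr rfl fun w _ => ?_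
  by_cases hw : X.m w = 0
  · rw [dif_neg (not_not.2 hw), mul_zero, hw, zero_mul]
  · rw [dif_pos hw, h w hw]

omit [AddCommGroup W] [Module (ZMod 2) W] [Finite W] in
theorem avg_mono (X : Fam W) {F : Fam W → ℝ} {t : ℝ} (h : ∀ Y : Fam W, t ≤ F Y) :
    t ≤ avg X F := by
  classical
  unfold avg
  calc t = ∑ w, X.m w * t := by rw [← Finset.sum_mul, X.hm.sum_one, one_mul]
    _ ≤ _ := Finset.sum_le_sum fun w _ => by
      by_cases hw : X.m w = 0
      · rw [dif_neg (not_not.2 hw), mul_zero, hw, zero_mul]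
      · rw [dif_pos hw]
        exact mul_le_mul_of_nonneg_left (h _) (X.hm.nonneg w)

omit [AddCommGroup W] [Module (ZMod 2) W] [Finite W] in
theorem exists_le_avg (X : Fam W) (F : Fam W → ℝ) :
    ∃ (w : X.Om) (hw : X.m w ≠ 0), F (at' X w hw) ≤ avg X F := by
  classical
  by_contra hc
  push Not at hc
  have h1 : avg X F < avg X F := by
    conv_rhs => rw [avg]
    obtain ⟨w0, hw0⟩ : ∃ w, X.m w ≠ 0 := by
      by_contra h
      push Not at h
      have := X.hm.sum_one
      simp [h] at this
    calc avg X F = ∑ w, X.m w * avg X F := by rw [← Finset.sum_mul, X.hm.sum_one, one_mul]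
      _ < _ := by
        refine Finset.sum_lt_sum (fun w _ => ?_) ⟨w0, Finset.mem_univ _, ?_⟩
        · by_cases hw : X.m w = 0
          · rw [dif_neg (not_not.2 hw), mul_zero, hw, zero_mul]
          · rw [dif_pos hw]
            exact mul_le_mul_of_nonneg_left (hc w hw).le (X.hm.nonneg w)
        · rw [dif_pos hw0]
          exact mul_lt_mul_of_pos_left (hc w0 hw0)
            (lt_of_le_of_ne (X.hm.nonneg w0) (Ne.symm hw0))
  exact lt_irrefl _ h1

omit [AddCommGroup W] [Module (ZMod 2) W] [Finite W] in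
theorem avg_add (X : Fam W) (F G : Fam W → ℝ) :
    avg X (fun Y => F Y + G Y) = avg X F + avg X G := by
  classical
  unfold avg
  rw [← Finset.sum_add_distrib]
  refine Finset.sum_congr rfl fun w _ => ?_
  by_cases hw : X.m w = 0
  · rw [dif_neg (not_not.2 hw), dif_neg (not_not.2 hw), dif_neg (not_not.2 hw)]
    ring
  · rw [dif_pos hw, dif_pos hw, dif_pos hw]
    ring

omit [AddCommGroup W] [Module (ZMod 2) W] [Finite W] in
theorem avg_smul (X : Fam W) (F : Fam W → ℝ) (c : ℝ) :
    avg X (fun Y => c * F Y) = c * avg X F := by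
  classical
  unfold avg
  rw [Finset.mul_sum]
  refine Finset.sum_congr rfl fun w _ => ?_
  by_cases hw : X.m w = 0
  · rw [dif_neg (not_not.2 hw), dif_neg (not_not.2 hw)]
    ring
  · rw [dif_pos hw, dif_pos hw]
    ring

omit [AddCommGroup W] [Module (ZMod 2) W] [Finite W] in
theorem cent_triv {Om : Type*} [Fintype Om] {α β : Type*} {m : Om → ℝ} (hm : IsPM m)
    (f : Om → α) (g : Om → β) (h : ∀ w w', g w = g w') : cent m f g = ent m f := by
  unfold cent
  rw [ent_const hm h, sub_zero]
  exact ent_congr m fun w w' => by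
    rw [pr_eq]
    exact ⟨fun a => a.1, fun a => ⟨a, h _ _⟩⟩

omit [AddCommGroup W] [Module (ZMod 2) W] [Finite W] in
theorem avg_c1 (X : Fam W) : avg X c1 = c1 X := by
  rw [avg_eq X c1 (fun w => ent (condPM X.m X.lab (X.lab w)) X.X) (fun w hw =>
    cent_triv (at' X w hw).hm _ _ (fun _ _ => rfl))]
  unfold c1
  rw [cent_eq_avg X.hm]

omit [Module (ZMod 2) W] [Finite W] in
theorem avg_self (X : Fam W) : avg X (fun Y => c1 (Y.add Y))
    = cent (cprod X.m X.lab) (fun z => X.X z.1 + X.X z.2) (fun z => X.lab z.1) := by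
  rw [avg_eq X (fun Y => c1 (Y.add Y)) (fun w => ent (prodPM (condPM X.m X.lab (X.lab w))
    (condPM X.m X.lab (X.lab w))) (fun z => X.X z.1 + X.X z.2)) (fun w hw =>
    cent_triv ((at' X w hw).add (at' X w hw)).hm _ _ (fun _ _ => rfl))]
  rw [cent_cprod_avg X.hm]

omit [Module (ZMod 2) W] [Finite W] in
theorem avg_other (Z X : Fam W) (hZ : ∀ w w', Z.lab w = Z.lab w') :
    avg X (fun Y => c1 (Z.add Y)) = c1 (Z.add X) := by
  rw [avg_eq X (fun Y => c1 (Z.add Y)) (fun w => ent (prodPM Z.m (condPM X.m X.lab (X.lab w)))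
    (fun z => Z.X z.1 + X.X z.2)) (fun w hw =>
    cent_triv (Z.add (at' X w hw)).hm _ _ (fun _ _ => Prod.ext (hZ _ _) rfl))]
  rw [← cent_prod_avg Z.hm X.hm]
  exact cent_congr _ (fun w w' => by
    simp only [Fam.add, Prod.mk.injEq]
    exact ⟨fun h => ⟨hZ _ _, h⟩, fun h => h.2⟩) (fun _ _ _ => Iff.rfl)

omit [Finite W] in
theorem two_eq_zero (x : W) : x + x = 0 := by
  have : (2 : ZMod 2) • x = x + x := two_smul _ x
  rw [← this]
  have h2 : (2 : ZMod 2) = 0 := by decide
  rw [h2, zero_smul]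

omit [Finite W] in
/-- BSG: conditionally independent copies of `f` given `(f + g, sigma)`. -/
theorem bsg {Om : Type*} [Fintype Om] {γ : Type*} {m : Om → ℝ} (hm : IsPM m) (f g : Om → W)
    (s : Om → γ) :
    cent (cprod m (pr (fun w => f w + g w) s)) (fun z => f z.1 + f z.2)
        (fun z => pr (fun w => f w + g w) s z.1)
      ≤ 2 * cent m f s + 2 * cent m g s + cent m (fun w => f w + g w) s
        - 2 * cent m (pr f g) s := by
  have t2 : ∀ x : W, x + x = 0 := fun x => by
    have : (2 : ZMod 2) • x = x + x := two_smul _ x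
    rw [← this]
    have h2 : (2 : ZMod 2) = 0 := by decide
    rw [h2, zero_smul]
  set c : Om → W × γ := pr (fun w => f w + g w) s with hc
  set M := cprod m c with hMdef
  have hM : IsPM M := isPM_cprod hm c
  have mp1 : MP M Prod.fst m := mp_cprod_fst hm c
  have mp2 : MP M Prod.snd m := mp_cprod_snd hm c
  -- the functions
  let F : Om × Om → W := fun z => f z.1 + f z.2 + (f z.1 + g z.1)
  let σ : Om × Om → γ := fun z => s z.1
  have hae : ∀ z : Om × Om, M z ≠ 0 → f z.1 + g z.1 = f z.2 + g z.2 ∧ s z.1 = s z.2 := by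
    intro z hz
    by_contra h
    apply hz
    refine cprod_eq_zero m c fun h2 => h ?_
    simp only [hc, pr, Prod.mk.injEq] at h2
    exact h2
  -- submodularity over F
  have h1 := cent_submod hM (fun z => (f z.1, g z.2)) (fun z => (f z.2, g z.1)) F σ
  have e1 : cent M (pr (pr (fun z => (f z.1, g z.2)) (fun z => (f z.2, g z.1))) F) σ
      = ent M (fun z => ((f z.1, f z.2), c z.1)) - ent M σ := by
    unfold cent
    congr 1
    refine ent_congr_ae fun z z' hz hz' => ?_
    obtain ⟨a1, a2⟩ := hae z hz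
    obtain ⟨b1, b2⟩ := hae z' hz'
    simp only [pr, Prod.mk.injEq, F, σ, hc]
    constructor
    · rintro ⟨⟨⟨⟨x1, x2⟩, x3, x4⟩, x5⟩, x6⟩
      exact ⟨⟨x1, x3⟩, by rw [x1, x4], x6⟩
    · rintro ⟨⟨x1, x2⟩, x3, x4⟩
      have x5 : g z.1 = g z'.1 := by
        rw [x1] at x3
        exact add_left_cancel x3
      have x6 : g z.2 = g z'.2 := by
        have : f z.2 + g z.2 = f z'.2 + g z'.2 := by rw [← a1, ← b1, x3]
        rw [x2] at this
        exact add_left_cancel this
      exact ⟨⟨⟨⟨x1, x6⟩, x2, x5⟩, by rw [x1, x2, x5]⟩, x4⟩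
  have e2 : cent M (pr (fun z => (f z.1, g z.2)) F) σ ≤ cent m f s + cent m g s := by
    have k1 : cent M (pr (fun z => (f z.1, g z.2)) F) σ
        = ent M (pr (pr (fun z => f z.1) (fun z => g z.2)) σ) - ent M σ := by
      unfold cent
      congr 1
      refine ent_congr_ae fun z z' hz hz' => ?_
      obtain ⟨a1, a2⟩ := hae z hz
      obtain ⟨b1, b2⟩ := hae z' hz'
      have hF : ∀ z : Om × Om, f z.1 + g z.1 = f z.2 + g z.2 → F z = f z.1 + g z.2 := by
        intro z h
        have : F z = f z.1 + (f z.2 + f z.2) + g z.2 := by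
          simp only [F]
          rw [h]
          abel
        rw [this, t2, add_zero]
      simp only [pr, Prod.mk.injEq]
      rw [hF z a1, hF z' b1]
      constructor
      · rintro ⟨⟨⟨x1, x2⟩, x3⟩, x4⟩
        exact ⟨⟨x1, x2⟩, x4⟩
      · rintro ⟨⟨x1, x2⟩, x4⟩
        exact ⟨⟨⟨x1, x2⟩, by rw [x1, x2]⟩, x4⟩
    have k2 := ent_submod hM (fun z => f z.1) (fun z => g z.2) σ
    have k3 : ent M (pr (fun z => f z.1) σ) = ent m (pr f s) :=
      ent_comp_of_mp mp1 (pr f s)
    have k4 : ent M (pr (fun z => g z.2) σ) = ent m (pr g s) := by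
      rw [← ent_comp_of_mp mp2 (pr g s)]
      refine ent_congr_ae fun z z' hz hz' => ?_
      simp only [pr, Prod.mk.injEq, σ]
      rw [(hae z hz).2, (hae z' hz').2]
    have k5 : ent M σ = ent m s := ent_comp_of_mp mp1 s
    rw [k1]
    unfold cent
    linarith
  have e3 : cent M (pr (fun z => (f z.2, g z.1)) F) σ ≤ cent m f s + cent m g s := by
    have k1 : cent M (pr (fun z => (f z.2, g z.1)) F) σ
        = ent M (pr (pr (fun z => f z.2) (fun z => g z.1)) σ) - ent M σ := by
      unfold cent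
      congr 1
      refine ent_congr_ae fun z z' hz hz' => ?_
      have hF : ∀ z : Om × Om, F z = f z.2 + g z.1 := by
        intro z
        have : F z = (f z.1 + f z.1) + f z.2 + g z.1 := by
          simp only [F]
          abel
        rw [this, t2, zero_add]
      simp only [pr, Prod.mk.injEq]
      rw [hF z, hF z']
      constructor
      · rintro ⟨⟨⟨x1, x2⟩, x3⟩, x4⟩
        exact ⟨⟨x1, x2⟩, x4⟩
      · rintro ⟨⟨x1, x2⟩, x4⟩
        exact ⟨⟨⟨x1, x2⟩, by rw [x1, x2]⟩, x4⟩
    have k2 := ent_submod hM (fun z => f z.2) (fun z => g z.1) σ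
    have k3 : ent M (pr (fun z => g z.1) σ) = ent m (pr g s) :=
      ent_comp_of_mp mp1 (pr g s)
    have k4 : ent M (pr (fun z => f z.2) σ) = ent m (pr f s) := by
      rw [← ent_comp_of_mp mp2 (pr f s)]
      refine ent_congr_ae fun z z' hz hz' => ?_
      simp only [pr, Prod.mk.injEq, σ]
      rw [(hae z hz).2, (hae z' hz').2]
    have k5 : ent M σ = ent m s := ent_comp_of_mp mp1 s
    rw [k1]
    unfold cent
    linarith
  -- conditionally independent copies
  have h2 := ent_cprod hm c f f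
  have h3 : ent M (fun z => c z.1) = ent m c := ent_comp_of_mp mp1 c
  have h4 : ent M σ = ent m s := ent_comp_of_mp mp1 s
  have h5 : ent m (pr f c) = ent m (pr (pr f g) s) := ent_congr m fun w w' => by
    simp only [pr, hc, Prod.mk.injEq]
    constructor
    · rintro ⟨a, b, d⟩
      rw [a] at b
      exact ⟨⟨a, add_left_cancel b⟩, d⟩
    · rintro ⟨⟨a, b⟩, d⟩
      exact ⟨a, by rw [a, b], d⟩
  -- the target
  have h6 : cent M (fun z => f z.1 + f z.2) (fun z => c z.1)
      = cent M F (fun z => c z.1) :=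
    cent_congr _ (fun _ _ => Iff.rfl) (fun z z' h => by
      simp only [hc, pr, Prod.mk.injEq] at h
      simp only [F]
      rw [h.1]
      exact (add_left_inj _).symm)
  have h7 : cent M F (fun z => c z.1) ≤ cent M F σ :=
    cent_anti hM F (fun z z' h => by
      simp only [hc, pr, Prod.mk.injEq] at h
      exact h.2)
  rw [h6]
  refine h7.trans ?_
  unfold cent at h1 e1 e2 e3 ⊢
  rw [← hMdef] at h2
  rw [h5] at h2
  have h8 : ent m (pr (fun w => f w + g w) s) = ent m c := rfl
  rw [h8]
  linarith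

/-- the family `(X1 + X3 | X1 + X2, X3 + X4)` -/
def AA (X : Fam W) : Fam W := (V X).add (V X)

/-- BSG for the single laws of the family `(X1 + X3 | X1 + X2, X3 + X4)` -/
theorem avg_AA (X : Fam W) : avg (AA X) (fun Y => c1 (Y.add Y)) ≤ c1 (AA X) + 3 * II X := by
  rw [avg_self]
  have h1 := bsg (hQQ X) (T1 X) (T2 X) (pr (SS X) (LL X))
  -- T1 + T2 = T3
  have hT : ∀ z, T1 X z + T2 X z = T3 X z := by
    intro z
    have : T1 X z + T2 X z = (X.X z.1.1 + X.X z.1.2) + (X.X z.2.1 + X.X z.2.1) := by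
      simp only [T1, T2]
      abel
    rw [this, two_eq_zero, add_zero]
    rfl
  -- compare the two label functions
  have hk : ∀ w w', pr (fun w => T1 X w + T2 X w) (pr (SS X) (LL X)) w
      = pr (fun w => T1 X w + T2 X w) (pr (SS X) (LL X)) w' ↔ (AA X).lab w = (AA X).lab w' := by
    intro w w'
    simp only [pr, Prod.mk.injEq, hT]
    simp only [AA, V, Fam.add, LL, SS, T3, Prod.mk.injEq]
    constructor
    · rintro ⟨a, b, ⟨c, d⟩, e, f⟩
      rw [a] at b
      exact ⟨⟨a, c, d⟩, add_left_cancel b, e, f⟩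
    · rintro ⟨⟨a, b, c⟩, d, e, f⟩
      exact ⟨a, by rw [a, d], ⟨b, c⟩, e, f⟩
  have hc : cprod (AA X).m (AA X).lab
      = cprod (QQ X) (pr (fun w => T1 X w + T2 X w) (pr (SS X) (LL X))) :=
    cprod_congr (QQ X) (fun w w' => (hk w w').symm)
  have h2 : cent (cprod (AA X).m (AA X).lab) (fun z => (AA X).X z.1 + (AA X).X z.2)
      (fun z => (AA X).lab z.1)
      = cent (cprod (QQ X) (pr (fun w => T1 X w + T2 X w) (pr (SS X) (LL X))))
        (fun z => T1 X z.1 + T1 X z.2)
        (fun z => pr (fun w => T1 X w + T2 X w) (pr (SS X) (LL X)) z.1) := by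
    rw [hc]
    exact cent_congr _ (fun w w' => (hk w.1 w'.1).symm) (fun _ _ _ => Iff.rfl)
  rw [h2]
  refine h1.trans ?_
  -- evaluate the conditional entropies
  have c0 : cent (QQ X) (SS X) (LL X) = c1 ((X.add X).add (X.add X)) := rfl
  have cc : ∀ {α : Type} (f : (X.Om × X.Om) × (X.Om × X.Om) → α),
      cent (QQ X) f (pr (SS X) (LL X))
        = cent (QQ X) (pr f (SS X)) (LL X) - cent (QQ X) (SS X) (LL X) := by
    intro α f
    have := cent_chain (QQ X) f (SS X) (LL X)
    linarith
  rw [cc, cc, cc, cc, cent_T1_SS, cent_T2_SS, c0]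
  have d1 : cent (QQ X) (pr (fun w => T1 X w + T2 X w) (SS X)) (LL X) = 2 * c1 (X.add X) := by
    rw [← cent_T3_SS]
    simp only [hT]
  have d2 : cent (QQ X) (pr (pr (T1 X) (T2 X)) (SS X)) (LL X)
      = cent (QQ X) (pr (pr (T1 X) (T3 X)) (SS X)) (LL X) :=
    cent_congr _ (fun _ _ => Iff.rfl) (fun w w' _ => by
      simp only [pr, Prod.mk.injEq]
      rw [← hT w, ← hT w']
      constructor
      · rintro ⟨⟨a, b⟩, c⟩
        exact ⟨⟨a, by rw [a, b]⟩, c⟩
      · rintro ⟨⟨a, b⟩, c⟩
        rw [a] at b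
        exact ⟨⟨a, add_left_cancel b⟩, c⟩)
  rw [d1, d2]
  have h9 := c1_VV X
  unfold AA
  rw [h9]
  unfold II
  linarith

end

end PFREnd
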