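import Pool.Agent.H69.PFR.Defs

/-
ROW Ci. Conditionally independent copies. Aux lemmas prefixed Ci_. PROOF.
`ci_PW`: nonneg: `cl μ g w ≥ 0`. Sum: `∑_b ci (a, b) = μ a` (if `μ a = 0` both sides are `0`; else `cl μ g a > 0` and `∑_b [g a = g b] μ b = cl μ g a`).
`ci_fst`: by the same marginal: `cl (ci μ g) (f ∘ fst) w = cl μ f w.1` (swap sums, sum over the second coordinate first) and `∑ w, ci w * log (cl μ f w.1) = ∑ a, μ a * log (cl μ f a)`.
`ci_snd`: symmetric (`cl μ g w.1 = cl μ g w.2` when `g w.1 = g w.2`; the equivalence `Prod.swap` preserves `ci μ g`, use `H_equiv`).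
`ci_supp`: definition.
`ci_ind`: chain rule in explicit form: on the support (`μ a ≠ 0`, `μ b ≠ 0`, `g a = g b`) one has
 `cl (ci μ g) (fun w => (g w.1, f w.1, f' w.2)) (a, b) = cl μ (g, f) a * cl μ (g, f') b / cl μ g a`
 (sum over `(a', b')` with `g a' = g a`, `f a' = f a`, `f' b' = f' b`, `g b' = g a'`; there `cl μ g a' = cl μ g a`). Take logs and sum.
`ci_cnd`: `Σ_w μ w H (cnd × cnd) f`: apply `H_chain` to `ci μ j` and the label `g w.1`: `cnd (ci μ g) (g ∘ fst) (g a) = prd (cnd μ g (g a)) (cnd μ g (g a))` for `μ a ≠ 0`, and `ci_fst` for the sum over labels.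
-/

set_option autoImplicit false

open Finset Pool.Agent.H19.Ent

namespace Pool.Agent.H69.PFR

variable {Ω α β γ : Type} [Fintype Ω]

theorem ci_PW {μ : Ω → ℝ} (hμ : PW μ) (g : Ω → β) : PW (ci μ g) := sorry

theorem ci_supp {μ : Ω → ℝ} (g : Ω → β) {w : Ω × Ω} (hw : ci μ g w ≠ 0) :
    g w.1 = g w.2 ∧ μ w.1 ≠ 0 ∧ μ w.2 ≠ 0 := sorry

/-- sums of functions of the first coordinate -/
theorem ci_sum_fst {μ : Ω → ℝ} (hμ : PW μ) (g : Ω → β) (F : Ω → ℝ) :
    ∑ w, ci μ g w * F w.1 = ∑ a, μ a * F a := sorry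

theorem ci_fst {μ : Ω → ℝ} (hμ : PW μ) (g : Ω → β) (f : Ω → α) :
    H (ci μ g) (fun w => f w.1) = H μ f := sorry

theorem ci_snd {μ : Ω → ℝ} (hμ : PW μ) (g : Ω → β) (f : Ω → α) :
    H (ci μ g) (fun w => f w.2) = H μ f := sorry

/-- conditional independence -/
theorem ci_ind {μ : Ω → ℝ} (hμ : PW μ) (g : Ω → β) (f : Ω → α) (f' : Ω → γ) :
    H (ci μ g) (fun w => (g w.1, f w.1, f' w.2))
      = H μ (fun w => (g w, f w)) + H μ (fun w => (g w, f' w)) - H μ g := sorry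

/-- the fibres of `ci` -/
theorem ci_cnd {μ : Ω → ℝ} (hμ : PW μ) (g : Ω → β) (f : Ω × Ω → α) :
    ∑ w, μ w * H (prd (cnd μ g (g w)) (cnd μ g (g w))) f = H (ci μ g) (fun w => (g w.1, f w)) - H μ g := sorry

end Pool.Agent.H69.PFR
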