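import Pool.Agent.H69.PFR.SumF

/-
The family of fibres `V = (x₁ | x₁ + x₂)` with labels `(j₁, j₂, x₁ + x₂)`.
-/

set_option autoImplicit false

open Finset H2INV

namespace Pool.Agent.H69.PFR

variable {Ω J : Type} [Fintype Ω] {W : Type} [Fintype W] [AddCommGroup W]

theorem V_h1 {μ : Ω → ℝ} (hμ : IsPM μ) (j : Ω → J) (x : Ω → W) :
    h1 (prodPM μ μ) (fun w => (j w.1, j w.2, x w.1 + x w.2)) (fun w => x w.1) = 2 * h1 μ j x - h2 μ j x := by
  have h : ent (prodPM μ μ) (fun w => ((j w.1, j w.2, x w.1 + x w.2), x w.1)) =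
      ent (prodPM μ μ) (fun w => ((j w.1, x w.1), (j w.2, x w.2))) := ent_congr _ fun w w' => by
    simp only [Prod.mk.injEq]
    constructor
    · rintro ⟨⟨h1, h2, h3⟩, h4⟩
      rw [h4] at h3
      exact ⟨⟨h1, h4⟩, h2, add_left_cancel h3⟩
    · rintro ⟨⟨h1, h2⟩, h3, h4⟩
      exact ⟨⟨h1, h3, by rw [h2, h4]⟩, h2⟩
  unfold h1 h2
  rw [h, ent_prod hμ hμ (fun w => (j w, x w)) (fun w => (j w, x w))]
  ring

theorem V_h2 {μ : Ω → ℝ} (hμ : IsPM μ) (j : Ω → J) (x : Ω → W) :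
    h2 (prodPM μ μ) (fun w => (j w.1, j w.2, x w.1 + x w.2)) (fun w => x w.1) = g4 μ j x - 2 * h2 μ j x := by
  unfold h2 g4 m4
  ring

theorem V_r0 {q : W → ℝ} (hq : IsPM q) {μ : Ω → ℝ} (hμ : IsPM μ) (j : Ω → J) (x : Ω → W) :
    r0 q (prodPM μ μ) (fun w => (j w.1, j w.2, x w.1 + x w.2)) (fun w => x w.1) ≤ r0 q μ j x := by
  have hp := isPM_prod hμ hμ
  have h := ent_sub (isPM_prod hq hp)
    (A := fun w : W × (Ω × Ω) => (j w.2.1, j w.2.2, x w.2.1 + x w.2.2))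
    (B := fun w : W × (Ω × Ω) => (j w.2.1, w.1 + x w.2.1))
    (C := fun w : W × (Ω × Ω) => j w.2.1)
    (J := fun w : W × (Ω × Ω) => ((j w.2.1, j w.2.2, x w.2.1 + x w.2.2), w.1 + x w.2.1))
    (fun v w h => by simp only [Prod.mk.injEq] at h; exact h.1)
    (fun v w h => by simp only [Prod.mk.injEq] at h; exact h.1)
    (fun v w h h' => by
      simp only [Prod.mk.injEq] at h h' ⊢
      exact ⟨h, h'.2⟩)
  have e1 := ent_prod_snd (m' := prodPM μ μ) hq (fun w => (j w.1, j w.2, x w.1 + x w.2))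
  have e2 := SumF_assoc q μ μ (fun w : (W × Ω) × Ω => (j w.1.2, w.1.1 + x w.1.2))
  simp only at e2
  rw [ent_prod_fst hμ (fun w : W × Ω => (j w.2, w.1 + x w.2))] at e2
  have e3 := ent_prod_snd (m' := prodPM μ μ) hq (fun w => j w.1)
  rw [ent_prod_fst hμ j] at e3
  rw [e1, e2, e3] at h
  unfold r0
  linarith

end Pool.Agent.H69.PFR
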