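import Pool.Agent.H69.PFR.Quad

/-
ROW QuadR. Kaimanovich-Vershik inside the fibres. Aux lemmas prefixed QuadR_. Write Hj = ent μ j. PROOF.
`q_r0`: on `prodPM q (m4 μ)`: ent_sub with A = (th, x0, x1 + x2), B = (th, x0 + x1, x2), C = (th, x0 + (x1 + x2)), J = (th, x0, x1, x2).
   `ent J = ent q + 4 (h1 + Hj)` (th, x1, x2 determine x3 and x4), `ent A = ent q + (g4 + 4 Hj)`, `ent B ≤ ent (j1, j4, x1 + x4, x0 + x1) + ent (j2, x2) + ent (j3, x3)` (th and x0 + x1, x2 are determined by these; ent_pair_le) `≤ .. + 2 (h1 + Hj)`,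
   `ent (j1, j4, x1 + x4, x0 + x1) + Hj ≤ (h2 + 2 Hj) + (r0 + Hj)` (ent_sub with A = (j1, j4, x1 + x4), B = (j1, x0 + x1), C = j1; marginals by ent_equiv / ent_prod_fst / ent_prod_snd).
   So `ent C ≤ g4 + 4 Hj + h2 + r0 - 2 h1`, and `r0 q (m4 μ) th (x1+x2) = ent C - ent th`, `ent th = 2 h2 + 4 Hj` (q_sc).
-/

set_option autoImplicit false

open Finset H2INV

namespace Pool.Agent.H69.PFR

variable {Ω J : Type} [Fintype Ω] {W : Type} [Fintype W] [AddCommGroup W] [Module (ZMod 2) W]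

theorem q_r0 {q : W → ℝ} (hq : IsPM q) {μ : Ω → ℝ} (hμ : IsPM μ) (j : Ω → J) (x : Ω → W) :
    r0 q (m4 μ) (th j x) (fun w => x w.1.1 + x w.1.2) ≤ r0 q μ j x + g4 μ j x - h2 μ j x - 2 * h1 μ j x := sorry

end Pool.Agent.H69.PFR
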