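import Pool.Agent.H69.PFR.SumF
import Pool.Agent.H69.PFR.FibF
import Pool.Agent.H69.PFR.BSG
import Pool.Agent.H69.PFR.QuadR
import Pool.Agent.H69.PFR.Avg

/-
Near minimisers have small distance.
-/

set_option autoImplicit false

open Finset H2INV

namespace Pool.Agent.H69.PFR

variable {Ω J : Type} [Fintype Ω] [Fintype J] {W : Type} [Fintype W] [AddCommGroup W]

theorem near_I {q : W → ℝ} (hq : IsPM q) {μ : Ω → ℝ} (hμ : IsPM μ) (j : Ω → J) (x : Ω → W) {e : ℝ}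
    (he : tau q μ j x ≤ ifm q + e) : 4 * h2 μ j x - h4 μ j x - g4 μ j x ≤ kk μ j x / 9 + 2 * e := by
  have hp := isPM_prod hμ hμ
  have hY := ifm_le hq hp (fun w => (j w.1, j w.2)) (fun w => x w.1 + x w.2)
  have hV := ifm_le hq hp (fun w => (j w.1, j w.2, x w.1 + x w.2)) (fun w => x w.1)
  have y0 := Y_r0 hq hμ j x
  have v0 := V_r0 hq hμ j x
  unfold tau kk RR at hY hV he
  rw [Y_h1 hμ, Y_h2 hμ] at hY
  rw [V_h1 hμ, V_h2 hμ] at hV
  unfold kk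
  linarith

variable [Module (ZMod 2) W]

theorem fib_h1 {μ : Ω → ℝ} (hμ : IsPM μ) (j : Ω → J) (x : Ω → W) :
    h1 (m4 μ) (th j x) (fun w => x w.1.1 + x w.1.2) = g4 μ j x - 2 * h2 μ j x := by
  unfold h1
  rw [q_tha, q_sc hμ]
  ring

theorem fib_kk {μ : Ω → ℝ} (hμ : IsPM μ) (j : Ω → J) (x : Ω → W) :
    hs (m4 μ) (th j x) (fun w => x w.1.1 + x w.1.2) - h1 (m4 μ) (th j x) (fun w => x w.1.1 + x w.1.2)
      ≤ 3 * (4 * h2 μ j x - h4 μ j x - g4 μ j x) := by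
  rw [fib_h1 hμ]
  have h := bsg (isPM_m4 hμ) (sg j x) (fun w => x w.1.1 + x w.1.2) (fun w => x w.1.1 + x w.2.1)
  rw [q_sa hμ, q_sb hμ, q_sab, q_s] at h
  have h3 : ent (m4 μ) (fun w => (sg j x w, x w.1.1 + x w.1.2 + (x w.1.1 + x w.2.1))) = 2 * h2 μ j x + 4 * ent μ j :=
    q_sc hμ j x
  rw [h3] at h
  have h4 : hs (m4 μ) (th j x) (fun w => x w.1.1 + x w.1.2) =
      ent (cprod (m4 μ) (fun w => (sg j x w, x w.1.1 + x w.1.2 + (x w.1.1 + x w.2.1))))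
        (fun w => ((sg j x w.1, x w.1.1.1 + x w.1.1.2 + (x w.1.1.1 + x w.1.2.1)), x w.1.1.1 + x w.1.1.2 + (x w.2.1.1 + x w.2.1.2)))
      - (2 * h2 μ j x + 4 * ent μ j) := by
    unfold hs
    rw [q_sc hμ]
    rfl
  rw [h4]
  linarith

theorem fib_RR {q : W → ℝ} (hq : IsPM q) {μ : Ω → ℝ} (hμ : IsPM μ) (j : Ω → J) (x : Ω → W) :
    RR q (m4 μ) (th j x) (fun w => x w.1.1 + x w.1.2) ≤ RR q μ j x + 3 / 2 * kk μ j x := by
  have h := q_r0 hq hμ j x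
  have h' := q_m hμ j x
  unfold RR kk
  rw [fib_h1 hμ]
  linarith

theorem near_kk {q : W → ℝ} (hq : IsPM q) {μ : Ω → ℝ} (hμ : IsPM μ) (j : Ω → J) (x : Ω → W) {e : ℝ}
    (he : tau q μ j x ≤ ifm q + e) : kk μ j x ≤ 14 * e := by
  have h1' := near_I hq hμ j x he
  have h2' := ifm_le_fib hq (isPM_m4 hμ) (th j x) (fun w => x w.1.1 + x w.1.2)
  have h3' := fib_kk hμ j x
  have h4' := fib_RR hq hμ j x
  unfold tau at he
  linarith

end Pool.Agent.H69.PFR
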