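import Pool.Agent.H69.PFR.Lem

/-!
# Entropic Marton theorem over `F_2` (Gowers-Green-Manners-Tao), through families

A family is a finite probability space `(Ω, μ)` with a label `j : Ω → J` and a value `x : Ω → W`.
-/

set_option autoImplicit false

open Finset H2INV

namespace Pool.Agent.H69.PFR

variable {Ω J : Type} [Fintype Ω] {W : Type} [Fintype W] [AddCommGroup W]

/-- `H(x | j)` -/
noncomputable def h1 (μ : Ω → ℝ) (j : Ω → J) (x : Ω → W) : ℝ :=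
  ent μ (fun w => (j w, x w)) - ent μ j

/-- `H(x + x' | j, j')`, independent copies -/
noncomputable def h2 (μ : Ω → ℝ) (j : Ω → J) (x : Ω → W) : ℝ :=
  ent (prodPM μ μ) (fun w => (j w.1, j w.2, x w.1 + x w.2)) - 2 * ent μ j

/-- `H(x₀ + x | j)`, `x₀` independent with law `q` -/
noncomputable def r0 (q : W → ℝ) (μ : Ω → ℝ) (j : Ω → J) (x : Ω → W) : ℝ :=
  ent (prodPM q μ) (fun w => (j w.2, w.1 + x w.2)) - ent μ j

/-- Ruzsa distance of the family to itself -/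
noncomputable def kk (μ : Ω → ℝ) (j : Ω → J) (x : Ω → W) : ℝ := h2 μ j x - h1 μ j x

/-- Ruzsa distance of the family to `q` -/
noncomputable def RR (q : W → ℝ) (μ : Ω → ℝ) (j : Ω → J) (x : Ω → W) : ℝ :=
  r0 q μ j x - ent q (fun w => w) / 2 - h1 μ j x / 2

/-- the functional to be minimised -/
noncomputable def tau (q : W → ℝ) (μ : Ω → ℝ) (j : Ω → J) (x : Ω → W) : ℝ :=
  kk μ j x + RR q μ j x / 9

/-- the values of `tau q` -/
def TS (q : W → ℝ) : Set ℝ :=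
  {t | ∃ (Ω J : Type) (_ : Fintype Ω) (_ : Fintype J) (μ : Ω → ℝ) (j : Ω → J) (x : Ω → W),
    IsPM μ ∧ t = tau q μ j x}

/-- the infimum -/
noncomputable def ifm (q : W → ℝ) : ℝ := sInf (TS q)

/-- four independent copies; the copies are `w.1.1, w.1.2, w.2.1, w.2.2` -/
noncomputable def m4 (μ : Ω → ℝ) : (Ω × Ω) × (Ω × Ω) → ℝ := prodPM (prodPM μ μ) (prodPM μ μ)

/-- `H(x₁ + x₂ + x₃ + x₄ | j)` -/
noncomputable def h4 (μ : Ω → ℝ) (j : Ω → J) (x : Ω → W) : ℝ :=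
  ent (m4 μ) (fun w => (((j w.1.1, j w.1.2), (j w.2.1, j w.2.2)),
    (x w.1.1 + x w.1.2) + (x w.2.1 + x w.2.2))) - 4 * ent μ j

/-- `H(x₁ + x₂, x₃ + x₄, x₁ + x₃ | j)` -/
noncomputable def g4 (μ : Ω → ℝ) (j : Ω → J) (x : Ω → W) : ℝ :=
  ent (m4 μ) (fun w => ((j w.1.1, j w.1.2, x w.1.1 + x w.1.2), (j w.2.1, j w.2.2, x w.2.1 + x w.2.2),
    x w.1.1 + x w.2.1)) - 4 * ent μ j

/-- the labels `(j₁..j₄, x₁+x₂+x₃+x₄)` -/
def sg (j : Ω → J) (x : Ω → W) (w : (Ω × Ω) × (Ω × Ω)) : ((J × J) × (J × J)) × W :=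
  (((j w.1.1, j w.1.2), (j w.2.1, j w.2.2)), (x w.1.1 + x w.1.2) + (x w.2.1 + x w.2.2))

/-- the labels of the fibres of the endgame: `(j₁..j₄, x₁+x₂+x₃+x₄)` and `x₂ + x₃` -/
def th (j : Ω → J) (x : Ω → W) (w : (Ω × Ω) × (Ω × Ω)) : (((J × J) × (J × J)) × W) × W :=
  (sg j x w, (x w.1.1 + x w.1.2) + (x w.1.1 + x w.2.1))

/-- `H(x + x' | j)`, the two copies with the same label -/
noncomputable def hs (μ : Ω → ℝ) (j : Ω → J) (x : Ω → W) : ℝ :=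
  ent (cprod μ j) (fun w => (j w.1, x w.1 + x w.2)) - ent μ j

theorem isPM_m4 {μ : Ω → ℝ} (hμ : IsPM μ) : IsPM (m4 μ) :=
  isPM_prod (isPM_prod hμ hμ) (isPM_prod hμ hμ)

end Pool.Agent.H69.PFR
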