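import Mathlib

/-! Entropic PFR over F_2, last part: a law at small self distance, compactness, and the
equality case.  Laws are plain functions on a finite group. -/

open Finset

namespace PFREnd

/-- A probability law on a finite type. -/
def IsLaw {α : Type*} [Fintype α] (p : α → ℝ) : Prop := (∀ w, 0 ≤ p w) ∧ ∑ w, p w = 1

/-- Shannon entropy (natural logarithm). -/
noncomputable def H {α : Type*} [Fintype α] (p : α → ℝ) : ℝ := ∑ w, Real.negMulLog (p w)

/-- Convolution of two laws. -/
noncomputable def conv {W : Type*} [AddCommGroup W] [Fintype W] (p q : W → ℝ) (w : W) : ℝ :=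
  ∑ x, p x * q (w - x)

/-- Entropic Ruzsa distance (characteristic two: sums instead of differences). -/
noncomputable def d {W : Type*} [AddCommGroup W] [Fintype W] (p q : W → ℝ) : ℝ :=
  H (conv p q) - H p / 2 - H q / 2

section basic
variable {W : Type*} [AddCommGroup W] [Fintype W]

theorem continuous_H {α : Type*} [Fintype α] : Continuous (H : (α → ℝ) → ℝ) := by
  unfold H
  exact continuous_finsetSum _ fun w _ => Real.continuous_negMulLog.comp (continuous_apply w)

theorem continuous_conv_right (p : W → ℝ) : Continuous (fun q : W → ℝ => conv p q) := by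
  unfold conv
  refine continuous_pi fun w => continuous_finsetSum _ fun x _ => ?_
  exact continuous_const.mul (continuous_apply _)

theorem continuous_conv_self : Continuous (fun q : W → ℝ => conv q q) := by
  unfold conv
  refine continuous_pi fun w => continuous_finsetSum _ fun x _ => ?_
  exact (continuous_apply _).mul (continuous_apply _)

theorem continuous_d_right (p : W → ℝ) : Continuous (fun q : W → ℝ => d p q) := by
  unfold d
  exact ((continuous_H.comp (continuous_conv_right p)).sub continuous_const).sub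
    (continuous_H.div_const 2)

theorem continuous_d_self : Continuous (fun q : W → ℝ => d q q) := by
  unfold d
  exact ((continuous_H.comp continuous_conv_self).sub (continuous_H.div_const 2)).sub
    (continuous_H.div_const 2)

/-- Compactness: near-minimisers give a minimiser. -/
theorem exists_limit (p : W → ℝ) (c : ℝ)
    (h : ∀ δ : ℝ, 0 < δ → ∃ q : W → ℝ, IsLaw q ∧ d q q ≤ δ ∧ d p q ≤ c + δ) :
    ∃ q : W → ℝ, IsLaw q ∧ d q q ≤ 0 ∧ d p q ≤ c := by
  have hcont : Continuous (fun q : W → ℝ => max (d q q) (d p q - c)) :=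
    continuous_d_self.max ((continuous_d_right p).sub continuous_const)
  obtain ⟨q0, hq0, -⟩ := h 1 one_pos
  have hne : (stdSimplex ℝ W).Nonempty := ⟨q0, hq0⟩
  obtain ⟨q, hq, hmin⟩ := (isCompact_stdSimplex ℝ W).exists_isMinOn hne hcont.continuousOn
  have hle : max (d q q) (d p q - c) ≤ 0 := by
    by_contra hlt
    push Not at hlt
    obtain ⟨q1, hq1, h1, h2⟩ := h (max (d q q) (d p q - c) / 2) (by linarith)
    have := hmin (show q1 ∈ stdSimplex ℝ W from hq1)
    simp only [Set.mem_ofPred_eq] at this
    have h3 : max (d q1 q1) (d p q1 - c) ≤ max (d q q) (d p q - c) / 2 :=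
      max_le h1 (by linarith)
    linarith
  exact ⟨q, hq, (le_max_left _ _).trans hle, by linarith [(le_max_right (d q q) (d p q - c)).trans hle]⟩

theorem sum_sub_right (f : W → ℝ) (x : W) : ∑ w, f (w - x) = ∑ w, f w :=
  Fintype.sum_equiv (Equiv.subRight x) _ _ fun _ => rfl

/-- Equality case: all translates by support points agree. -/
theorem translates_eq {q : W → ℝ} (hq : IsLaw q) (h : d q q ≤ 0) {x : W} (hx : q x ≠ 0) (w : W) :
    q (w - x) = conv q q w := by
  have hJ : ∀ w, ∑ x, q x * Real.negMulLog (q (w - x)) ≤ Real.negMulLog (conv q q w) := by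
    intro w
    have := Real.concaveOn_negMulLog.le_map_sum (t := Finset.univ) (w := q)
      (p := fun x => q (w - x)) (fun i _ => hq.1 i) hq.2 (fun i _ => hq.1 _)
    simpa [smul_eq_mul, conv] using this
  have hsum : ∑ w, ∑ x, q x * Real.negMulLog (q (w - x)) = H q := by
    rw [Finset.sum_comm]
    have : ∀ x, ∑ w, q x * Real.negMulLog (q (w - x)) = q x * H q := by
      intro x
      rw [← Finset.mul_sum, sum_sub_right (fun w => Real.negMulLog (q w)) x]
      rfl
    simp_rw [this]
    rw [← Finset.sum_mul, hq.2, one_mul]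
  have hle : H (conv q q) ≤ H q := by
    unfold d at h
    linarith
  have heq : ∀ w ∈ (Finset.univ : Finset W),
      ∑ x, q x * Real.negMulLog (q (w - x)) = Real.negMulLog (conv q q w) := by
    have h1 : ∑ w, ∑ x, q x * Real.negMulLog (q (w - x)) = ∑ w, Real.negMulLog (conv q q w) := by
      apply le_antisymm (Finset.sum_le_sum fun w _ => hJ w)
      rw [hsum]
      exact hle
    exact (Finset.sum_eq_sum_iff_of_le fun w _ => hJ w).1 h1
  have hw := heq w (Finset.mem_univ w)
  have hiff := (Real.strictConcaveOn_negMulLog.map_sum_eq_iff' (t := Finset.univ) (w := q)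
      (p := fun x => q (w - x)) (fun i _ => hq.1 i) hq.2 (fun i _ => hq.1 _)).1
      (by simpa [smul_eq_mul, conv] using hw.symm)
  have := hiff x (Finset.mem_univ x) hx
  simpa [smul_eq_mul, conv] using this

end basic

section f2
variable {W : Type*} [AddCommGroup W] [Module (ZMod 2) W] [Fintype W]

/-- Mass of the coset of `K` through `w`. -/
noncomputable def cmass (K : Submodule (ZMod 2) W) (p : W → ℝ) (w : W) : ℝ := by
  classical
  exact ∑ x, if x - w ∈ K then p x else 0

/-- Entropy of a law modulo the subspace `K`. -/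
noncomputable def HK (K : Submodule (ZMod 2) W) (p : W → ℝ) : ℝ :=
  ∑ w, p w * (-Real.log (cmass K p w))

/-- The stabiliser of a function. -/
def stab (q : W → ℝ) : Submodule (ZMod 2) W where
  carrier := {h | ∀ w, q (w + h) = q w}
  add_mem' := by
    intro a b ha hb w
    rw [← add_assoc, hb, ha]
  zero_mem' := by
    intro w
    rw [add_zero]
  smul_mem' := by
    intro c x hx w
    fin_cases c
    · change q (w + (0 : ZMod 2) • x) = q w
      rw [zero_smul, add_zero]
    · change q (w + (1 : ZMod 2) • x) = q w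
      rw [one_smul]
      exact hx w

omit [Fintype W] in
theorem mem_stab {q : W → ℝ} {h : W} : h ∈ stab q ↔ ∀ w, q (w + h) = q w := Iff.rfl

/-- The equality case: `q` is uniform on a coset of its stabiliser. -/
theorem uniform_coset {q : W → ℝ} (hq : IsLaw q) (h : d q q ≤ 0) :
    ∃ (K : Submodule (ZMod 2) W) (x0 : W), ∀ w, (w - x0 ∈ K → q w = (Nat.card K : ℝ)⁻¹) ∧
      (w - x0 ∉ K → q w = 0) := by
  classical
  obtain ⟨x0, hx0⟩ : ∃ x, q x ≠ 0 := by
    by_contra hc
    push Not at hc
    have := hq.2
    simp [hc] at this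
  have hmem : ∀ w, w - x0 ∈ stab q ↔ q w ≠ 0 := by
    intro w
    constructor
    · intro hw
      have := hw x0
      rw [add_sub_cancel] at this
      rw [this]
      exact hx0
    · intro hw v
      have h1 := translates_eq hq h hw (v + w)
      have h2 := translates_eq hq h hx0 (v + w)
      rw [add_sub_cancel_right] at h1
      rw [h1, ← h2]
      congr 1
      abel
  have hval : ∀ w, w - x0 ∈ stab q → q w = q x0 := by
    intro w hw
    have := hw x0
    rwa [add_sub_cancel] at this
  have hsum : ∑ w, q w = (Nat.card (stab q) : ℝ) * q x0 := by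
    have h1 : ∑ w, q w = ∑ w, if w - x0 ∈ stab q then q x0 else 0 := by
      refine Finset.sum_congr rfl fun w _ => ?_
      split_ifs with hw
      · exact hval w hw
      · by_contra hne
        exact hw ((hmem w).2 hne)
    rw [h1, sum_sub_right (fun w => if w ∈ stab q then q x0 else 0) x0, ← Finset.sum_filter,
      Finset.sum_const, nsmul_eq_mul]
    congr 2
    rw [Nat.card_eq_fintype_card, Fintype.card_subtype]
  have hcard : (Nat.card (stab q) : ℝ) * q x0 = 1 := by rw [← hsum]; exact hq.2
  refine ⟨stab q, x0, fun w => ⟨fun hw => ?_, fun hw => ?_⟩⟩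
  · rw [hval w hw]
    exact eq_inv_of_mul_eq_one_right hcard
  · by_contra hne
    exact hw ((hmem w).2 hne)

theorem card_coset (K : Submodule (ZMod 2) W) (x : W) [DecidablePred fun w : W => w - x ∈ K] :
    ((Finset.univ.filter fun w : W => w - x ∈ K).card : ℝ) = Nat.card K := by
  classical
  have h1 : (Finset.univ.filter fun w : W => w - x ∈ K).card
      = (Finset.univ.filter fun w : W => w ∈ K).card := by
    refine Finset.card_bij (fun w _ => w - x) ?_ ?_ ?_
    · intro a ha
      simpa using ha
    · intro a _ b _ hab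
      simpa using hab
    · intro b hb
      refine ⟨b + x, ?_, by simp⟩
      simpa using hb
  rw [h1, Nat.card_eq_fintype_card, Fintype.card_subtype]

theorem cmass_congr (K : Submodule (ZMod 2) W) (p : W → ℝ) {w w' : W} (h : w - w' ∈ K) :
    cmass K p w = cmass K p w' := by
  classical
  unfold cmass
  refine Finset.sum_congr rfl fun x _ => ?_
  have : x - w ∈ K ↔ x - w' ∈ K := by
    have e : x - w' = (x - w) + (w - w') := by abel
    rw [e]
    constructor
    · intro hx
      exact K.add_mem hx h
    · intro hx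
      have := K.sub_mem hx h
      simpa using this
  simp [this]

theorem cmass_nonneg (K : Submodule (ZMod 2) W) {p : W → ℝ} (hp : ∀ w, 0 ≤ p w) (w : W) :
    0 ≤ cmass K p w := by
  classical
  unfold cmass
  refine Finset.sum_nonneg fun x _ => ?_
  split_ifs
  · exact hp x
  · exact le_rfl

theorem sum_cmass_mul (K : Submodule (ZMod 2) W) (p g : W → ℝ)
    (hg : ∀ w w', w - w' ∈ K → g w = g w') :
    ∑ w, cmass K p w * g w = (Nat.card K : ℝ) * ∑ w, p w * g w := by
  classical
  unfold cmass
  simp_rw [Finset.sum_mul]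
  rw [Finset.sum_comm, Finset.mul_sum]
  refine Finset.sum_congr rfl fun x _ => ?_
  have : ∀ w, (if x - w ∈ K then p x else 0) * g w = if w - x ∈ K then p x * g x else 0 := by
    intro w
    have hs : x - w ∈ K ↔ w - x ∈ K := by
      rw [← neg_sub, K.neg_mem_iff]
    by_cases hw : w - x ∈ K
    · rw [if_pos (hs.2 hw), if_pos hw, hg w x hw]
    · rw [if_neg (fun h => hw (hs.1 h)), if_neg hw, zero_mul]
  simp_rw [this]
  rw [← Finset.sum_filter, Finset.sum_const, nsmul_eq_mul, card_coset]

/-- Entropy of the convolution with the uniform law of a coset. -/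
theorem H_conv_coset (K : Submodule (ZMod 2) W) (x0 : W) {p q : W → ℝ} (hp : IsLaw p)
    (hq : ∀ w, (w - x0 ∈ K → q w = (Nat.card K : ℝ)⁻¹) ∧ (w - x0 ∉ K → q w = 0)) :
    H (conv p q) = HK K p + Real.log (Nat.card K) := by
  classical
  have hK : (0 : ℝ) < Nat.card K := by
    have : 0 < Nat.card K := Nat.card_pos
    exact_mod_cast this
  have hconv : ∀ w, conv p q w = (Nat.card K : ℝ)⁻¹ * cmass K p (w - x0) := by
    intro w
    unfold conv cmass
    rw [Finset.mul_sum]
    refine Finset.sum_congr rfl fun x _ => ?_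
    have hs : w - x - x0 ∈ K ↔ x - (w - x0) ∈ K := by
      have e : x - (w - x0) = -(w - x - x0) := by abel
      rw [e, K.neg_mem_iff]
    by_cases hx : x - (w - x0) ∈ K
    · rw [if_pos hx, (hq (w - x)).1 (hs.2 hx), mul_comm]
    · rw [if_neg hx, (hq (w - x)).2 (fun h => hx (hs.1 h))]
      simp
  have h1 : H (conv p q) = ∑ w, Real.negMulLog ((Nat.card K : ℝ)⁻¹ * cmass K p w) := by
    unfold H
    simp_rw [hconv]
    exact sum_sub_right (fun w => Real.negMulLog ((Nat.card K : ℝ)⁻¹ * cmass K p w)) x0
  have h2 : ∀ w, Real.negMulLog ((Nat.card K : ℝ)⁻¹ * cmass K p w)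
      = (Nat.card K : ℝ)⁻¹ * (cmass K p w * (-Real.log (cmass K p w) + Real.log (Nat.card K))) := by
    intro w
    rw [Real.negMulLog]
    rcases (cmass_nonneg K hp.1 w).eq_or_lt with h0 | h0
    · rw [← h0]
      simp
    · rw [Real.log_mul (inv_ne_zero hK.ne') h0.ne', Real.log_inv]
      ring
  rw [h1]
  simp_rw [h2]
  rw [← Finset.mul_sum, sum_cmass_mul K p
    (fun w => -Real.log (cmass K p w) + Real.log (Nat.card K))
    (fun w w' h => by simp only [cmass_congr K p h]), ← mul_assoc, inv_mul_cancel₀ hK.ne',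
    one_mul]
  simp_rw [mul_add]
  rw [Finset.sum_add_distrib, ← Finset.sum_mul, hp.2, one_mul]
  rfl

theorem H_coset (K : Submodule (ZMod 2) W) (x0 : W) {q : W → ℝ}
    (hq : ∀ w, (w - x0 ∈ K → q w = (Nat.card K : ℝ)⁻¹) ∧ (w - x0 ∉ K → q w = 0)) :
    H q = Real.log (Nat.card K) := by
  classical
  have hK : (0 : ℝ) < Nat.card K := by
    have : 0 < Nat.card K := Nat.card_pos
    exact_mod_cast this
  have h1 : ∀ w, Real.negMulLog (q w)
      = if w - x0 ∈ K then (Nat.card K : ℝ)⁻¹ * Real.log (Nat.card K) else 0 := by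
    intro w
    split_ifs with hw
    · rw [(hq w).1 hw, Real.negMulLog, Real.log_inv]
      ring
    · rw [(hq w).2 hw, Real.negMulLog_zero]
  unfold H
  simp_rw [h1]
  rw [← Finset.sum_filter, Finset.sum_const, nsmul_eq_mul, card_coset, ← mul_assoc,
    mul_inv_cancel₀ hK.ne', one_mul]

/-- Last step of entropic PFR. -/
theorem pfr_end (p : W → ℝ) (hp : IsLaw p) (c : ℝ)
    (h : ∀ δ : ℝ, 0 < δ → ∃ q : W → ℝ, IsLaw q ∧ d q q ≤ δ ∧ d p q ≤ c + δ) :
    ∃ K : Submodule (ZMod 2) W,
      HK K p + Real.log (Nat.card K) / 2 - H p / 2 ≤ c := by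
  obtain ⟨q, hq, h0, h1⟩ := exists_limit p c h
  obtain ⟨K, x0, hK⟩ := uniform_coset hq h0
  refine ⟨K, ?_⟩
  unfold d at h1
  rw [H_conv_coset K x0 hp hK, H_coset K x0 hK] at h1
  linarith

end f2

end PFREnd
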