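import Pool.Agent.H2.INV.Ent
import Pool.Agent.H69.PFR.End

/-! Entropic PFR over F_2: bridge between plain laws (`PFREnd`) and the entropy calculus
(`H2INV`). -/

open Finset

namespace PFREnd

open H2INV

theorem isPM_iff {α : Type*} [Fintype α] {p : α → ℝ} : IsPM p ↔ IsLaw p :=
  ⟨fun h => ⟨h.nonneg, h.sum_one⟩, fun h => ⟨h.1, h.2⟩⟩

theorem law_id {α : Type*} [Fintype α] (p : α → ℝ) (x : α) : law p (fun w => w) x = p x := by
  classical
  unfold law
  have h : ∀ w, (if w = x then p w else 0) = if w = x then p x else 0 := by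
    intro w
    split_ifs with h
    · rw [h]
    · rfl
  rw [Finset.sum_congr rfl fun w _ => h w, Finset.sum_ite_eq']
  simp

theorem H_eq_ent {α : Type*} [Fintype α] (p : α → ℝ) : H p = ent p (fun w => w) := by
  rw [ent_eq_sum]
  unfold H
  exact Finset.sum_congr rfl fun w _ => by rw [law_id]

/-- Entropy of a random variable = entropy of its law. -/
theorem H_law {Om α : Type*} [Fintype Om] [Fintype α] (m : Om → ℝ) (f : Om → α) :
    H (law m f) = ent m f := by
  rw [ent_eq_sum]
  rfl

section f2
variable {W : Type*} [AddCommGroup W] [Module (ZMod 2) W] [Fintype W]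

theorem conv_eq_law (p q : W → ℝ) (w : W) :
    conv p q w = law (prodPM p q) (fun z : W × W => z.1 + z.2) w := by
  classical
  unfold conv law prodPM
  rw [Fintype.sum_prod_type]
  refine Finset.sum_congr rfl fun x _ => ?_
  have h : ∀ y, (if x + y = w then p x * q y else 0) = if w - x = y then p x * q (w - x) else 0 := by
    intro y
    by_cases hy : x + y = w
    · have : w - x = y := by rw [← hy]; abel
      rw [if_pos hy, if_pos this, this]
    · have : ¬ w - x = y := fun h => hy (by rw [← h]; abel)
      rw [if_neg hy, if_neg this]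
  simp only
  rw [Finset.sum_congr rfl fun y _ => h y, Finset.sum_ite_eq]
  simp

theorem H_conv_eq_ent (p q : W → ℝ) :
    H (conv p q) = ent (prodPM p q) (fun z : W × W => z.1 + z.2) := by
  have : conv p q = law (prodPM p q) (fun z : W × W => z.1 + z.2) := by
    funext w
    exact conv_eq_law p q w
  rw [this, H_law]

/-- The convolution of the laws of `f` and `g` is the law of the sum of independent copies. -/
theorem H_conv_law {Om Om' : Type*} [Fintype Om] [Fintype Om'] (m : Om → ℝ) (m' : Om' → ℝ)
    (f : Om → W) (g : Om' → W) :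
    H (conv (law m f) (law m' g)) = ent (prodPM m m') (fun z : Om × Om' => f z.1 + g z.2) := by
  classical
  rw [H_conv_eq_ent, ent_eq_sum, ent_eq_sum]
  refine Finset.sum_congr rfl fun x _ => ?_
  congr 1
  have h1 : law (prodPM m m') (fun z : Om × Om' => f z.1 + g z.2) x
      = ∑ a, m a * ∑ b, m' b * (if f a + g b = x then 1 else 0) := by
    unfold law prodPM
    rw [Fintype.sum_prod_type]
    refine Finset.sum_congr rfl fun a _ => ?_
    rw [Finset.mul_sum]
    refine Finset.sum_congr rfl fun b _ => ?_
    simp only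
    split_ifs <;> simp
  have h2 : law (prodPM (law m f) (law m' g)) (fun z : W × W => z.1 + z.2) x
      = ∑ a, law m f a * ∑ b, law m' g b * (if a + b = x then 1 else 0) := by
    rw [law]
    unfold prodPM
    rw [Fintype.sum_prod_type]
    refine Finset.sum_congr rfl fun a _ => ?_
    rw [Finset.mul_sum]
    refine Finset.sum_congr rfl fun b _ => ?_
    simp only
    split_ifs <;> simp
  rw [h1, h2, sum_law_mul m f (fun a => ∑ b, law m' g b * (if a + b = x then 1 else 0))]
  refine Finset.sum_congr rfl fun a _ => ?_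
  congr 1
  exact sum_law_mul m' g (fun b => if f a + b = x then (1 : ℝ) else 0)

theorem HK_eq_ent (K : Submodule (ZMod 2) W) (p : W → ℝ) : HK K p = ent p (fun w => K.mkQ w) := by
  classical
  unfold HK ent
  refine Finset.sum_congr rfl fun w _ => ?_
  congr 3
  unfold cmass fib
  refine Finset.sum_congr rfl fun x _ => ?_
  have : K.mkQ x = K.mkQ w ↔ x - w ∈ K := by
    rw [Submodule.mkQ_apply, Submodule.mkQ_apply, Submodule.Quotient.eq]
  by_cases h : x - w ∈ K
  · rw [if_pos h, if_pos (this.2 h)]
  · rw [if_neg h, if_neg (fun hh => h (this.1 hh))]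

/-- Entropic Ruzsa distance of two random variables, as `PFREnd.d` of their laws. -/
theorem d_law {Om Om' : Type*} [Fintype Om] [Fintype Om'] (m : Om → ℝ) (m' : Om' → ℝ)
    (f : Om → W) (g : Om' → W) :
    d (law m f) (law m' g) = ent (prodPM m m') (fun z : Om × Om' => f z.1 + g z.2)
      - ent m f / 2 - ent m' g / 2 := by
  unfold d
  rw [H_conv_law, H_law, H_law]

/-- Final form of the last step, in the entropy calculus. -/
theorem pfr_end' {p : W → ℝ} (hp : IsPM p) (c : ℝ)
    (h : ∀ δ : ℝ, 0 < δ → ∃ q : W → ℝ, IsPM q ∧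
      ent (prodPM q q) (fun z : W × W => z.1 + z.2) - ent q (fun w => w) ≤ δ ∧
      ent (prodPM p q) (fun z : W × W => z.1 + z.2) - ent p (fun w => w) / 2
        - ent q (fun w => w) / 2 ≤ c + δ) :
    ∃ K : Submodule (ZMod 2) W,
      ent p (fun w => K.mkQ w) + Real.log (Nat.card K) / 2 - ent p (fun w => w) / 2 ≤ c := by
  obtain ⟨K, hK⟩ := pfr_end p (isPM_iff.1 hp) c (by
    intro δ hδ
    obtain ⟨q, hq, h1, h2⟩ := h δ hδ
    refine ⟨q, isPM_iff.1 hq, ?_, ?_⟩
    · unfold d
      rw [H_conv_eq_ent, H_eq_ent]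
      linarith
    · unfold d
      rw [H_conv_eq_ent, H_eq_ent, H_eq_ent]
      linarith)
  refine ⟨K, ?_⟩
  rw [HK_eq_ent, H_eq_ent] at hK
  exact hK

end f2

end PFREnd
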