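import Pool.Agent.H2.INV.Ent3
import Pool.Agent.H96.F2.Fam

/-! Entropic PFR over F_2: moves on families (sum, `(X | X+Y)`), fibring identity on four copies. -/

set_option autoImplicit false

namespace PFREnd

open H2INV Finset Pool.Agent.H96.F2

noncomputable section

/-! ### generalities -/

section gen
variable {Om : Type*} [Fintype Om]

/-- same kernel on the support => same entropy -/
theorem ent_congr_ae {α β : Type*} {m : Om → ℝ} {f : Om → α} {g : Om → β}
    (h : ∀ w w', m w ≠ 0 → m w' ≠ 0 → (f w = f w' ↔ g w = g w')) : ent m f = ent m g := by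
  classical
  unfold ent
  refine Finset.sum_congr rfl fun w _ => ?_
  by_cases hw : m w = 0
  · rw [hw, zero_mul, zero_mul]
  · congr 3
    unfold fib
    refine Finset.sum_congr rfl fun w' _ => ?_
    by_cases hw' : m w' = 0
    · rw [hw']
      simp
    · simp only [h w' w hw' hw]

/-- independent pairs: conditional entropies add -/
theorem cent_prod {Om' : Type*} [Fintype Om'] {α α' β β' : Type*} {m : Om → ℝ} {m' : Om' → ℝ}
    (hm : IsPM m) (hm' : IsPM m') (f : Om → α) (f' : Om' → α') (g : Om → β) (g' : Om' → β') :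
    cent (prodPM m m') (fun w => (f w.1, f' w.2)) (fun w => (g w.1, g' w.2))
      = cent m f g + cent m' f' g' := by
  have h1 : ent (prodPM m m') (pr (fun w => (f w.1, f' w.2)) (fun w => (g w.1, g' w.2)))
      = ent m (pr f g) + ent m' (pr f' g') := by
    rw [← ent_prod hm hm' (pr f g) (pr f' g')]
    refine ent_congr _ fun w w' => ?_
    simp only [pr, Prod.mk.injEq]
    tauto
  unfold cent
  rw [h1, ent_prod hm hm' g g']
  ring

/-- side information independent of the variable -/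
theorem cent_fst {Om' : Type*} [Fintype Om'] {α β β' : Type*} {m : Om → ℝ} {m' : Om' → ℝ}
    (hm : IsPM m) (hm' : IsPM m') (f : Om → α) (g : Om → β) (g' : Om' → β') :
    cent (prodPM m m') (fun w => f w.1) (fun w => (g w.1, g' w.2)) = cent m f g := by
  have h := cent_prod hm hm' f (fun _ => ()) g g'
  have h0 : cent m' (fun _ => ()) g' = 0 := by
    unfold cent
    rw [ent_congr m' (f := pr (fun _ => ()) g') (g := g') (by intro w w'; simp [pr]), sub_self]
  rw [h0, add_zero] at h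
  rw [← h]
  exact cent_congr _ (fun _ _ => Iff.rfl) (fun w w' _ => by simp)

theorem cent_snd {Om' : Type*} [Fintype Om'] {α β β' : Type*} {m : Om → ℝ} {m' : Om' → ℝ}
    (hm : IsPM m) (hm' : IsPM m') (f : Om' → α) (g : Om → β) (g' : Om' → β') :
    cent (prodPM m m') (fun w => f w.2) (fun w => (g w.1, g' w.2)) = cent m' f g' := by
  have h := cent_prod hm hm' (fun _ => ()) f g g'
  have h0 : cent m (fun _ => ()) g = 0 := by
    unfold cent
    rw [ent_congr m (f := pr (fun _ => ()) g) (g := g) (by intro w w'; simp [pr]), sub_self]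
  rw [h0, zero_add] at h
  rw [← h]
  exact cent_congr _ (fun _ _ => Iff.rfl) (fun w w' _ => by simp)

/-- submodularity of the conditional entropy -/
theorem cent_submod {α β γ δ : Type*} {m : Om → ℝ} (hm : IsPM m) (f : Om → α) (g : Om → β)
    (h : Om → γ) (l : Om → δ) :
    cent m (pr (pr f g) h) l + cent m h l ≤ cent m (pr f h) l + cent m (pr g h) l := by
  have h1 := ent_submod hm f g (pr h l)
  unfold cent
  have e1 : ent m (pr (pr (pr f g) h) l) = ent m (pr (pr f g) (pr h l)) :=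
    ent_congr m fun w w' => by simp only [pr_eq]; tauto
  have e2 : ent m (pr (pr f h) l) = ent m (pr f (pr h l)) :=
    ent_congr m fun w w' => by simp only [pr_eq]; tauto
  have e3 : ent m (pr (pr g h) l) = ent m (pr g (pr h l)) :=
    ent_congr m fun w w' => by simp only [pr_eq]; tauto
  rw [e1, e2, e3]
  linarith

theorem cent_comp_of_mp {Om' : Type*} [Fintype Om'] {α β : Type*} {m : Om → ℝ} {m' : Om' → ℝ}
    {φ : Om' → Om} (h : MP m' φ m) (f : Om → α) (g : Om → β) :
    cent m' (fun w => f (φ w)) (fun w => g (φ w)) = cent m f g := by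
  unfold cent
  rw [← ent_comp_of_mp h (pr f g), ← ent_comp_of_mp h g]
  rfl

end gen

variable {W : Type} [AddCommGroup W] [Module (ZMod 2) W] [Finite W]

/-- entropy of the family -/
def c1 (X : Fam W) : ℝ := cent X.m X.X X.lab

/-- entropic Ruzsa distance of two families -/
def dist (X Y : Fam W) : ℝ := c1 (X.add Y) - c1 X / 2 - c1 Y / 2

/-- self distance -/
def kk (X : Fam W) : ℝ := c1 (X.add X) - c1 X

/-- the family `(X | X + X')` -/
def V (X : Fam W) : Fam W where
  Om := X.Om × X.Om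
  fin := inferInstance
  m := prodPM X.m X.m
  hm := isPM_prod X.hm X.hm
  X := fun w => X.X w.1
  J := W × (X.J × X.J)
  lab := fun w => (X.X w.1 + X.X w.2, (X.lab w.1, X.lab w.2))

omit [Module (ZMod 2) W] [Finite W] in
theorem c1_le_add_left (X Y : Fam W) : c1 X ≤ c1 (X.add Y) := by
  unfold c1
  have h1 := cent_anti (X.add Y).hm (X.add Y).X (g := (X.add Y).lab)
    (g' := fun w => ((X.lab w.1), (Y.X w.2, Y.lab w.2))) (by
      intro w w' h
      simp only [Fam.add, Prod.mk.injEq] at h ⊢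
      exact ⟨h.1, h.2.2⟩)
  have h2 : cent (X.add Y).m (X.add Y).X (fun w => ((X.lab w.1), (Y.X w.2, Y.lab w.2)))
      = cent (prodPM X.m Y.m) (fun w => X.X w.1) (fun w => ((X.lab w.1), (Y.X w.2, Y.lab w.2))) :=
    cent_congr _ (fun _ _ => Iff.rfl) (fun w w' h => by
      simp only [Prod.mk.injEq] at h
      simp only [Fam.add]
      rw [h.2.1]
      exact add_left_inj _)
  have h3 := cent_fst X.hm Y.hm X.X X.lab (fun w => (Y.X w, Y.lab w))
  rw [h2] at h1
  exact h3.symm.le.trans h1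

omit [Module (ZMod 2) W] [Finite W] in
theorem c1_le_add_right (X Y : Fam W) : c1 Y ≤ c1 (X.add Y) := by
  unfold c1
  have h1 := cent_anti (X.add Y).hm (X.add Y).X (g := (X.add Y).lab)
    (g' := fun w => ((X.X w.1, X.lab w.1), Y.lab w.2)) (by
      intro w w' h
      simp only [Fam.add, Prod.mk.injEq] at h ⊢
      exact ⟨h.1.2, h.2⟩)
  have h2 : cent (X.add Y).m (X.add Y).X (fun w => ((X.X w.1, X.lab w.1), Y.lab w.2))
      = cent (prodPM X.m Y.m) (fun w => Y.X w.2) (fun w => ((X.X w.1, X.lab w.1), Y.lab w.2)) :=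
    cent_congr _ (fun _ _ => Iff.rfl) (fun w w' h => by
      simp only [Prod.mk.injEq] at h
      simp only [Fam.add]
      rw [h.1.1]
      exact add_right_inj _)
  have h3 := cent_snd X.hm Y.hm Y.X (fun w => (X.X w, X.lab w)) Y.lab
  rw [h2] at h1
  exact h3.symm.le.trans h1

omit [Module (ZMod 2) W] [Finite W] in
theorem dist_nonneg (X Y : Fam W) : 0 ≤ dist X Y := by
  unfold dist
  have h1 := c1_le_add_left X Y
  have h2 := c1_le_add_right X Y
  linarith

omit [Module (ZMod 2) W] [Finite W] in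
theorem kk_nonneg (X : Fam W) : 0 ≤ kk X := by
  unfold kk
  have h1 := c1_le_add_left X X
  linarith

omit [Module (ZMod 2) W] [Finite W] in
theorem dist_self (X : Fam W) : dist X X = kk X := by
  unfold dist kk
  ring

omit [Module (ZMod 2) W] [Finite W] in
theorem c1_V (X : Fam W) : c1 (V X) = 2 * c1 X - c1 (X.add X) := by
  have h1 := cent_chain (prodPM X.m X.m) (fun w : X.Om × X.Om => X.X w.1)
    (fun w : X.Om × X.Om => X.X w.1 + X.X w.2) (fun w => (X.lab w.1, X.lab w.2))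
  have h2 : cent (prodPM X.m X.m) (pr (fun w : X.Om × X.Om => X.X w.1)
      (fun w : X.Om × X.Om => X.X w.1 + X.X w.2)) (fun w => (X.lab w.1, X.lab w.2))
      = cent (prodPM X.m X.m) (fun w => (X.X w.1, X.X w.2)) (fun w => (X.lab w.1, X.lab w.2)) :=
    cent_congr _ (fun _ _ => Iff.rfl) (fun w w' _ => by
      simp only [pr, Prod.mk.injEq]
      constructor
      · rintro ⟨a, b⟩
        rw [a] at b
        exact ⟨a, add_left_cancel b⟩
      · rintro ⟨a, b⟩
        exact ⟨a, by rw [a, b]⟩)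
  rw [h2, cent_prod X.hm X.hm] at h1
  have h3 : c1 (V X) = cent (prodPM X.m X.m) (fun w : X.Om × X.Om => X.X w.1)
    (pr (fun w : X.Om × X.Om => X.X w.1 + X.X w.2) (fun w => (X.lab w.1, X.lab w.2))) := rfl
  have h4 : c1 (X.add X) = cent (prodPM X.m X.m) (fun w : X.Om × X.Om => X.X w.1 + X.X w.2)
    (fun w => (X.lab w.1, X.lab w.2)) := rfl
  rw [h3, h4]
  unfold c1
  linarith

omit [Module (ZMod 2) W] [Finite W] in
/-- Kaimanovich-Vershik -/
theorem c1_add_add (Z X Y : Fam W) :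
    c1 (Z.add (X.add Y)) + c1 X ≤ c1 (Z.add X) + c1 (X.add Y) := by
  -- on Z x (X x Y): variables z, x, y
  let M := prodPM Z.m (prodPM X.m Y.m)
  have hM : IsPM M := isPM_prod Z.hm (isPM_prod X.hm Y.hm)
  let L : Z.Om × (X.Om × Y.Om) → Z.J × (X.J × Y.J) :=
    fun w => (Z.lab w.1, (X.lab w.2.1, Y.lab w.2.2))
  let S : Z.Om × (X.Om × Y.Om) → W := fun w => Z.X w.1 + (X.X w.2.1 + Y.X w.2.2)
  -- submodularity: (z, S), (y, S) over S
  have h1 := cent_submod hM (fun w => Z.X w.1) (fun w => Y.X w.2.2) S L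
  have e1 : cent M (pr (pr (fun w => Z.X w.1) (fun w => Y.X w.2.2)) S) L
      = c1 Z + (c1 X + c1 Y) := by
    have : cent M (pr (pr (fun w => Z.X w.1) (fun w => Y.X w.2.2)) S) L
        = cent M (fun w => (Z.X w.1, (X.X w.2.1, Y.X w.2.2))) L :=
      cent_congr _ (fun _ _ => Iff.rfl) (fun w w' _ => by
        simp only [pr, Prod.mk.injEq, S]
        constructor
        · rintro ⟨⟨a, b⟩, c⟩
          rw [a, b] at c
          exact ⟨a, add_right_cancel (add_left_cancel c), b⟩
        · rintro ⟨a, b, c⟩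
          exact ⟨⟨a, c⟩, by rw [a, b, c]⟩)
    rw [this]
    have h := cent_prod Z.hm (isPM_prod X.hm Y.hm) Z.X (fun w => (X.X w.1, Y.X w.2)) Z.lab
      (fun w => (X.lab w.1, Y.lab w.2))
    rw [cent_prod X.hm Y.hm] at h
    exact h
  have e2 : cent M S L = c1 (Z.add (X.add Y)) := rfl
  have e3 : cent M (pr (fun w => Z.X w.1) S) L = c1 Z + c1 (X.add Y) := by
    have : cent M (pr (fun w => Z.X w.1) S) L
        = cent M (fun w => (Z.X w.1, (X.X w.2.1 + Y.X w.2.2))) L :=
      cent_congr _ (fun _ _ => Iff.rfl) (fun w w' _ => by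
        simp only [pr, Prod.mk.injEq, S]
        constructor
        · rintro ⟨a, c⟩
          rw [a] at c
          exact ⟨a, add_left_cancel c⟩
        · rintro ⟨a, b⟩
          exact ⟨a, by rw [a, b]⟩)
    rw [this]
    exact cent_prod Z.hm (isPM_prod X.hm Y.hm) Z.X (fun w => X.X w.1 + Y.X w.2) Z.lab
      (fun w => (X.lab w.1, Y.lab w.2))
  have e4 : cent M (pr (fun w => Y.X w.2.2) S) L = c1 (Z.add X) + c1 Y := by
    have h5 : cent M (pr (fun w => Y.X w.2.2) S) L
        = cent M (fun w => ((Z.X w.1 + X.X w.2.1), Y.X w.2.2))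
          (fun w => ((Z.lab w.1, X.lab w.2.1), Y.lab w.2.2)) :=
      cent_congr _ (fun w w' => by simp only [L, Prod.mk.injEq]; tauto) (fun w w' _ => by
        simp only [pr, Prod.mk.injEq, S]
        constructor
        · rintro ⟨a, c⟩
          rw [a, ← add_assoc, ← add_assoc] at c
          exact ⟨add_right_cancel c, a⟩
        · rintro ⟨a, b⟩
          refine ⟨b, ?_⟩
          rw [← add_assoc, ← add_assoc, a, b])
    rw [h5]
    have h6 := cent_prod (isPM_prod Z.hm X.hm) Y.hm (fun w => Z.X w.1 + X.X w.2) Y.X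
      (fun w => (Z.lab w.1, X.lab w.2)) Y.lab
    have h7 := cent_comp_of_mp (mp_assoc Z.m X.m Y.m)
      (fun w : Z.Om × (X.Om × Y.Om) => ((Z.X w.1 + X.X w.2.1), Y.X w.2.2))
      (fun w => ((Z.lab w.1, X.lab w.2.1), Y.lab w.2.2))
    rw [← h7]
    exact h6
  rw [e1, e2, e3, e4] at h1
  linarith

omit [Module (ZMod 2) W] [Finite W] in
theorem c1_add_V (Z X : Fam W) : c1 (Z.add (V X)) ≤ c1 (Z.add X) := by
  -- H(z + x1 | Jz, x1+x2, J1, J2) <= H(z + x1 | Jz, J1, J2) = H(z+x1|Jz,J1)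
  have h1 : c1 (Z.add (V X)) ≤ cent (prodPM Z.m (prodPM X.m X.m))
      (fun w => Z.X w.1 + X.X w.2.1) (fun w => (Z.lab w.1, (X.lab w.2.1, X.lab w.2.2))) :=
    cent_anti (Z.add (V X)).hm (Z.add (V X)).X (fun w w' h => by
      simp only [Fam.add, V, Prod.mk.injEq] at h ⊢
      tauto)
  have h2 : cent (prodPM Z.m (prodPM X.m X.m))
      (fun w => Z.X w.1 + X.X w.2.1) (fun w => (Z.lab w.1, (X.lab w.2.1, X.lab w.2.2)))
      = c1 (Z.add X) := by
    have h7 := cent_comp_of_mp (mp_assoc Z.m X.m X.m)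
      (fun w : Z.Om × (X.Om × X.Om) => (Z.X w.1 + X.X w.2.1))
      (fun w => (Z.lab w.1, (X.lab w.2.1, X.lab w.2.2)))
    rw [← h7]
    have h8 := cent_fst (isPM_prod Z.hm X.hm) X.hm (fun w => Z.X w.1 + X.X w.2)
      (fun w => (Z.lab w.1, X.lab w.2)) X.lab
    unfold c1
    refine Eq.trans ?_ h8
    exact cent_congr _ (fun w w' => by simp only [Prod.mk.injEq]; tauto) (fun _ _ _ => Iff.rfl)
  exact h1.trans h2.le

omit [Module (ZMod 2) W] [Finite W] in
theorem dist_add_self (Z X : Fam W) : dist Z (X.add X) ≤ dist Z X + kk X / 2 := by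
  have h := c1_add_add Z X X
  unfold dist kk
  linarith

omit [Module (ZMod 2) W] [Finite W] in
theorem dist_V (Z X : Fam W) : dist Z (V X) ≤ dist Z X + kk X / 2 := by
  have h := c1_add_V Z X
  unfold dist kk
  rw [c1_V]
  linarith

/-! ### four copies -/

/-- weight on four copies -/
def QQ (X : Fam W) : (X.Om × X.Om) × (X.Om × X.Om) → ℝ :=
  prodPM (prodPM X.m X.m) (prodPM X.m X.m)

omit [AddCommGroup W] [Module (ZMod 2) W] [Finite W] in
theorem hQQ (X : Fam W) : IsPM (QQ X) := isPM_prod (isPM_prod X.hm X.hm) (isPM_prod X.hm X.hm)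

/-- all labels -/
def LL (X : Fam W) : (X.Om × X.Om) × (X.Om × X.Om) → (X.J × X.J) × (X.J × X.J) :=
  fun z => ((X.lab z.1.1, X.lab z.1.2), (X.lab z.2.1, X.lab z.2.2))

def T1 (X : Fam W) : (X.Om × X.Om) × (X.Om × X.Om) → W := fun z => X.X z.1.1 + X.X z.2.1
def T2 (X : Fam W) : (X.Om × X.Om) × (X.Om × X.Om) → W := fun z => X.X z.1.2 + X.X z.2.1
def T3 (X : Fam W) : (X.Om × X.Om) × (X.Om × X.Om) → W := fun z => X.X z.1.1 + X.X z.1.2
def SS (X : Fam W) : (X.Om × X.Om) × (X.Om × X.Om) → W :=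
  fun z => (X.X z.1.1 + X.X z.1.2) + (X.X z.2.1 + X.X z.2.2)

omit [Module (ZMod 2) W] [Finite W] in
theorem cent_SS (X : Fam W) : cent (QQ X) (SS X) (LL X) = c1 ((X.add X).add (X.add X)) := rfl

omit [Module (ZMod 2) W] [Finite W] in
theorem cent_T3_SS (X : Fam W) :
    cent (QQ X) (pr (T3 X) (SS X)) (LL X) = 2 * c1 (X.add X) := by
  have h := cent_prod (isPM_prod X.hm X.hm) (isPM_prod X.hm X.hm)
    (fun w : X.Om × X.Om => X.X w.1 + X.X w.2) (fun w : X.Om × X.Om => X.X w.1 + X.X w.2)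
    (fun w => (X.lab w.1, X.lab w.2)) (fun w => (X.lab w.1, X.lab w.2))
  have h2 : cent (QQ X) (pr (T3 X) (SS X)) (LL X) = cent (QQ X)
      (fun w => (X.X w.1.1 + X.X w.1.2, X.X w.2.1 + X.X w.2.2)) (LL X) :=
    cent_congr _ (fun _ _ => Iff.rfl) (fun w w' _ => by
      simp only [pr, Prod.mk.injEq, T3, SS]
      constructor
      · rintro ⟨a, b⟩
        rw [a] at b
        exact ⟨a, add_left_cancel b⟩
      · rintro ⟨a, b⟩
        exact ⟨a, by rw [a, b]⟩)
  rw [h2, two_mul]
  exact h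

omit [AddCommGroup W] [Module (ZMod 2) W] [Finite W] in
/-- swapping the second and third copy -/
theorem mp_swap23 (X : Fam W) : MP (QQ X)
    (fun z => ((z.1.1, z.2.1), (z.1.2, z.2.2))) (QQ X) := by
  refine mp_of_equiv (Om := (X.Om × X.Om) × (X.Om × X.Om))
    (Om' := (X.Om × X.Om) × (X.Om × X.Om))
    ⟨fun z => ((z.1.1, z.2.1), (z.1.2, z.2.2)), fun z => ((z.1.1, z.2.1), (z.1.2, z.2.2)),
      fun z => rfl, fun z => rfl⟩ fun z => ?_
  simp only [QQ, prodPM, Equiv.coe_fn_mk]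
  ring

omit [AddCommGroup W] [Module (ZMod 2) W] [Finite W] in
/-- swapping the first and second copy -/
theorem mp_swap12 (X : Fam W) : MP (QQ X)
    (fun z => ((z.1.2, z.1.1), (z.2.1, z.2.2))) (QQ X) := by
  refine mp_of_equiv (Om := (X.Om × X.Om) × (X.Om × X.Om))
    (Om' := (X.Om × X.Om) × (X.Om × X.Om))
    ⟨fun z => ((z.1.2, z.1.1), (z.2.1, z.2.2)), fun z => ((z.1.2, z.1.1), (z.2.1, z.2.2)),
      fun z => rfl, fun z => rfl⟩ fun z => ?_
  simp only [QQ, prodPM, Equiv.coe_fn_mk]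
  ring

omit [Module (ZMod 2) W] [Finite W] in
theorem cent_T1_SS (X : Fam W) :
    cent (QQ X) (pr (T1 X) (SS X)) (LL X) = 2 * c1 (X.add X) := by
  rw [← cent_T3_SS, ← cent_comp_of_mp (mp_swap23 X) (pr (T3 X) (SS X)) (LL X)]
  exact cent_congr _ (fun w w' => by simp only [LL, Prod.mk.injEq]; tauto) (fun w w' _ => by
    simp only [pr, Prod.mk.injEq, T3, T1, SS]
    have e : ∀ a b c d : W, (a + b) + (c + d) = (a + c) + (b + d) := by intros; abel
    rw [e (X.X w.1.1) (X.X w.1.2), e (X.X w'.1.1) (X.X w'.1.2)])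

omit [Module (ZMod 2) W] [Finite W] in
theorem cent_T2_SS (X : Fam W) :
    cent (QQ X) (pr (T2 X) (SS X)) (LL X) = 2 * c1 (X.add X) := by
  rw [← cent_T1_SS, ← cent_comp_of_mp (mp_swap12 X) (pr (T1 X) (SS X)) (LL X)]
  exact cent_congr _ (fun w w' => by simp only [LL, Prod.mk.injEq]; tauto) (fun w w' _ => by
    simp only [pr, Prod.mk.injEq, T2, T1, SS]
    rw [add_comm (X.X w.1.1) (X.X w.1.2), add_comm (X.X w'.1.1) (X.X w'.1.2)])

/-- the mutual information `I(T1 : T3 | S, labels)` -/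
def II (X : Fam W) : ℝ :=
  4 * c1 (X.add X) - c1 ((X.add X).add (X.add X))
    - cent (QQ X) (pr (pr (T1 X) (T3 X)) (SS X)) (LL X)

omit [Module (ZMod 2) W] [Finite W] in
theorem II_nonneg (X : Fam W) : 0 ≤ II X := by
  have h := cent_submod (hQQ X) (T1 X) (T3 X) (SS X) (LL X)
  rw [cent_SS, cent_T1_SS, cent_T3_SS] at h
  unfold II
  linarith

omit [Module (ZMod 2) W] [Finite W] in
theorem c1_VV (X : Fam W) : c1 ((V X).add (V X))
    = cent (QQ X) (pr (pr (T1 X) (T3 X)) (SS X)) (LL X) - 2 * c1 (X.add X) := by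
  have h1 := cent_chain (QQ X) (T1 X) (pr (T3 X) (SS X)) (LL X)
  have h2 : cent (QQ X) (pr (T1 X) (pr (T3 X) (SS X))) (LL X)
      = cent (QQ X) (pr (pr (T1 X) (T3 X)) (SS X)) (LL X) :=
    cent_congr _ (fun _ _ => Iff.rfl) (fun w w' _ => by simp only [pr_eq]; tauto)
  have h3 : c1 ((V X).add (V X)) = cent (QQ X) (T1 X) (pr (pr (T3 X) (SS X)) (LL X)) :=
    cent_congr _ (fun w w' => by
      simp only [V, Fam.add, LL, pr, SS, T3, Prod.mk.injEq]
      constructor
      · rintro ⟨⟨a, b, c⟩, d, e, f⟩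
        exact ⟨⟨a, by rw [a, d]⟩, ⟨b, c⟩, e, f⟩
      · rintro ⟨⟨a, b⟩, ⟨c, d⟩, e, f⟩
        rw [a] at b
        exact ⟨⟨a, c, d⟩, add_left_cancel b, e, f⟩) (fun _ _ _ => Iff.rfl)
  rw [h3, ← cent_T3_SS]
  linarith

omit [Module (ZMod 2) W] [Finite W] in
/-- the fibring identity -/
theorem fibring (X : Fam W) : kk (X.add X) + kk (V X) = 2 * kk X - II X := by
  unfold kk II
  rw [c1_VV, c1_V]
  ring

end

end PFREnd
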