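import Pool.Agent.H2.INV.Ent2

/-!
# Kernel forms of submodularity, also on the support
-/

set_option autoImplicit false

open Finset H2INV

namespace Pool.Agent.H69.PFR

variable {Ω Ω' α β γ δ : Type*} [Fintype Ω] [Fintype Ω']

/-- same kernel on the support, same fibres -/
theorem fib_congr_supp {m : Ω → ℝ} {f : Ω → α} {g : Ω → β}
    (h : ∀ v w, m v ≠ 0 → m w ≠ 0 → (f v = f w ↔ g v = g w)) {w : Ω} (hw : m w ≠ 0) :
    fib m f w = fib m g w := by
  classical
  unfold fib
  refine Finset.sum_congr rfl fun v _ => ?_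
  by_cases hv : m v = 0
  · simp [hv]
  · simp only [h v w hv hw]

/-- same kernel on the support, same entropy -/
theorem ent_congr_supp {m : Ω → ℝ} {f : Ω → α} {g : Ω → β}
    (h : ∀ v w, m v ≠ 0 → m w ≠ 0 → (f v = f w ↔ g v = g w)) : ent m f = ent m g := by
  unfold ent
  refine Finset.sum_congr rfl fun w _ => ?_
  by_cases hw : m w = 0
  · simp [hw]
  · rw [fib_congr_supp h hw]

/-- coarser on the support, smaller entropy -/
theorem ent_mono_supp {m : Ω → ℝ} (hm : IsPM m) {f : Ω → α} {g : Ω → β}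
    (h : ∀ v w, m v ≠ 0 → m w ≠ 0 → g v = g w → f v = f w) : ent m f ≤ ent m g := by
  have h1 : ent m (pr f g) = ent m g := by
    refine ent_congr_supp fun v w hv hw => ?_
    rw [pr_eq]
    exact ⟨fun h2 => h2.2, fun h2 => ⟨h v w hv hw h2, h2⟩⟩
  rw [← h1]
  exact ent_mono hm fun v w h2 => ((pr_eq f g v w).1 h2).1

/-- submodularity, kernel form: `A` and `B` both determine `C`, together they determine `J` -/
theorem ent_sub {m : Ω → ℝ} (hm : IsPM m) {A : Ω → α} {B : Ω → β} {C : Ω → γ} {J : Ω → δ}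
    (hA : ∀ v w, A v = A w → C v = C w) (hB : ∀ v w, B v = B w → C v = C w)
    (hJ : ∀ v w, A v = A w → B v = B w → J v = J w) :
    ent m J + ent m C ≤ ent m A + ent m B := by
  have h1 := ent_submod hm A B C
  have h2 : ent m (pr A C) = ent m A := ent_congr m fun v w => by
    rw [pr_eq]; exact ⟨fun h => h.1, fun h => ⟨h, hA v w h⟩⟩
  have h3 : ent m (pr B C) = ent m B := ent_congr m fun v w => by
    rw [pr_eq]; exact ⟨fun h => h.1, fun h => ⟨h, hB v w h⟩⟩
  have h4 : ent m J ≤ ent m (pr (pr A B) C) := ent_mono hm fun v w h => by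
    rw [pr_eq, pr_eq] at h
    exact hJ v w h.1.1 h.1.2
  linarith

/-- submodularity, kernel form on the support -/
theorem ent_sub_supp {m : Ω → ℝ} (hm : IsPM m) {A : Ω → α} {B : Ω → β} {C : Ω → γ} {J : Ω → δ}
    (hA : ∀ v w, m v ≠ 0 → m w ≠ 0 → A v = A w → C v = C w)
    (hB : ∀ v w, m v ≠ 0 → m w ≠ 0 → B v = B w → C v = C w)
    (hJ : ∀ v w, m v ≠ 0 → m w ≠ 0 → A v = A w → B v = B w → J v = J w) :
    ent m J + ent m C ≤ ent m A + ent m B := by
  have h1 := ent_submod hm A B C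
  have h2 : ent m (pr A C) = ent m A := ent_congr_supp fun v w hv hw => by
    rw [pr_eq]; exact ⟨fun h => h.1, fun h => ⟨h, hA v w hv hw h⟩⟩
  have h3 : ent m (pr B C) = ent m B := ent_congr_supp fun v w hv hw => by
    rw [pr_eq]; exact ⟨fun h => h.1, fun h => ⟨h, hB v w hv hw h⟩⟩
  have h4 : ent m J ≤ ent m (pr (pr A B) C) := ent_mono_supp hm fun v w hv hw h => by
    rw [pr_eq, pr_eq] at h
    exact hJ v w hv hw h.1.1 h.1.2
  linarith

/-- conditioning reduces entropy -/
theorem ent_cond_le {m : Ω → ℝ} (hm : IsPM m) (a : Ω → α) (b : Ω → β) (c : Ω → γ) :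
    ent m (fun w => (a w, b w, c w)) + ent m c ≤ ent m (fun w => (a w, c w)) + ent m (fun w => (b w, c w)) := by
  refine ent_sub hm (fun v w h => ?_) (fun v w h => ?_) (fun v w h h' => ?_)
  · simp only [Prod.mk.injEq] at h; exact h.2
  · simp only [Prod.mk.injEq] at h; exact h.2
  · simp only [Prod.mk.injEq] at h h' ⊢; exact ⟨h.1, h'.1, h.2⟩

theorem ent_pair_le {m : Ω → ℝ} (hm : IsPM m) (a : Ω → α) (b : Ω → β) :
    ent m (fun w => (a w, b w)) ≤ ent m a + ent m b := by
  have h := ent_sub hm (A := a) (B := b) (C := fun _ => ()) (J := fun w => (a w, b w))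
    (fun _ _ _ => rfl) (fun _ _ _ => rfl) (fun v w h h' => by simp only [Prod.mk.injEq]; exact ⟨h, h'⟩)
  have h2 : ent m (fun _ : Ω => ()) = 0 := ent_const hm fun _ _ => rfl
  linarith

theorem ent_prod_fst {m : Ω → ℝ} {m' : Ω' → ℝ} (hm' : IsPM m') (f : Ω → α) :
    ent (prodPM m m') (fun w => f w.1) = ent m f := ent_comp_of_mp (mp_fst hm') f

theorem ent_prod_snd {m : Ω → ℝ} {m' : Ω' → ℝ} (hm : IsPM m) (f : Ω' → α) :
    ent (prodPM m m') (fun w => f w.2) = ent m' f := ent_comp_of_mp (mp_snd hm) f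

/-- transport along a bijection -/
theorem ent_equiv {m : Ω → ℝ} {m' : Ω' → ℝ} (e : Ω ≃ Ω') (h : ∀ w, m' (e w) = m w) (f : Ω' → α) :
    ent m (fun w => f (e w)) = ent m' f := ent_comp_of_mp (mp_of_equiv e h) f

end Pool.Agent.H69.PFR
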