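import Pool.Agent.H69.PFR.Pick
import Pool.Agent.H69.PFR.End

/-
ROW Main. Bridge between `pick` and `PFREnd.pfr_end`. PROOF. `IsLaw p ↔ IsPM p`; `PFREnd.H p = ent p id` (ent_eq_sum, law p id = p); `PFREnd.conv p q = law (prodPM p q) (fun w => w.1 + w.2)`, so `PFREnd.H (conv p q) = ent (prodPM p q) (+)`;
`PFREnd.HK K p = ent p (mod K)` (definition, fib; `mk w' = mk w ↔ w' - w ∈ K`).
-/

set_option autoImplicit false

open Finset H2INV

namespace Pool.Agent.H69.PFR

variable {W : Type} [Fintype W] [AddCommGroup W] [Module (ZMod 2) W]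

/-- Entropic Marton theorem over `F_2` (constant 10). -/
theorem marton {q : W → ℝ} (hq : IsPM q) :
    ∃ K : Submodule (ZMod 2) W,
      ent q (fun w => Submodule.Quotient.mk (p := K) w) + Real.log (Nat.card K) / 2 - ent q (fun w => w) / 2
        ≤ 10 * (ent (prodPM q q) (fun w => w.1 + w.2) - ent q (fun w => w)) := sorry

end Pool.Agent.H69.PFR
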