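import Pool.Agent.H69.PFR.Bsg
import Pool.Agent.H69.PFR.EndB

/-! Entropic PFR over F_2 (Gowers, Green, Manners, Tao), version with families:
for every law `p` on a finite `ZMod 2` space there is a subspace `K` with
`H(p mod K) + log|K|/2 - H(p)/2 <= 10 (H(p * p) - H(p))`. -/

set_option autoImplicit false

namespace PFREnd

open H2INV Finset Pool.Agent.H96.F2

noncomputable section

variable {W : Type} [AddCommGroup W] [Module (ZMod 2) W] [Finite W]

/-- the functional to be minimised -/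
def tau (Z X : Fam W) : ℝ := kk X + (1 / 9) * dist Z X

omit [Module (ZMod 2) W] [Finite W] in
theorem tau_nonneg (Z X : Fam W) : 0 ≤ tau Z X := by
  have h1 := kk_nonneg X
  have h2 := dist_nonneg Z X
  unfold tau
  linarith

/-- One near-minimiser gives a single law: main inequality. -/
theorem step (Z : Fam W) (hZ : ∀ w w', Z.lab w = Z.lab w') (X : Fam W) {e : ℝ} (he : 0 ≤ e)
    (hX : ∀ Y : Fam W, tau Z X ≤ tau Z Y + e) :
    II X ≤ 2 * e + kk X / 9 ∧ kk X ≤ 14 * e ∧
      avg (AA X) (fun Y => c1 (Y.add Y)) ≤ c1 (AA X) + 11 * e ∧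
      dist Z (AA X) ≤ dist Z X + 21 * e := by
  have hk := kk_nonneg X
  have hI := II_nonneg X
  have f1 := fibring X
  have d1 := dist_add_self Z X
  have d2 := dist_V Z X
  have m1 := hX (X.add X)
  have m2 := hX (V X)
  have b := avg_AA X
  have kY := kk_nonneg (X.add X)
  have d3 : dist Z (AA X) ≤ dist Z (V X) + kk (V X) / 2 := dist_add_self Z (V X)
  -- average of tau over the single laws
  have a1 := avg_mono (AA X) (F := fun Y => tau Z Y) (t := tau Z X - e) (fun Y => by
    have := hX Y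
    linarith)
  have a2 : avg (AA X) (fun Y => tau Z Y)
      = avg (AA X) (fun Y => c1 (Y.add Y)) - c1 (AA X) + (1 / 9) * dist Z (AA X) := by
    have e0 : (fun Y => tau Z Y) = fun Y : Fam W => (c1 (Y.add Y) + (-1 - 1 / 18) * c1 Y)
        + ((1 / 9) * c1 (Z.add Y) + (-(c1 Z / 18))) := by
      funext Y
      unfold tau kk dist
      ring
    rw [e0, avg_add, avg_add, avg_smul, avg_add, avg_smul, avg_c1, avg_other Z _ hZ]
    have e1 : avg (AA X) (fun _ => -(c1 Z / 18)) = -(c1 Z / 18) := by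
      classical
      rw [avg_eq (AA X) (fun _ => -(c1 Z / 18)) (fun _ => -(c1 Z / 18)) (fun _ _ => rfl),
        ← Finset.sum_mul, (AA X).hm.sum_one, one_mul]
    rw [e1]
    unfold dist
    ring
  rw [a2] at a1
  unfold tau at a1 m1 m2
  have hI2 : II X ≤ 2 * e + kk X / 9 := by linarith
  have hk2 : kk X ≤ 14 * e := by linarith
  refine ⟨hI2, hk2, ?_, ?_⟩
  · linarith
  · linarith

/-- a law as a family -/
def ofLaw [Fintype W] (p : W → ℝ) (hp : IsPM p) : Fam W where
  Om := W
  fin := inferInstance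
  m := p
  hm := hp
  X := fun w => w
  J := Unit
  lab := fun _ => ()

omit [AddCommGroup W] [Module (ZMod 2) W] [Finite W] in
theorem c1_triv (X : Fam W) (h : ∀ w w', X.lab w = X.lab w') : c1 X = ent X.m X.X :=
  cent_triv X.hm _ _ h

/-- Entropic PFR over `F_2`, constant 10. -/
theorem pfr [Fintype W] {p : W → ℝ} (hp : IsPM p) :
    ∃ K : Submodule (ZMod 2) W,
      ent p (fun w => K.mkQ w) + Real.log (Nat.card K) / 2 - ent p (fun w => w) / 2
        ≤ 10 * (ent (prodPM p p) (fun z : W × W => z.1 + z.2) - ent p (fun w => w)) := by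
  classical
  set Z : Fam W := ofLaw p hp with hZdef
  have hZ : ∀ w w', Z.lab w = Z.lab w' := fun _ _ => rfl
  have hZ1 : c1 Z = ent p (fun w => w) := c1_triv Z hZ
  have hZ2 : c1 (Z.add Z) = ent (prodPM p p) (fun z : W × W => z.1 + z.2) :=
    c1_triv (Z.add Z) (fun _ _ => rfl)
  have hd0 : dist Z Z = ent (prodPM p p) (fun z : W × W => z.1 + z.2) - ent p (fun w => w) := by
    rw [dist_self]
    unfold kk
    rw [hZ1, hZ2]
  set D0 := dist Z Z with hD0
  have hD0n : 0 ≤ D0 := dist_nonneg Z Z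
  rw [← hd0]
  refine pfr_end' hp (10 * D0) fun δ hδ => ?_
  -- choose a small e
  set r : ℝ := min (δ / (2 * (10 * D0 + 51))) (min 1 (δ / 51)) with hr
  have hA : (0 : ℝ) < 10 * D0 + 51 := by linarith
  have hr0 : 0 < r := by
    rw [hr]
    refine lt_min (by positivity) (lt_min one_pos (by positivity))
  have hr1 : r ≤ 1 := (min_le_right _ _).trans (min_le_left _ _)
  have hr2 : r * 51 ≤ δ := by
    have : r ≤ δ / 51 := (min_le_right _ _).trans (min_le_right _ _)
    rwa [le_div_iff₀ (by norm_num)] at this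
  have hr3 : r * (10 * D0 + 51) ≤ δ := by
    have : r ≤ δ / (2 * (10 * D0 + 51)) := min_le_left _ _
    rw [le_div_iff₀ (by positivity)] at this
    nlinarith [mul_pos hr0 hA]
  -- near-minimiser with e = r ^ 2
  set T : Set ℝ := {t | ∃ X : Fam W, t = tau Z X} with hT
  have hTne : T.Nonempty := ⟨_, Z, rfl⟩
  have hTb : BddBelow T := ⟨0, by rintro t ⟨X, rfl⟩; exact tau_nonneg Z X⟩
  obtain ⟨t, ⟨X, rfl⟩, ht⟩ := exists_lt_of_csInf_lt hTne (show sInf T < sInf T + r ^ 2 from lt_add_of_pos_right _ (by positivity))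
  have hX : ∀ Y : Fam W, tau Z X ≤ tau Z Y + r ^ 2 := by
    intro Y
    have := csInf_le hTb (show tau Z Y ∈ T from ⟨Y, rfl⟩)
    linarith
  obtain ⟨-, h2, h3, h4⟩ := step Z hZ X (e := r ^ 2) (by positivity) hX
  have h5 : dist Z X ≤ 10 * D0 + 9 * r ^ 2 := by
    have := hX Z
    unfold tau at this
    rw [← dist_self Z] at this
    have hk := kk_nonneg X
    linarith
  -- average of dist + (1/r) kk over the single laws
  have h6 : avg (AA X) (fun Y => dist Z Y + (1 / r) * kk Y) ≤ 10 * D0 + 30 * r ^ 2 + 11 * r := by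
    have e0 : (fun Y : Fam W => dist Z Y + (1 / r) * kk Y)
        = fun Y : Fam W => ((1 / r) * c1 (Y.add Y) + (-(1 / r) - 1 / 2) * c1 Y)
          + (c1 (Z.add Y) + (-(c1 Z / 2))) := by
      funext Y
      unfold kk dist
      ring
    have e1 : avg (AA X) (fun _ => -(c1 Z / 2)) = -(c1 Z / 2) := by
      rw [avg_eq (AA X) (fun _ => -(c1 Z / 2)) (fun _ => -(c1 Z / 2)) (fun _ _ => rfl),
        ← Finset.sum_mul, (AA X).hm.sum_one, one_mul]
    rw [e0, avg_add, avg_add, avg_smul, avg_smul, avg_add, avg_c1, avg_other Z _ hZ, e1]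
    have e2 : (1 / r) * avg (AA X) (fun Y => c1 (Y.add Y)) + (-(1 / r) - 1 / 2) * c1 (AA X)
        + (c1 (Z.add (AA X)) + -(c1 Z / 2))
        = (1 / r) * (avg (AA X) (fun Y => c1 (Y.add Y)) - c1 (AA X)) + dist Z (AA X) := by
      unfold dist
      ring
    rw [e2]
    have e3 : (1 / r) * (avg (AA X) (fun Y => c1 (Y.add Y)) - c1 (AA X)) ≤ (1 / r) * (11 * r ^ 2) :=
      mul_le_mul_of_nonneg_left (by linarith) (by positivity)
    have e4 : (1 / r) * (11 * r ^ 2) = 11 * r := by
      field_simp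
    linarith
  obtain ⟨w, hw, h7⟩ := exists_le_avg (AA X) (fun Y => dist Z Y + (1 / r) * kk Y)
  set Y := at' (AA X) w hw with hY
  have h8 : dist Z Y + (1 / r) * kk Y ≤ 10 * D0 + 30 * r ^ 2 + 11 * r := h7.trans h6
  have hdn := dist_nonneg Z Y
  have hkn := kk_nonneg Y
  have hr4 : 30 * r ^ 2 + 11 * r ≤ 41 * r := by nlinarith
  have h9 : dist Z Y ≤ 10 * D0 + δ := by
    have : 0 ≤ (1 / r) * kk Y := by positivity
    linarith
  have h10 : kk Y ≤ δ := by
    have h11 : (1 / r) * kk Y ≤ 10 * D0 + 51 := by nlinarith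
    have h12 : kk Y ≤ r * (10 * D0 + 51) := by
      have := mul_le_mul_of_nonneg_left h11 hr0.le
      rw [← mul_assoc, mul_one_div_cancel hr0.ne', one_mul] at this
      exact this
    linarith
  -- the law of Y
  refine ⟨law Y.m Y.X, isPM_law Y.hm Y.X, ?_, ?_⟩
  · have a1 : ent (prodPM (law Y.m Y.X) (law Y.m Y.X)) (fun z : W × W => z.1 + z.2)
        = c1 (Y.add Y) := by
      rw [← H_conv_eq_ent, H_conv_law, c1_triv (Y.add Y) (fun _ _ => rfl)]
      rfl
    have a2 : ent (law Y.m Y.X) (fun w => w) = c1 Y := by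
      rw [← H_eq_ent, H_law, c1_triv Y (fun _ _ => rfl)]
    rw [a1, a2]
    exact h10
  · have a1 : ent (prodPM p (law Y.m Y.X)) (fun z : W × W => z.1 + z.2) = c1 (Z.add Y) := by
      have hlp : law p (fun w : W => w) = p := funext (law_id p)
      have := H_conv_law p Y.m (fun w : W => w) Y.X
      rw [hlp, H_conv_eq_ent] at this
      rw [this, c1_triv (Z.add Y) (fun _ _ => rfl)]
      rfl
    have a2 : ent (law Y.m Y.X) (fun w => w) = c1 Y := by
      rw [← H_eq_ent, H_law, c1_triv Y (fun _ _ => rfl)]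
    rw [a1, a2, ← hZ1]
    have : dist Z Y = c1 (Z.add Y) - c1 Z / 2 - c1 Y / 2 := rfl
    rw [← this]
    exact h9

end

end PFREnd
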