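import Pool.Agent.H69.PFR.Core

/-
A single law with small self-distance, close to `q`.
-/

set_option autoImplicit false

open Finset H2INV

namespace Pool.Agent.H69.PFR

/-- Markov: two nonnegative functions with small averages are simultaneously not large. -/
theorem Pick_markov {β : Type} [Fintype β] {l F G : β → ℝ} (hl : ∀ b, 0 ≤ l b) (hl1 : ∑ b, l b = 1)
    {f g M : ℝ} (hM : 0 ≤ M) (hF : ∀ b, 0 < l b → 0 ≤ F b) (hG : ∀ b, 0 < l b → 0 ≤ G b)
    (hf : ∑ b, l b * F b ≤ f) (hg : ∑ b, l b * G b ≤ g) :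
    ∃ b, 0 < l b ∧ G b + M * F b ≤ g + M * f := by
  by_contra hcon
  push Not at hcon
  have h1 : ∀ b ∈ Finset.univ, l b * (g + M * f) ≤ l b * (G b + M * F b) := by
    intro b _
    rcases (hl b).eq_or_lt with h0 | h0
    · rw [← h0, zero_mul, zero_mul]
    · exact mul_le_mul_of_nonneg_left (hcon b h0).le h0.le
  have h2 : ∃ b ∈ Finset.univ, l b * (g + M * f) < l b * (G b + M * F b) := by
    by_contra h3
    push Not at h3
    have h4 : ∀ b, l b = 0 := by
      intro b
      rcases (hl b).eq_or_lt with h0 | h0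
      · exact h0.symm
      · exact absurd (h3 b (Finset.mem_univ b)) (not_le.2 (mul_lt_mul_of_pos_left (hcon b h0) h0))
    simp [h4] at hl1
  have h5 := Finset.sum_lt_sum h1 h2
  rw [← Finset.sum_mul, hl1, one_mul] at h5
  have h6 : ∑ b, l b * (G b + M * F b) = ∑ b, l b * G b + M * ∑ b, l b * F b := by
    rw [Finset.mul_sum, ← Finset.sum_add_distrib]
    exact Finset.sum_congr rfl fun b _ => by ring
  rw [h6] at h5
  have h7 := mul_le_mul_of_nonneg_left hf hM
  linarith

variable {W : Type} [Fintype W] [AddCommGroup W]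

variable [Module (ZMod 2) W]

theorem pick {q : W → ℝ} (hq : IsPM q) {δ : ℝ} (hδ : 0 < δ) :
    ∃ p : W → ℝ, IsPM p ∧ ent (prodPM p p) (fun w => w.1 + w.2) - ent p (fun w => w) ≤ δ ∧
      ent (prodPM q p) (fun w => w.1 + w.2) - ent q (fun w => w) / 2 - ent p (fun w => w) / 2
        ≤ 10 * (ent (prodPM q q) (fun w => w.1 + w.2) - ent q (fun w => w)) + δ := by
  set d := ent (prodPM q q) (fun w => w.1 + w.2) - ent q (fun w => w) with hd
  have hd0 : 0 ≤ d := by
    have h := kk_nonneg hq (fun _ => ()) (fun w => w)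
    unfold kk at h
    obtain ⟨e1, e2, e3⟩ := cnd_single hq (fun w => w)
    rw [e1, e2] at h
    exact h
  -- parameters
  set M : ℝ := (10 * d + δ) / δ with hMdef
  have hM : 0 ≤ M := by positivity
  set e : ℝ := δ / (30 + 24 * M) with hedef
  have he : 0 < e := by positivity
  have heM : 30 * e + M * (24 * e) = δ := by
    rw [hedef]
    field_simp
  obtain ⟨Ω, J, i1, i2, μ, j, x, hμ, hτ⟩ := ifm_near hq he
  have hk := near_kk hq hμ j x hτ.le
  have hI := near_I hq hμ j x hτ.le
  have hk0 := kk_nonneg hμ j x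
  have h3 := fib_kk hμ j x
  have h4 := fib_RR hq hμ j x
  have h5 := ifm_le hq hq (fun _ => ()) (fun w => w)
  rw [tau_self hq, ← hd] at h5
  have hR : RR q μ j x ≤ 10 * d + 9 * e := by
    unfold tau at hτ
    linarith
  -- the fibres
  set l := law (m4 μ) (th j x) with hl
  have hm4 := isPM_m4 hμ
  set y : (Ω × Ω) × (Ω × Ω) → W := fun w => x w.1.1 + x w.1.2 with hy
  obtain ⟨b, hb, hb2⟩ := Pick_markov (l := l)
    (F := fun b => ent (prodPM (condPM (m4 μ) (th j x) b) (condPM (m4 μ) (th j x) b)) (fun v => y v.1 + y v.2)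
      - ent (condPM (m4 μ) (th j x) b) y)
    (G := fun b => ent (prodPM q (condPM (m4 μ) (th j x) b)) (fun v => v.1 + y v.2) - ent q (fun w => w) / 2
        - ent (condPM (m4 μ) (th j x) b) y / 2)
    (f := 24 * e) (g := 10 * d + 30 * e) (M := M)
    (law_nonneg hm4 _) (isPM_law hm4 _).sum_one hM
    (fun b hb => by
      have h := kk_nonneg (isPM_cond hm4 (th j x) hb) (fun _ => ()) y
      unfold kk at h
      obtain ⟨e1, e2, e3⟩ := cnd_single (isPM_cond hm4 (th j x) hb) y
      rw [e1, e2] at h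
      exact h)
    (fun b hb => by
      have h := RR_nonneg hq (isPM_cond hm4 (th j x) hb) (fun _ => ()) y
      unfold RR at h
      obtain ⟨e1, e2, e3⟩ := cnd_single (isPM_cond hm4 (th j x) hb) y
      rw [e1, e3 q] at h
      exact h)
    (by
      have h6 : ∑ b, l b * (ent (prodPM (condPM (m4 μ) (th j x) b) (condPM (m4 μ) (th j x) b)) (fun v => y v.1 + y v.2)
          - ent (condPM (m4 μ) (th j x) b) y) = hs (m4 μ) (th j x) y - h1 (m4 μ) (th j x) y := by
        rw [← avg_h1 hm4, ← avg_hs hm4, ← Finset.sum_sub_distrib]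
        exact Finset.sum_congr rfl fun b _ => by ring
      rw [h6]
      linarith)
    (by
      have h6 : ∑ b, l b * (ent (prodPM q (condPM (m4 μ) (th j x) b)) (fun v => v.1 + y v.2) - ent q (fun w => w) / 2
        - ent (condPM (m4 μ) (th j x) b) y / 2) = RR q (m4 μ) (th j x) y := by
        unfold RR
        rw [← avg_h1 hm4, ← avg_r0 hq hm4]
        have h7 : ent q (fun w => w) / 2 = ∑ b, l b * (ent q (fun w => w) / 2) := by
          rw [← Finset.sum_mul, (isPM_law hm4 _).sum_one, one_mul]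
        rw [h7, Finset.sum_div, ← Finset.sum_sub_distrib, ← Finset.sum_sub_distrib]
        exact Finset.sum_congr rfl fun b _ => by rw [← h7]; ring
      rw [h6]
      linarith)
  set ν := condPM (m4 μ) (th j x) b with hν
  have hνp : IsPM ν := isPM_cond hm4 (th j x) hb
  have hmp : MP ν y (law ν y) := fun w => rfl
  have hF0 := kk_nonneg hνp (fun _ => ()) y
  have hG0 := RR_nonneg hq hνp (fun _ => ()) y
  obtain ⟨e1, e2, e3⟩ := cnd_single hνp y
  unfold kk at hF0
  unfold RR at hG0
  rw [e1, e2] at hF0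
  rw [e1, e3 q] at hG0
  have t1 : ent (law ν y) (fun w => w) = ent ν y := (ent_comp_of_mp hmp (fun w => w)).symm
  have t2 : ent (prodPM (law ν y) (law ν y)) (fun w => w.1 + w.2) = ent (prodPM ν ν) (fun v => y v.1 + y v.2) :=
    (ent_comp_of_mp (mp_prodMap hmp hmp) (fun w : W × W => w.1 + w.2)).symm
  have t3 : ent (prodPM q (law ν y)) (fun w => w.1 + w.2) = ent (prodPM q ν) (fun v => v.1 + y v.2) :=
    (ent_comp_of_mp (mp_prodMap (mp_id q) hmp) (fun w : W × W => w.1 + w.2)).symm
  refine ⟨law ν y, isPM_law hνp y, ?_, ?_⟩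
  · rw [t1, t2]
    -- M * F ≤ 10 d + δ
    have h8 : M * (ent (prodPM ν ν) (fun v => y v.1 + y v.2) - ent ν y) ≤ 10 * d + δ := by linarith
    by_contra h9
    push Not at h9
    have h10 : 0 < M := by positivity
    have h11 := mul_lt_mul_of_pos_left h9 h10
    have h12 : M * δ = 10 * d + δ := by rw [hMdef]; field_simp
    linarith
  · rw [t1, t3]
    have h8 := mul_nonneg hM hF0
    linarith

end Pool.Agent.H69.PFR
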