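import Pool.Agent.H69.PFR.Defs

/-
ROW PickA. Triangle inequality and double averages. Aux lemmas prefixed PickA_. PROOF.
`tri`: for independent X, X' ~ (ν, x), Y ~ (ν', y): `ent (X + X') + ent Y ≤ 2 ent (X + Y)`: on `prodPM ν (prodPM ν' ν)` = (X, Y, X'): ent_sub with A = (X, Y + X'), B = (X + Y, X'), C = X + (Y + X'), J = (X, Y, X'), so
   `ent X + ent Y + ent X' + ent (X + Y + X') ≤ (ent X + ent (Y + X')) + (ent (X + Y) + ent X')`, and `ent (X + X') ≤ ent (X + Y + X')` (ent_sub with A = X + (Y + X'), B = Y, C = (), J = (X + X', Y), and (X + X', Y) independent: ent_prod after ent_equiv). `ent (Y + X') = ent (X + Y)`: mp_swap, add_comm.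
`avg2`: cent_eq_sum for `prodPM μ μ`, f = x + x', g = (j w.1, j w.2), `law (prodPM μ μ) (j, j') (b, b') = law μ j b * law μ j b'`, `condPM (prodPM μ μ) (j, j') (b, b') = prodPM (condPM μ j b) (condPM μ j b')`, Fintype.sum_prod_type.
-/

set_option autoImplicit false

open Finset H2INV

namespace Pool.Agent.H69.PFR

variable {Ω Ω' J : Type} [Fintype Ω] [Fintype Ω'] [Fintype J] {W : Type} [Fintype W] [AddCommGroup W]

theorem tri {ν : Ω → ℝ} (hν : IsPM ν) {ν' : Ω' → ℝ} (hν' : IsPM ν') (x : Ω → W) (y : Ω' → W) :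
    ent (prodPM ν ν) (fun w => x w.1 + x w.2) + ent ν' y ≤ 2 * ent (prodPM ν ν') (fun w => x w.1 + y w.2) := sorry

theorem avg2 {μ : Ω → ℝ} (hμ : IsPM μ) (j : Ω → J) (x : Ω → W) :
    ∑ b, law μ j b * ∑ b', law μ j b' * ent (prodPM (condPM μ j b) (condPM μ j b')) (fun u => x u.1 + x u.2) = h2 μ j x := sorry

end Pool.Agent.H69.PFR
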