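import Pool.Agent.H69.PFR.Defs

/-
ROW Quad. Entropies of quadruples. Aux lemmas prefixed Quad_. PROOF. Write Hj = ent μ j. Permutations of the four copies preserve `m4 μ` (ent_equiv with an explicit Equiv of (Ω × Ω) × (Ω × Ω); weights by ring).
`q_s`: definition of h4 (rfl after unfolding).
`q_sa`: `(sg, x1 + x2)` has the kernel of `((j1, j2, x1 + x2), (j3, j4, x3 + x4))`: ent_prod: `2 (h2 + 2 Hj)`.
`q_sb`: the same after the permutation 2 <-> 3.   `q_sc`: `(x1 + x2) + (x1 + x3) = x2 + x3` (char 2, ZModModule.add_self) and `S - (x2 + x3) = x1 + x4`: permutation taking {1,4},{2,3} to {1,2},{3,4}.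
`q_sab`: `(sg, x1 + x2, x1 + x3)` has the kernel of g4.   `q_tha`: `(th, x1 + x2)` has the kernel of `(sg, x1 + x2, x1 + x3)`.
`q_m`: ent_sub with A = (j1, j2, x1 + x2), B = th, C = (j1, j2), J = (th, x1 + x2): `(g4 + 4 Hj) + 2 Hj ≤ (h2 + 2 Hj) + (2 h2 + 4 Hj)`.
-/

set_option autoImplicit false

open Finset H2INV

namespace Pool.Agent.H69.PFR

variable {Ω J : Type} [Fintype Ω] {W : Type} [Fintype W] [AddCommGroup W]

theorem q_s (μ : Ω → ℝ) (j : Ω → J) (x : Ω → W) :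
    ent (m4 μ) (sg j x) = h4 μ j x + 4 * ent μ j := sorry

theorem q_sa {μ : Ω → ℝ} (hμ : IsPM μ) (j : Ω → J) (x : Ω → W) :
    ent (m4 μ) (fun w => (sg j x w, x w.1.1 + x w.1.2)) = 2 * h2 μ j x + 4 * ent μ j := sorry

theorem q_sb {μ : Ω → ℝ} (hμ : IsPM μ) (j : Ω → J) (x : Ω → W) :
    ent (m4 μ) (fun w => (sg j x w, x w.1.1 + x w.2.1)) = 2 * h2 μ j x + 4 * ent μ j := sorry

variable [Module (ZMod 2) W]

theorem q_sc {μ : Ω → ℝ} (hμ : IsPM μ) (j : Ω → J) (x : Ω → W) :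
    ent (m4 μ) (th j x) = 2 * h2 μ j x + 4 * ent μ j := sorry

theorem q_sab (μ : Ω → ℝ) (j : Ω → J) (x : Ω → W) :
    ent (m4 μ) (fun w => (sg j x w, x w.1.1 + x w.1.2, x w.1.1 + x w.2.1)) = g4 μ j x + 4 * ent μ j := sorry

theorem q_tha (μ : Ω → ℝ) (j : Ω → J) (x : Ω → W) :
    ent (m4 μ) (fun w => (th j x w, x w.1.1 + x w.1.2)) = g4 μ j x + 4 * ent μ j := sorry

theorem q_m {μ : Ω → ℝ} (hμ : IsPM μ) (j : Ω → J) (x : Ω → W) : g4 μ j x ≤ 3 * h2 μ j x := sorry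

end Pool.Agent.H69.PFR
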