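import Pool.Agent.H69.PFR.Pfr

/-! PFR*: the pair/single-family minimisation with a fixed labelled family `B`
(helper68's Theorem 1 of H68_Epp.md, single-family form, constant 5). -/

set_option autoImplicit false

namespace PFREnd

open H2INV Finset Pool.Agent.H96.F2

noncomputable section

variable {W : Type} [AddCommGroup W] [Module (ZMod 2) W] [Finite W]

/-- log of the size of a subgroup -/
def lsz (V : AddSubgroup W) : ℝ := Real.log (Nat.card V)

omit [Module (ZMod 2) W] [Finite W] in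
theorem c1_nonneg (X : Fam W) : 0 ≤ c1 X := cent_nonneg X.hm _ _

omit [Module (ZMod 2) W] [Finite W] in
theorem c1_comm (X Y : Fam W) : c1 (X.add Y) = c1 (Y.add X) := by
  have h := cent_comp_of_mp (mp_swap X.m Y.m) (fun w : Y.Om × X.Om => Y.X w.1 + X.X w.2)
    (fun w => (Y.lab w.1, X.lab w.2))
  have h2 : c1 (Y.add X) = cent (prodPM Y.m X.m) (fun w : Y.Om × X.Om => Y.X w.1 + X.X w.2)
    (fun w => (Y.lab w.1, X.lab w.2)) := rfl
  rw [h2, ← h]
  have h3 : c1 (X.add Y) = cent (prodPM X.m Y.m) (fun w : X.Om × Y.Om => X.X w.1 + Y.X w.2)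
    (fun w => (X.lab w.1, Y.lab w.2)) := rfl
  rw [h3]
  exact cent_congr _ (fun w w' => by
    simp only [Prod.fst_swap, Prod.snd_swap, Prod.mk.injEq]
    tauto) (fun w w' _ => by
    simp only [Prod.fst_swap, Prod.snd_swap]
    rw [add_comm (Y.X w.2), add_comm (Y.X w'.2)])

omit [Module (ZMod 2) W] [Finite W] in
/-- conditioning both summands reduces the entropy of the sum -/
theorem c1_add_VV (Z X : Fam W) : c1 (Z.add (AA X)) ≤ c1 (Z.add (X.add X)) := by
  have h1 : c1 (Z.add (AA X)) ≤ cent (prodPM Z.m (prodPM (prodPM X.m X.m) (prodPM X.m X.m)))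
      (fun w => Z.X w.1 + (X.X w.2.1.1 + X.X w.2.2.1))
      (fun w => (Z.lab w.1, (X.lab w.2.1.1, X.lab w.2.2.1))) :=
    cent_anti (Z.add (AA X)).hm (Z.add (AA X)).X (fun w w' h => by
      simp only [Fam.add, AA, V, Prod.mk.injEq] at h ⊢
      tauto)
  have hmp : MP (prodPM Z.m (prodPM (prodPM X.m X.m) (prodPM X.m X.m)))
      (fun w => (w.1, (w.2.1.1, w.2.2.1))) (prodPM Z.m (prodPM X.m X.m)) :=
    mp_prodMap (mp_id Z.m) (mp_prodMap (mp_fst X.hm) (mp_fst X.hm))
  have h2 := cent_comp_of_mp hmp (Z.add (X.add X)).X (Z.add (X.add X)).lab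
  refine h1.trans (le_of_eq ?_)
  exact h2

omit [Module (ZMod 2) W] [Finite W] in
/-- averages over the labels of the second family, the first one may have a label too -/
theorem avg_add_right (Z X : Fam W) : avg X (fun Y => c1 (Z.add Y)) = c1 (Z.add X) := by
  have e1 : avg X (fun Y => c1 (Z.add Y)) = ∑ w, X.m w *
      (ent (prodPM Z.m (condPM X.m X.lab (X.lab w)))
        (pr (fun z : Z.Om × X.Om => Z.X z.1 + X.X z.2) (fun z => Z.lab z.1))
      - ent (prodPM Z.m (condPM X.m X.lab (X.lab w))) (fun z : Z.Om × X.Om => Z.lab z.1)) := by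
    refine avg_eq X (fun Y => c1 (Z.add Y)) _ fun w hw => ?_
    have : c1 (Z.add (at' X w hw)) = cent (prodPM Z.m (condPM X.m X.lab (X.lab w)))
        (fun z : Z.Om × X.Om => Z.X z.1 + X.X z.2) (fun z => Z.lab z.1) :=
      cent_congr _ (fun w w' => by simp only [Fam.add, Prod.mk.injEq]; tauto)
        (fun _ _ _ => Iff.rfl)
    rw [this]
    rfl
  rw [e1]
  simp_rw [mul_sub]
  rw [Finset.sum_sub_distrib, ← cent_prod_avg Z.hm X.hm, ← cent_prod_avg Z.hm X.hm]
  have h1 := cent_chain (prodPM Z.m X.m) (fun z : Z.Om × X.Om => Z.X z.1 + X.X z.2)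
    (fun z : Z.Om × X.Om => Z.lab z.1) (fun z => X.lab z.2)
  rw [h1]
  have h2 : c1 (Z.add X) = cent (prodPM Z.m X.m) (fun z : Z.Om × X.Om => Z.X z.1 + X.X z.2)
    (pr (fun z : Z.Om × X.Om => Z.lab z.1) (fun z => X.lab z.2)) := rfl
  rw [h2]
  ring

/-- support version: the family lives in `V` -/
def InS (X : Fam W) (V : AddSubgroup W) : Prop :=
  ∀ v w, X.m v ≠ 0 → X.m w ≠ 0 → X.lab v = X.lab w → X.X v - X.X w ∈ V

omit [Module (ZMod 2) W] [Finite W] in
theorem InS_add {X Y : Fam W} {V : AddSubgroup W} (hX : InS X V) (hY : InS Y V) :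
    InS (X.add Y) V := by
  intro v w hv hw h
  have hv' : X.m v.1 * Y.m v.2 ≠ 0 := hv
  have hw' : X.m w.1 * Y.m w.2 ≠ 0 := hw
  have h' : X.lab v.1 = X.lab w.1 ∧ Y.lab v.2 = Y.lab w.2 := Prod.mk.inj h
  have h1 := hX v.1 w.1 (left_ne_zero_of_mul hv') (left_ne_zero_of_mul hw') h'.1
  have h2 := hY v.2 w.2 (right_ne_zero_of_mul hv') (right_ne_zero_of_mul hw') h'.2
  have e : (X.add Y).X v - (X.add Y).X w = (X.X v.1 - X.X w.1) + (Y.X v.2 - Y.X w.2) := by
    simp only [Fam.add]
    abel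
  rw [e]
  exact V.add_mem h1 h2

omit [Module (ZMod 2) W] [Finite W] in
theorem InS_V {X : Fam W} {U : AddSubgroup W} (hX : InS X U) : InS (V X) U := by
  intro v w hv hw h
  have hv' : X.m v.1 * X.m v.2 ≠ 0 := hv
  have hw' : X.m w.1 * X.m w.2 ≠ 0 := hw
  have h' : X.lab v.1 = X.lab w.1 := by
    simp only [V, Prod.mk.injEq] at h
    exact h.2.1
  exact hX v.1 w.1 (left_ne_zero_of_mul hv') (left_ne_zero_of_mul hw') h'

omit [Module (ZMod 2) W] [Finite W] in
theorem condPM_supp {Om β : Type*} [Fintype Om] {m : Om → ℝ} {g : Om → β} {b : β} {w : Om}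
    (h : condPM m g b w ≠ 0) : m w ≠ 0 ∧ g w = b := by
  classical
  unfold condPM at h
  by_cases hg : g w = b
  · rw [if_pos hg] at h
    exact ⟨fun h0 => h (by rw [h0, zero_div]), hg⟩
  · rw [if_neg hg] at h
    exact (h rfl).elim

omit [Module (ZMod 2) W] [Finite W] in
theorem InS_at {X : Fam W} {U : AddSubgroup W} (hX : InS X U) (w : X.Om) (hw : X.m w ≠ 0) :
    InS (at' X w hw) U := by
  intro v v' hv hv' _
  obtain ⟨a1, a2⟩ := condPM_supp hv
  obtain ⟨b1, b2⟩ := condPM_supp hv'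
  exact hX v v' a1 b1 (a2.trans b2.symm)

/-- the linear part of the functional -/
def Phi (s : ℝ) (B : Fam W) (U : AddSubgroup W) (X : Fam W) : ℝ :=
  s * (lsz U - c1 X) - (lsz U - c1 (B.add X))

/-- the functional -/
def taus (s : ℝ) (B : Fam W) (U : AddSubgroup W) (X : Fam W) : ℝ := 5 * kk X + Phi s B U X

omit [Module (ZMod 2) W] [Finite W] in
theorem Phi_lower {s : ℝ} (hs0 : 0 ≤ s) (hs1 : s ≤ 1) (B : Fam W) (U : AddSubgroup W)
    (X : Fam W) : -lsz U ≤ Phi s B U X := by
  have h1 := c1_le_add_right B X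
  have h2 := c1_nonneg X
  have h3 : 0 ≤ lsz U := Real.log_natCast_nonneg _
  unfold Phi
  nlinarith [mul_nonneg (sub_nonneg.2 hs1) h2, mul_nonneg hs0 h3]

omit [Module (ZMod 2) W] [Finite W] in
theorem avg_const (X : Fam W) (c : ℝ) : avg X (fun _ => c) = c := by
  classical
  rw [avg_eq X (fun _ => c) (fun _ => c) (fun _ _ => rfl), ← Finset.sum_mul, X.hm.sum_one,
    one_mul]

omit [Module (ZMod 2) W] [Finite W] in
theorem avg_Phi (s : ℝ) (B : Fam W) (U : AddSubgroup W) (X : Fam W) :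
    avg X (Phi s B U) = Phi s B U X := by
  have e0 : Phi s B U = fun Y : Fam W => (-s) * c1 Y + (c1 (B.add Y) + (s * lsz U - lsz U)) := by
    funext Y
    unfold Phi
    ring
  rw [e0, avg_add, avg_smul, avg_add, avg_c1, avg_add_right, avg_const]

omit [Module (ZMod 2) W] [Finite W] in
theorem avg_kk (X : Fam W) : avg X kk = avg X (fun Y => c1 (Y.add Y)) - c1 X := by
  have e0 : (kk : Fam W → ℝ) = fun Y : Fam W => c1 (Y.add Y) + (-1) * c1 Y := by
    funext Y
    unfold kk
    ring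
  rw [e0, avg_add, avg_smul, avg_c1]
  ring

omit [Module (ZMod 2) W] [Finite W] in
theorem avg_mono_on (X : Fam W) {F : Fam W → ℝ} {t : ℝ}
    (h : ∀ (w : X.Om) (hw : X.m w ≠ 0), t ≤ F (at' X w hw)) : t ≤ avg X F := by
  classical
  unfold avg
  calc t = ∑ w, X.m w * t := by rw [← Finset.sum_mul, X.hm.sum_one, one_mul]
    _ ≤ _ := Finset.sum_le_sum fun w _ => by
      by_cases hw : X.m w = 0
      · rw [dif_neg (not_not.2 hw), mul_zero, hw, zero_mul]
      · rw [dif_pos hw]
        exact mul_le_mul_of_nonneg_left (h w hw) (X.hm.nonneg w)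

/-- main inequalities at a near-minimiser -/
theorem star_step {s : ℝ} (hs0 : 0 ≤ s) (hs1 : s ≤ 1) (B : Fam W) (U : AddSubgroup W) (X : Fam W)
    (hXU : InS X U) {e : ℝ} (he : 0 ≤ e)
    (hX : ∀ Y : Fam W, InS Y U → taus s B U X ≤ taus s B U Y + e) :
    kk X ≤ 9 * e ∧ avg (AA X) kk ≤ 7 * e ∧ Phi s B U (AA X) ≤ Phi s B U X + 11 * e := by
  have hk := kk_nonneg X
  have hI := II_nonneg X
  have f1 := fibring X
  have m1 := hX (X.add X) (InS_add hXU hXU)
  have m2 := hX (V X) (InS_V hXU)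
  have hAU : InS (AA X) U := InS_add (InS_V hXU) (InS_V hXU)
  have b := avg_AA X
  have kY := kk_nonneg (X.add X)
  have kv := kk_nonneg (V X)
  have p1 := c1_add_add B X X
  have p2 := c1_add_V B X
  have p3 := c1_add_VV B X
  have q1 := c1_V X
  -- entropies
  have hkk : kk X = c1 (X.add X) - c1 X := rfl
  have hkV : kk (V X) = c1 (AA X) - c1 (V X) := rfl
  have hkY : kk (X.add X) = c1 ((X.add X).add (X.add X)) - c1 (X.add X) := rfl
  -- consequences of near-minimality
  have a1 : 5 * kk (X.add X) ≥ 5 * kk X + s * kk X - kk X - e := by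
    unfold taus Phi at m1
    rw [hkk] at m1 ⊢
    nlinarith
  have a2 : 5 * kk (V X) ≥ 5 * kk X - s * kk X - e := by
    unfold taus Phi at m2
    rw [q1] at m2
    rw [hkk] at m2 ⊢
    nlinarith
  have hI2 : 5 * II X ≤ kk X + 2 * e := by linarith
  have havg : avg (AA X) kk ≤ 3 * II X := by
    rw [avg_kk]
    linarith
  -- entropy of AA
  have hA : c1 X - (s * kk X + e) / 5 ≤ c1 (AA X) := by
    have : c1 (AA X) = kk (V X) + (2 * c1 X - c1 (X.add X)) := by
      rw [hkV, q1]
      ring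
    rw [this]
    linarith
  have hPhi : Phi s B U (AA X) ≤ Phi s B U X + kk X + (s * kk X + e) / 5 := by
    unfold Phi
    have h1 : s * (c1 X - c1 (AA X)) ≤ 1 * ((s * kk X + e) / 5) := by
      have h0 : 0 ≤ (s * kk X + e) / 5 := by positivity
      have h2 : s * (c1 X - c1 (AA X)) ≤ s * ((s * kk X + e) / 5) :=
        mul_le_mul_of_nonneg_left (by linarith) hs0
      exact h2.trans (mul_le_mul_of_nonneg_right hs1 h0)
    linarith
  have hsk : s * kk X ≤ kk X := by
    have := mul_le_mul_of_nonneg_right hs1 hk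
    linarith
  -- average of tau over the single laws
  have a3 := avg_mono_on (AA X) (F := fun Y => 5 * kk Y + Phi s B U Y) (t := taus s B U X - e)
    (fun w hw => by
      have := hX _ (InS_at hAU w hw)
      unfold taus at this ⊢
      linarith)
  rw [avg_add, avg_smul, avg_Phi] at a3
  unfold taus at a3
  have hk9 : kk X ≤ 9 * e := by linarith
  refine ⟨hk9, by linarith, by linarith⟩

/-- `H(B + X | label)` as a function of the law of `X` -/
def GB [Fintype W] (B : Fam W) (q : W → ℝ) : ℝ :=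
  ∑ w, B.m w * H (conv (law (condPM B.m B.lab (B.lab w)) B.X) q)

omit [Finite W] in
theorem continuous_GB [Fintype W] (B : Fam W) : Continuous (GB B) := by
  unfold GB
  refine continuous_finsetSum _ fun w _ => continuous_const.mul ?_
  exact continuous_H.comp (continuous_conv_right _)

omit [Module (ZMod 2) W] [Finite W] in
theorem c1_add_left_avg (B Z : Fam W) : c1 (B.add Z) = avg B (fun Y => c1 (Y.add Z)) := by
  rw [c1_comm, ← avg_add_right]
  congr 1
  funext Y
  exact c1_comm Z Y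

omit [Finite W] in
theorem GB_eq [Fintype W] (B Z : Fam W) (hZ : ∀ w w', Z.lab w = Z.lab w') :
    c1 (B.add Z) = GB B (law Z.m Z.X) := by
  rw [c1_add_left_avg]
  unfold GB
  refine avg_eq B _ _ fun w hw => ?_
  have h1 := H_conv_law (condPM B.m B.lab (B.lab w)) Z.m B.X Z.X
  rw [h1]
  exact cent_triv ((at' B w hw).add Z).hm _ _ (fun _ _ => Prod.ext rfl (hZ _ _))

end

end PFREnd
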