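import Pool.Agent.H69.PFR.Bas

/-
The family of sums `Y = x₁ + x₂` with labels `(j₁, j₂)`.
-/

set_option autoImplicit false

open Finset H2INV

namespace Pool.Agent.H69.PFR

variable {Ω J : Type} [Fintype Ω] {W : Type} [Fintype W] [AddCommGroup W]

theorem Y_h1 {μ : Ω → ℝ} (hμ : IsPM μ) (j : Ω → J) (x : Ω → W) :
    h1 (prodPM μ μ) (fun w => (j w.1, j w.2)) (fun w => x w.1 + x w.2) = h2 μ j x := by
  unfold h1 h2
  rw [Bas_jj hμ]
  congr 1
  exact ent_congr _ fun w w' => by simp only [Prod.mk.injEq, and_assoc]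

theorem Y_h2 {μ : Ω → ℝ} (hμ : IsPM μ) (j : Ω → J) (x : Ω → W) :
    h2 (prodPM μ μ) (fun w => (j w.1, j w.2)) (fun w => x w.1 + x w.2) = h4 μ j x := by
  unfold h2 h4 m4
  rw [Bas_jj hμ]
  have h : ent (prodPM (prodPM μ μ) (prodPM μ μ)) (fun w => ((j w.1.1, j w.1.2), (j w.2.1, j w.2.2),
      (x w.1.1 + x w.1.2) + (x w.2.1 + x w.2.2))) = ent (prodPM (prodPM μ μ) (prodPM μ μ)) (fun w => (((j w.1.1, j w.1.2), (j w.2.1, j w.2.2)),
    (x w.1.1 + x w.1.2) + (x w.2.1 + x w.2.2))) :=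
    ent_congr _ fun w w' => by simp only [Prod.mk.injEq, and_assoc]
  rw [h]
  ring

/-- regrouping three independent variables -/
theorem SumF_assoc {α β γ : Type} [Fintype α] [Fintype β] [Fintype γ] (m : α → ℝ) (m' : β → ℝ) (m'' : γ → ℝ) {δ : Type}
    (f : (α × β) × γ → δ) :
    ent (prodPM m (prodPM m' m'')) (fun w => f ((w.1, w.2.1), w.2.2)) = ent (prodPM (prodPM m m') m'') f :=
  ent_equiv (Equiv.prodAssoc α β γ).symm (fun w => by simp [prodPM, mul_assoc]) f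

theorem Y_r0 {q : W → ℝ} (hq : IsPM q) {μ : Ω → ℝ} (hμ : IsPM μ) (j : Ω → J) (x : Ω → W) :
    r0 q (prodPM μ μ) (fun w => (j w.1, j w.2)) (fun w => x w.1 + x w.2) ≤ r0 q μ j x + h2 μ j x - h1 μ j x := by
  have hp := isPM_prod hμ hμ
  have h := ent_sub (isPM_prod hq hp)
    (A := fun w : W × (Ω × Ω) => (w.1, (j w.2.1, j w.2.2, x w.2.1 + x w.2.2)))
    (B := fun w : W × (Ω × Ω) => ((j w.2.1, w.1 + x w.2.1), (j w.2.2, x w.2.2)))
    (C := fun w : W × (Ω × Ω) => ((j w.2.1, j w.2.2), w.1 + (x w.2.1 + x w.2.2)))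
    (J := fun w : W × (Ω × Ω) => (w.1, ((j w.2.1, x w.2.1), (j w.2.2, x w.2.2))))
    (fun v w h => by
      simp only [Prod.mk.injEq] at h ⊢
      obtain ⟨h1, h2, h3, h4⟩ := h
      exact ⟨⟨h2, h3⟩, by rw [h1, h4]⟩)
    (fun v w h => by
      simp only [Prod.mk.injEq] at h ⊢
      obtain ⟨⟨h1, h2⟩, h3, h4⟩ := h
      exact ⟨⟨h1, h3⟩, by rw [← add_assoc, ← add_assoc, h2, h4]⟩)
    (fun v w h h' => by
      simp only [Prod.mk.injEq] at h h' ⊢
      obtain ⟨h1, h2, h3, h4⟩ := h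
      obtain ⟨⟨g1, g2⟩, g3, g4⟩ := h'
      rw [h1] at g2
      exact ⟨h1, ⟨h2, add_left_cancel g2⟩, g3, g4⟩)
  rw [ent_prod hq hp (fun w => w) (fun w => ((j w.1, x w.1), (j w.2, x w.2))),
    ent_prod hμ hμ (fun w => (j w, x w)) (fun w => (j w, x w)),
    ent_prod hq hp (fun w => w) (fun w => (j w.1, j w.2, x w.1 + x w.2))] at h
  have e := SumF_assoc q μ μ (fun w : (W × Ω) × Ω => ((j w.1.2, w.1.1 + x w.1.2), (j w.2, x w.2)))
  simp only at e
  rw [e, ent_prod (isPM_prod hq hμ) hμ (fun w => (j w.2, w.1 + x w.2)) (fun w => (j w, x w))] at h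
  unfold r0 h2 h1
  rw [Bas_jj hμ]
  linarith

end Pool.Agent.H69.PFR
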